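import Pool.Agent.Bl169.Seq
set_option autoImplicit false
open Set Filter Topology Metric MeasureTheory

namespace Pool.Agent.Bl169

/-- state of the chain: `|C_i| = |B_i|^r` -/
def St (i : ℕ) (x : E) (r : ℝ) : Prop :=
  fB i x ≠ 0 ∧ fC i x ≠ 0 ∧ ‖fA i x‖ ≤ 5 / 4 * ‖fB i x‖ ∧
    Real.log ‖fC i x‖ = r * Real.log ‖fB i x‖ ∧ 1 ≤ r ∧ r ≤ 2 ^ (2 * i + 8)

/-- auxiliary: one step down -/
theorem j14003_step (i : ℕ) (x : E) (hx : x ∈ Om) (r : ℝ) (h : St (i + 1) x r) :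
    ∃ r', St i x r' ∧ (2 : ℝ) ^ (2 * i + 7) / r ≤ r' ∧ r' ≤ 1 + (2 : ℝ) ^ (2 * i + 7) / r := by
  obtain ⟨hB, hC, hA, hl', hr1, hr2⟩ := h
  have hr0 : 0 < r := by linarith
  have hN16 : 16 ≤ NN i := le_trans (by norm_num) (NN_ge i)
  have hNR : (NN i : ℝ) = 2 ^ (i + 10) := by unfold NN; push_cast; rfl
  have hN0 : (0 : ℝ) < NN i := by rw [hNR]; positivity
  have hlam : ((2 * hl i : ℕ) : ℝ) = 2 ^ (3 * i + 17) := by
    unfold hl
    push_cast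
    rw [← pow_succ']
  have h2r : 2 * r ≤ ((2 * hl i : ℕ) : ℝ) := by
    rw [hlam]
    calc 2 * r ≤ 2 * 2 ^ (2 * (i + 1) + 8) := by linarith
      _ = (2 : ℝ) ^ (2 * i + 11) := by
          rw [← pow_succ']
          congr 1
      _ ≤ 2 ^ (3 * i + 17) := pow_le_pow_right₀ (by norm_num) (by omega)
  obtain ⟨hb0, hc0, hab, r', hr', hlo, hhi⟩ := chain_step (NN i) (2 * hl i) hN16 (fA i x) (fB i x)
    (fC i x) (fB_le i x hx) r hA hB hC hl' hr1 h2r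
  have hlamN : ((2 * hl i : ℕ) : ℝ) / NN i = 2 ^ (2 * i + 7) := by
    rw [hlam, hNR, div_eq_iff (by positivity), ← pow_add]
    congr 1
    omega
  have hq : ((2 * hl i : ℕ) : ℝ) / r / NN i = 2 ^ (2 * i + 7) / r := by
    rw [div_right_comm, hlamN]
  have h1N : 1 / (NN i : ℝ) ≤ 1 / 16 := by
    apply one_div_le_one_div_of_le (by norm_num)
    exact_mod_cast hN16
  have h1N0 : 0 < 1 / (NN i : ℝ) := by positivity
  have e1 : (((2 * hl i : ℕ) : ℝ) / r - 1) / NN i = 2 ^ (2 * i + 7) / r - 1 / NN i := by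
    rw [sub_div, hq]
  rw [e1] at hlo hhi
  have hP1 : (2 : ℝ) ^ (2 * i + 7) / r ≤ 2 ^ (2 * i + 7) := div_le_self (by positivity) hr1
  have hP2 : 2 / (NN i : ℝ) ≤ (2 : ℝ) ^ (2 * i + 7) / r := by
    rw [← hq]
    apply div_le_div_of_nonneg_right _ hN0.le
    rw [le_div_iff₀ hr0]
    exact h2r
  have h2N : 2 / (NN i : ℝ) = 2 * (1 / NN i) := by ring
  refine ⟨r', ⟨hb0, hc0, hab, hr', ?_, ?_⟩, ?_, ?_⟩
  · linarith
  · have e2 : (2 : ℝ) ^ (2 * i + 8) = 2 * 2 ^ (2 * i + 7) := by rw [← pow_succ']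
    have e3 : (1 : ℝ) ≤ 2 ^ (2 * i + 7) := one_le_pow₀ (by norm_num)
    linarith
  · linarith
  · linarith

theorem j14003_start (j : ℕ) (x : E) (h1 : ‖fA j x‖ = ‖fB j x‖) (h2 : ‖fB j x‖ = ‖fC j x‖) :
    St j x 1 := by
  have hW := WW_pos j x
  have hB : 0 < ‖fB j x‖ := by
    unfold WW at hW
    rw [h1, ← h2, max_self, max_self] at hW
    exact hW
  refine ⟨norm_pos_iff.1 hB, norm_pos_iff.1 (h2 ▸ hB), ?_, ?_, le_rfl, ?_⟩
  · rw [h1]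
    linarith
  · rw [← h2, one_mul]
  · exact one_le_pow₀ (by norm_num)

/-- TARGET 1 -/
theorem down_hi (i : ℕ) (x : E) (hx : x ∈ Om) (r : ℝ) (h : St (i + 1) x r)
    (hr : r ≤ 2 ^ (i + 3) + 2) :
    ∃ r', St i x r' ∧ (2 : ℝ) ^ (2 * i + 5) / (2 ^ (i + 1) + 1) ≤ r' := by
  obtain ⟨r', hS, hlo, _⟩ := j14003_step i x hx r h
  refine ⟨r', hS, le_trans ?_ hlo⟩
  have hr1 : 1 ≤ r := h.2.2.2.2.1
  have hr0 : 0 < r := by linarith
  rw [div_le_div_iff₀ (by positivity) hr0]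
  have e1 : (2 : ℝ) ^ (2 * i + 7) = 4 * 2 ^ (2 * i + 5) := by
    rw [show 2 * i + 7 = (2 * i + 5) + 2 by omega, pow_add]; ring
  have e2 : (2 : ℝ) ^ (i + 3) = 4 * 2 ^ (i + 1) := by
    rw [show i + 3 = (i + 1) + 2 by omega, pow_add]; ring
  rw [e1]
  rw [e2] at hr
  have hp : (0 : ℝ) ≤ 2 ^ (2 * i + 5) := by positivity
  calc (2 : ℝ) ^ (2 * i + 5) * r ≤ 2 ^ (2 * i + 5) * (4 * 2 ^ (i + 1) + 4) :=
        mul_le_mul_of_nonneg_left (by linarith) hp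
    _ = 4 * 2 ^ (2 * i + 5) * (2 ^ (i + 1) + 1) := by ring

/-- TARGET 2 -/
theorem down_lo (i : ℕ) (x : E) (hx : x ∈ Om) (r : ℝ) (h : St (i + 1) x r)
    (hr : (2 : ℝ) ^ (2 * i + 7) / (2 ^ (i + 2) + 1) ≤ r) :
    ∃ r', St i x r' ∧ r' ≤ 2 ^ (i + 2) + 2 := by
  obtain ⟨r', hS, _, hhi⟩ := j14003_step i x hx r h
  refine ⟨r', hS, le_trans hhi ?_⟩
  have hr1 : 1 ≤ r := h.2.2.2.2.1
  have hr0 : 0 < r := by linarith
  have h3 : (2 : ℝ) ^ (2 * i + 7) / r ≤ 2 ^ (i + 2) + 1 := by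
    rw [div_le_iff₀ hr0]
    rw [div_le_iff₀ (by positivity)] at hr
    linarith
  linarith

/-- TARGET 3 -/
theorem triple_even (k : ℕ) (x : E) (hx : x ∈ Om) (h1 : ‖fA (2 * k) x‖ = ‖fB (2 * k) x‖)
    (h2 : ‖fB (2 * k) x‖ = ‖fC (2 * k) x‖) : ∃ r, St 0 x r ∧ r ≤ 6 := by
  have key : ∀ k : ℕ, ∀ r : ℝ, St (2 * k) x r → r ≤ 2 ^ (2 * k + 2) + 2 →
      ∃ r, St 0 x r ∧ r ≤ 6 := by
    intro k
    induction k with
    | zero =>
      intro r hS hr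
      exact ⟨r, hS, hr.trans (by norm_num)⟩
    | succ k ih =>
      intro r hS hr
      obtain ⟨r1, hS1, hr1⟩ := down_hi (2 * k + 1) x hx r hS (by
        have e : 2 * (k + 1) + 2 = 2 * k + 1 + 3 := by omega
        rw [e] at hr
        exact hr)
      obtain ⟨r2, hS2, hr2⟩ := down_lo (2 * k) x hx r1 hS1 (by
        have e1 : 2 * (2 * k + 1) + 5 = 2 * (2 * k) + 7 := by omega
        have e2 : 2 * k + 1 + 1 = 2 * k + 2 := by omega
        rw [e1, e2] at hr1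
        exact hr1)
      exact ih r2 hS2 hr2
  refine key k 1 (j14003_start _ x h1 h2) ?_
  have : (0 : ℝ) < 2 ^ (2 * k + 2) := by positivity
  linarith

/-- TARGET 4 -/
theorem triple_odd (k : ℕ) (x : E) (hx : x ∈ Om) (h1 : ‖fA (2 * k + 1) x‖ = ‖fB (2 * k + 1) x‖)
    (h2 : ‖fB (2 * k + 1) x‖ = ‖fC (2 * k + 1) x‖) : ∃ r, St 0 x r ∧ 32 / 3 ≤ r := by
  have key : ∀ k : ℕ, ∀ r : ℝ, St (2 * k) x r →
      (2 : ℝ) ^ (2 * (2 * k) + 5) / (2 ^ (2 * k + 1) + 1) ≤ r → ∃ r, St 0 x r ∧ 32 / 3 ≤ r := by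
    intro k
    induction k with
    | zero =>
      intro r hS hr
      refine ⟨r, hS, le_trans ?_ hr⟩
      norm_num
    | succ k ih =>
      intro r hS hr
      obtain ⟨r1, hS1, hr1⟩ := down_lo (2 * k + 1) x hx r hS (by
        have e1 : 2 * (2 * (k + 1)) + 5 = 2 * (2 * k + 1) + 7 := by omega
        have e2 : 2 * (k + 1) + 1 = 2 * k + 1 + 2 := by omega
        rw [e1, e2] at hr
        exact hr)
      obtain ⟨r2, hS2, hr2⟩ := down_hi (2 * k) x hx r1 hS1 (by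
        have e1 : 2 * k + 1 + 2 = 2 * k + 3 := by omega
        rw [e1] at hr1
        exact hr1)
      exact ih r2 hS2 hr2
  obtain ⟨r', hS', hr'⟩ := down_hi (2 * k) x hx 1 (j14003_start _ x h1 h2) (by
    have : (0 : ℝ) < 2 ^ (2 * k + 3) := by positivity
    linarith)
  exact key k r' hS' hr'

/-- TARGET 5 -/
theorem no_triple_even (k : ℕ) (x : E) (hx : x ∈ Om) (hz : (1 / 4 : ℝ) ^ 600 < ‖x 0‖) :
    ¬ (‖fA (2 * k) x‖ = ‖fB (2 * k) x‖ ∧ ‖fB (2 * k) x‖ = ‖fC (2 * k) x‖) := by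
  rintro ⟨h1, h2⟩
  obtain ⟨r, ⟨hB, _, _, hlog, hr1, _⟩, hr6⟩ := triple_even k x hx h1 h2
  rw [fB_zero, fC_zero, norm_pow, Complex.norm_real, Real.norm_eq_abs, abs_of_pos eps_pos,
    log_eps, Real.log_pow] at hlog
  have h4 : 0 < Real.log 4 := Real.log_pos (by norm_num)
  have hz' : -(600 * Real.log 4) < Real.log ‖x 0‖ := by
    have h5 := Real.log_lt_log (by positivity) hz
    rw [Real.log_pow, one_div, Real.log_inv] at h5
    push_cast at h5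
    linarith
  push_cast at hlog
  have h6 : r * (-(600 * Real.log 4)) ≤ r * Real.log ‖x 0‖ :=
    mul_le_mul_of_nonneg_left hz'.le (by linarith)
  have h7 : r * Real.log 4 ≤ 6 * Real.log 4 := mul_le_mul_of_nonneg_right hr6 h4.le
  nlinarith

/-- TARGET 6 -/
theorem no_triple_odd (k : ℕ) (x : E) (hx : x ∈ Om) (hz : ‖x 0‖ < (1 / 4 : ℝ) ^ 500) :
    ¬ (‖fA (2 * k + 1) x‖ = ‖fB (2 * k + 1) x‖ ∧ ‖fB (2 * k + 1) x‖ = ‖fC (2 * k + 1) x‖) := by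
  rintro ⟨h1, h2⟩
  obtain ⟨r, ⟨hB, _, _, hlog, hr1, _⟩, hr6⟩ := triple_odd k x hx h1 h2
  rw [fB_zero] at hB
  have hx0 : 0 < ‖x 0‖ := by
    rw [norm_pos_iff]
    intro h0
    rw [h0] at hB
    exact hB (by simp)
  rw [fB_zero, fC_zero, norm_pow, Complex.norm_real, Real.norm_eq_abs, abs_of_pos eps_pos,
    log_eps, Real.log_pow] at hlog
  have h4 : 0 < Real.log 4 := Real.log_pos (by norm_num)
  have hz' : Real.log ‖x 0‖ < -(500 * Real.log 4) := by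
    have h5 := Real.log_lt_log hx0 hz
    rw [Real.log_pow, one_div, Real.log_inv] at h5
    push_cast at h5
    linarith
  push_cast at hlog
  have h6 : r * Real.log ‖x 0‖ ≤ r * (-(500 * Real.log 4)) :=
    mul_le_mul_of_nonneg_left hz'.le (by linarith)
  have h7 : 32 / 3 * Real.log 4 ≤ r * Real.log 4 := mul_le_mul_of_nonneg_right hr6 h4.le
  nlinarith

end Pool.Agent.Bl169
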