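import Pool.Agent.Bl169.PowSub
set_option autoImplicit false
namespace Pool.Agent.Bl169


theorem chain_step (N lam : ℕ) (hN : 16 ≤ N) (a b c : ℂ) (hb : ‖b‖ ≤ 1 / (8 * N)) (r : ℝ)
    (hA : ‖(a ^ N - b ^ N - c ^ N) / 3‖ ≤ 5 / 4 * ‖((a - b) / 2) ^ N‖)
    (hB : ((a - b) / 2) ^ N ≠ 0) (hC : b ^ (N * lam) ≠ 0)
    (hr : Real.log ‖b ^ (N * lam)‖ = r * Real.log ‖((a - b) / 2) ^ N‖)
    (hr1 : 1 ≤ r) (hr2 : 2 * r ≤ lam) :
    b ≠ 0 ∧ c ≠ 0 ∧ ‖a‖ ≤ 5 / 4 * ‖b‖ ∧ ∃ r' : ℝ, Real.log ‖c‖ = r' * Real.log ‖b‖ ∧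
      1 + (lam / r - 1) / N - 1 / N ≤ r' ∧ r' ≤ 1 + (lam / r - 1) / N := by
  have hNR : (16 : ℝ) ≤ N := by exact_mod_cast hN
  have hN0 : (0 : ℝ) < N := by linarith
  have hr0 : 0 < r := by linarith
  have hlam : (2 : ℝ) ≤ lam := by linarith
  have hlam0 : lam ≠ 0 := by
    rintro rfl
    norm_num at hlam
  have hNlam : N * lam ≠ 0 := Nat.mul_ne_zero (by omega) hlam0
  have hb0 : b ≠ 0 := by
    rintro rfl
    exact hC (zero_pow hNlam)
  have hab : (a - b) / 2 ≠ 0 := by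
    intro h
    rw [h] at hB
    exact hB (zero_pow (by omega))
  have hβ : 0 < ‖b‖ := norm_pos_iff.mpr hb0
  have hη0 : 0 < ‖(a - b) / 2‖ := norm_pos_iff.mpr hab
  have hη : ‖(a - b) / 2‖ = ‖a - b‖ / 2 := by
    rw [norm_div]; norm_num
  have hδ : 0 < ‖a - b‖ := by linarith
  -- logs
  rw [norm_pow, norm_pow, Real.log_pow, Real.log_pow, hη] at hr
  push_cast at hr
  have hlog : Real.log (‖a - b‖ / 2) = lam / r * Real.log ‖b‖ := by
    have h1 : (N : ℝ) * (lam * Real.log ‖b‖) = N * (r * Real.log (‖a - b‖ / 2)) := by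
      linear_combination hr
    have h2 := mul_left_cancel₀ hN0.ne' h1
    field_simp
    linear_combination -h2
  have hq2 : 2 ≤ lam / r := by rw [le_div_iff₀ hr0]; exact hr2
  have hb128 : ‖b‖ ≤ 1 / 128 := by
    refine hb.trans ?_
    apply one_div_le_one_div_of_le (by norm_num)
    linarith
  have hlb : Real.log ‖b‖ < 0 := Real.log_neg hβ (by linarith)
  have hsq : ‖a - b‖ / 2 ≤ ‖b‖ ^ 2 := by
    rw [← Real.log_le_log_iff (by linarith) (by positivity), hlog, Real.log_pow]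
    push_cast
    exact mul_le_mul_of_nonpos_right hq2 hlb.le
  have hb' : ‖b‖ * (8 * N) ≤ 1 := by
    rwa [le_div_iff₀ (by positivity)] at hb
  have hδs : ‖a - b‖ ≤ ‖b‖ / (4 * N) := by
    rw [le_div_iff₀ (by positivity)]
    have h1 : ‖a - b‖ ≤ 2 * ‖b‖ ^ 2 := by linarith
    calc ‖a - b‖ * (4 * N) ≤ 2 * ‖b‖ ^ 2 * (4 * N) := by gcongr
      _ = ‖b‖ * (‖b‖ * (8 * N)) := by ring
      _ ≤ ‖b‖ * 1 := by gcongr
      _ = ‖b‖ := mul_one _
  obtain ⟨e1, e2⟩ := pow_sub_est N (by omega) a b hδs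
  -- X
  obtain ⟨M, rfl⟩ : ∃ M, N = M + 1 := ⟨N - 1, by omega⟩
  set X : ℝ := ((M + 1 : ℕ) : ℝ) * ‖a - b‖ * ‖b‖ ^ M with hX
  have hX0 : 0 < X := by positivity
  have e1' : 17 / 20 * X ≤ ‖a ^ (M + 1) - b ^ (M + 1)‖ := by
    have : 17 / 20 * X * ‖b‖ ≤ ‖a ^ (M + 1) - b ^ (M + 1)‖ * ‖b‖ := by
      refine le_trans (le_of_eq ?_) e1
      rw [hX, pow_succ]; ring
    exact le_of_mul_le_mul_right this hβ
  have e2' : ‖a ^ (M + 1) - b ^ (M + 1)‖ ≤ 23 / 20 * X := by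
    have : ‖a ^ (M + 1) - b ^ (M + 1)‖ * ‖b‖ ≤ 23 / 20 * X * ‖b‖ := by
      refine e2.trans (le_of_eq ?_)
      rw [hX, pow_succ]; ring
    exact le_of_mul_le_mul_right this hβ
  have hA' : ‖a ^ (M + 1) - b ^ (M + 1) - c ^ (M + 1)‖ ≤ 15 / 4 * (‖a - b‖ / 2) ^ (M + 1) := by
    rw [norm_div, norm_pow ((a - b) / 2), hη] at hA
    have h3 : ‖(3 : ℂ)‖ = 3 := by norm_num
    rw [h3, div_le_iff₀ (by norm_num)] at hA
    linarith
  have hsmall : 15 / 4 * (‖a - b‖ / 2) ^ (M + 1) ≤ 1 / 20 * X := by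
    have hM1 : 1 ≤ M := by omega
    have h1 : (‖a - b‖ / 2) ^ M ≤ (‖b‖ ^ 2) ^ M := by gcongr
    have h2 : ‖b‖ ^ M ≤ ‖b‖ := by
      calc ‖b‖ ^ M ≤ ‖b‖ ^ 1 := pow_le_pow_of_le_one hβ.le (by linarith) hM1
        _ = ‖b‖ := pow_one _
    have h3 : (‖b‖ ^ 2) ^ M = ‖b‖ ^ M * ‖b‖ ^ M := by rw [← pow_mul, mul_comm 2 M, pow_mul, pow_two]
    have h4 : (‖a - b‖ / 2) ^ M ≤ ‖b‖ ^ M * (1 / 128) := by
      rw [h3] at h1
      refine h1.trans ?_
      exact mul_le_mul_of_nonneg_left (h2.trans hb128) (by positivity)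
    have h5 : (0 : ℝ) ≤ ‖a - b‖ * ‖b‖ ^ M := by positivity
    calc 15 / 4 * (‖a - b‖ / 2) ^ (M + 1) = 15 / 4 * ((‖a - b‖ / 2) ^ M * (‖a - b‖ / 2)) := by
          rw [pow_succ]
      _ ≤ 15 / 4 * (‖b‖ ^ M * (1 / 128) * (‖a - b‖ / 2)) := by gcongr
      _ = 15 / 1024 * (‖a - b‖ * ‖b‖ ^ M) := by ring
      _ ≤ 16 / 20 * (‖a - b‖ * ‖b‖ ^ M) := by linarith
      _ ≤ ((M + 1 : ℕ) : ℝ) / 20 * (‖a - b‖ * ‖b‖ ^ M) := by gcongr
      _ = 1 / 20 * X := by rw [hX]; ring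
  have t1 := norm_sub_norm_le (a ^ (M + 1) - b ^ (M + 1)) (c ^ (M + 1))
  have t2 := norm_sub_norm_le (c ^ (M + 1)) (a ^ (M + 1) - b ^ (M + 1))
  rw [norm_sub_rev (c ^ (M + 1)) (a ^ (M + 1) - b ^ (M + 1))] at t2
  rw [norm_pow c] at t1 t2
  have c1 : 4 / 5 * X ≤ ‖c‖ ^ (M + 1) := by linarith
  have c2 : ‖c‖ ^ (M + 1) ≤ 6 / 5 * X := by linarith
  have hc0 : c ≠ 0 := by
    rintro rfl
    rw [norm_zero, zero_pow (by omega)] at c1
    linarith
  have hcn : 0 < ‖c‖ := norm_pos_iff.mpr hc0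
  refine ⟨hb0, hc0, ?_, Real.log ‖c‖ / Real.log ‖b‖, ?_, ?_⟩
  · have h1 : ‖a‖ ≤ ‖a - b‖ + ‖b‖ := by
      calc ‖a‖ = ‖(a - b) + b‖ := by rw [sub_add_cancel]
        _ ≤ _ := norm_add_le _ _
    have h2 : ‖b‖ / (4 * ((M + 1 : ℕ) : ℝ)) ≤ ‖b‖ / 4 := by
      apply div_le_div_of_nonneg_left hβ.le (by norm_num)
      linarith
    linarith
  · rw [div_mul_cancel₀ _ hlb.ne]
  · -- the estimate
    have hlδ : Real.log ‖a - b‖ = Real.log 2 + lam / r * Real.log ‖b‖ := by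
      have : ‖a - b‖ = 2 * (‖a - b‖ / 2) := by ring
      rw [this, Real.log_mul (by norm_num) (by positivity), hlog]
    have hlX : Real.log X = Real.log ((M + 1 : ℕ) : ℝ) + (Real.log 2 + lam / r * Real.log ‖b‖) +
        M * Real.log ‖b‖ := by
      rw [hX, Real.log_mul (by positivity) (by positivity), Real.log_mul (by positivity) hδ.ne',
        Real.log_pow, hlδ]
    set m : ℝ := ((M + 1 : ℕ) : ℝ) * Real.log ‖c‖ - (M + lam / r) * Real.log ‖b‖ with hm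
    have hlc1 : Real.log (4 / 5) + Real.log X ≤ ((M + 1 : ℕ) : ℝ) * Real.log ‖c‖ := by
      rw [← Real.log_pow, ← Real.log_mul (by norm_num) hX0.ne']
      exact Real.log_le_log (by positivity) c1
    have hlc2 : ((M + 1 : ℕ) : ℝ) * Real.log ‖c‖ ≤ Real.log (6 / 5) + Real.log X := by
      rw [← Real.log_pow, ← Real.log_mul (by norm_num) hX0.ne']
      exact Real.log_le_log (by positivity) c2
    have m1 : 0 ≤ m := by
      have h1 : 0 ≤ Real.log (4 / 5) + Real.log ((M + 1 : ℕ) : ℝ) + Real.log 2 := by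
        rw [← Real.log_mul (by norm_num) (by positivity), ← Real.log_mul (by positivity) (by norm_num)]
        apply Real.log_nonneg
        linarith
      rw [hm]
      rw [hlX] at hlc1
      linarith
    have m2 : m ≤ -Real.log ‖b‖ := by
      have h1 : Real.log (6 / 5) + Real.log ((M + 1 : ℕ) : ℝ) + Real.log 2 ≤ -Real.log ‖b‖ := by
        rw [← Real.log_mul (by norm_num) (by positivity), ← Real.log_mul (by positivity) (by norm_num),
          ← Real.log_inv]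
        apply Real.log_le_log (by positivity)
        rw [le_inv_comm₀ (by positivity) hβ]
        refine hb.trans ?_
        rw [one_div]
        apply inv_anti₀ (by positivity)
        linarith
      rw [hm]
      rw [hlX] at hlc2
      linarith
    have hkey : Real.log ‖c‖ / Real.log ‖b‖ =
        1 + (lam / r - 1) / ((M + 1 : ℕ) : ℝ) + m / Real.log ‖b‖ / ((M + 1 : ℕ) : ℝ) := by
      have hM0 : ((M + 1 : ℕ) : ℝ) ≠ 0 := hN0.ne'
      have hlb' : Real.log ‖b‖ ≠ 0 := hlb.ne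
      have hm' : ((M + 1 : ℕ) : ℝ) * Real.log ‖c‖ = (M + lam / r) * Real.log ‖b‖ + m := by
        rw [hm]; ring
      have h1 : Real.log ‖c‖ = ((M + lam / r) * Real.log ‖b‖ + m) / ((M + 1 : ℕ) : ℝ) := by
        rw [eq_div_iff hM0, mul_comm]; exact hm'
      rw [h1]
      push_cast
      field_simp
      ring
    have n1 : m / Real.log ‖b‖ ≤ 0 := div_nonpos_of_nonneg_of_nonpos m1 hlb.le
    have n2 : -1 ≤ m / Real.log ‖b‖ := by
      rw [le_div_iff_of_neg hlb]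
      linarith
    rw [hkey]
    constructor
    · have : -(1 : ℝ) / ((M + 1 : ℕ) : ℝ) ≤ m / Real.log ‖b‖ / ((M + 1 : ℕ) : ℝ) :=
        div_le_div_of_nonneg_right n2 hN0.le
      rw [neg_div] at this
      linarith
    · have : m / Real.log ‖b‖ / ((M + 1 : ℕ) : ℝ) ≤ 0 := div_nonpos_of_nonpos_of_nonneg n1 hN0.le
      linarith

end Pool.Agent.Bl169
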