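import Pool.Agent.Bl169.Defs
set_option autoImplicit false
open Set Filter Topology Metric MeasureTheory
namespace Pool.Agent.Bl169


theorem exists_curve_alg (l : E →ₗ[ℂ] ℂ) (B : E →ₗ[ℂ] E →ₗ[ℂ] ℂ) :
    ∃ b b' : E, b ≠ 0 ∧ l b = 0 ∧ l b' + B b b = 0 := by
  by_cases hl : l = 0
  · subst hl
    by_cases hα : B (Pi.single 0 1) (Pi.single 0 1) = 0
    · refine ⟨Pi.single 0 1, 0, ?_, by simp, by simpa using hα⟩
      intro h
      have := congrFun h 0
      simp at this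
    · obtain ⟨z, hz⟩ := IsAlgClosed.exists_eq_mul_self
        (discrim (B (Pi.single 0 1) (Pi.single 0 1))
          (B (Pi.single 0 1) (Pi.single 1 1) + B (Pi.single 1 1) (Pi.single 0 1))
          (B (Pi.single 1 1) (Pi.single 1 1)))
      obtain ⟨x, hx⟩ := exists_quadratic_eq_zero hα ⟨z, hz⟩
      refine ⟨x • Pi.single 0 1 + Pi.single 1 1, 0, ?_, by simp, ?_⟩
      · intro h
        have := congrFun h 1
        simp at this
      · simp only [LinearMap.zero_apply, map_add, map_smul, LinearMap.add_apply,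
          LinearMap.smul_apply, smul_eq_mul, zero_add]
        linear_combination hx
  · obtain ⟨v, hv⟩ : ∃ v, l v ≠ 0 := by
      by_contra hcon
      push Not at hcon
      exact hl (LinearMap.ext hcon)
    let b : E := l (Pi.single 1 1) • Pi.single 0 1 - l (Pi.single 0 1) • Pi.single 1 1
    have hb0 : b 0 = l (Pi.single 1 1) := by simp [b]
    have hb1 : b 1 = - l (Pi.single 0 1) := by simp [b]
    refine ⟨b, (-(B b b) / l v) • v, ?_, ?_, ?_⟩
    · intro h
      rw [h] at hb0 hb1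
      apply hl
      apply LinearMap.pi_ext'
      intro i
      fin_cases i
      · ext
        simp only [Pi.zero_apply] at hb1
        have : l (Pi.single 0 1) = 0 := by
          have := hb1.symm
          simpa using this
        simpa using this
      · ext
        have : l (Pi.single 1 1) = 0 := by
          have := hb0.symm
          simpa using this
        simpa using this
    · simp only [b, map_sub, map_smul, smul_eq_mul]
      ring
    · rw [map_smul, smul_eq_mul, div_mul_cancel₀ _ hv]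
      ring

theorem exists_curve (P : E → ℂ) (p : E) (hP : AnalyticAt ℂ P p) (h0 : P p = 0) :
    ∃ b b' : E, b ≠ 0 ∧ ∃ C : ℝ, ∀ᶠ ζ in 𝓝 (0:ℂ), ‖P (p + ζ • b + ζ ^ 2 • b')‖ ≤ C * ‖ζ‖ ^ 3 := by
  obtain ⟨ps, hps⟩ := hP
  -- linear part
  let l : E →ₗ[ℂ] ℂ :=
    { toFun := fun y => ps 1 (fun _ => y)
      map_add' := fun x y => by
        have := (ps 1).cons_add (m := Fin.elim0) x y
        have e : ∀ z : E, (Fin.cons z Fin.elim0 : Fin 1 → E) = fun _ => z := by
          intro z; funext i; fin_cases i; rfl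
        rw [e, e, e] at this
        exact this
      map_smul' := fun c x => by
        have := (ps 1).cons_smul (m := Fin.elim0) c x
        have e : ∀ z : E, (Fin.cons z Fin.elim0 : Fin 1 → E) = fun _ => z := by
          intro z; funext i; fin_cases i; rfl
        rw [e, e] at this
        exact this }
  let B : E →ₗ[ℂ] E →ₗ[ℂ] ℂ := LinearMap.mk₂ ℂ (fun x y => ps 2 ![x, y])
    (fun x x' y => (ps 2).cons_add (m := ![y]) x x')
    (fun c x y => (ps 2).cons_smul (m := ![y]) c x)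
    (fun x y y' => by
      have := (ps 2).map_update_add ![x, 0] 1 y y'
      have e : ∀ z : E, Function.update ![x, 0] 1 z = ![x, z] := by
        intro z; funext i; fin_cases i <;> simp
      rw [e, e, e] at this
      exact this)
    (fun c x y => by
      have := (ps 2).map_update_smul ![x, 0] 1 c y
      have e : ∀ z : E, Function.update ![x, 0] 1 z = ![x, z] := by
        intro z; funext i; fin_cases i <;> simp
      rw [e, e] at this
      exact this)
  obtain ⟨b, b', hb, hlb, hlb'⟩ := exists_curve_alg l B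
  have hO := hps.isBigO_sub_partialSum_pow 3
  obtain ⟨C, hC⟩ := hO.bound
  have hpart : ∀ y : E, ps.partialSum 3 y = l y + B y y := by
    intro y
    have h2 : (fun _ : Fin 2 => y) = ![y, y] := by funext i; fin_cases i <;> rfl
    have h1 : ps 0 (fun _ => y) = 0 := by
      rw [← h0]
      exact hps.coeff_zero _
    simp only [FormalMultilinearSeries.partialSum, Finset.sum_range_succ, Finset.sum_range_zero,
      zero_add]
    rw [h1, zero_add]
    congr 1
    show ps 2 (fun _ => y) = ps 2 ![y, y]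
    rw [h2]
  have hcurve : ∀ ζ : ℂ, ps.partialSum 3 (ζ • b + ζ ^ 2 • b') =
      ζ ^ 3 * (B b b' + B b' b) + ζ ^ 4 * B b' b' := by
    intro ζ
    rw [hpart]
    simp only [map_add, map_smul, LinearMap.add_apply, LinearMap.smul_apply, smul_eq_mul]
    rw [hlb]
    linear_combination ζ ^ 2 * hlb'
  have htend : Tendsto (fun ζ : ℂ => ζ • b + ζ ^ 2 • b') (𝓝 0) (𝓝 0) := by
    have : Continuous (fun ζ : ℂ => ζ • b + ζ ^ 2 • b') := by fun_prop
    have h := this.tendsto 0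
    simpa using h
  have hev := htend.eventually hC
  refine ⟨b, b', hb, |C| * (‖b‖ + ‖b'‖) ^ 3 + (‖B b b' + B b' b‖ + ‖B b' b'‖), ?_⟩
  have hball : ∀ᶠ ζ : ℂ in 𝓝 0, ‖ζ‖ < 1 := by
    have := Metric.ball_mem_nhds (0:ℂ) one_pos
    filter_upwards [this] with ζ hζ
    simpa using hζ
  filter_upwards [hev, hball] with ζ h1 h2
  have hz0 : 0 ≤ ‖ζ‖ := norm_nonneg ζ
  have hy : ‖ζ • b + ζ ^ 2 • b'‖ ≤ ‖ζ‖ * (‖b‖ + ‖b'‖) := by
    calc ‖ζ • b + ζ ^ 2 • b'‖ ≤ ‖ζ • b‖ + ‖ζ ^ 2 • b'‖ := norm_add_le _ _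
      _ = ‖ζ‖ * ‖b‖ + ‖ζ‖ ^ 2 * ‖b'‖ := by rw [norm_smul, norm_smul, norm_pow]
      _ ≤ ‖ζ‖ * ‖b‖ + ‖ζ‖ * ‖b'‖ := by
          have : ‖ζ‖ ^ 2 ≤ ‖ζ‖ := by nlinarith
          have := mul_le_mul_of_nonneg_right this (norm_nonneg b')
          linarith
      _ = _ := by ring
  have h3 : ‖P (p + (ζ • b + ζ ^ 2 • b')) - ps.partialSum 3 (ζ • b + ζ ^ 2 • b')‖ ≤
      |C| * (‖b‖ + ‖b'‖) ^ 3 * ‖ζ‖ ^ 3 := by
    refine h1.trans ?_
    rw [norm_pow, norm_norm]
    calc C * ‖ζ • b + ζ ^ 2 • b'‖ ^ 3 ≤ |C| * ‖ζ • b + ζ ^ 2 • b'‖ ^ 3 :=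
          mul_le_mul_of_nonneg_right (le_abs_self C) (by positivity)
      _ ≤ |C| * (‖ζ‖ * (‖b‖ + ‖b'‖)) ^ 3 :=
          mul_le_mul_of_nonneg_left (pow_le_pow_left₀ (norm_nonneg _) hy 3) (abs_nonneg C)
      _ = _ := by ring
  have h4 : ‖ps.partialSum 3 (ζ • b + ζ ^ 2 • b')‖ ≤
      (‖B b b' + B b' b‖ + ‖B b' b'‖) * ‖ζ‖ ^ 3 := by
    rw [hcurve]
    calc ‖ζ ^ 3 * (B b b' + B b' b) + ζ ^ 4 * B b' b'‖
        ≤ ‖ζ ^ 3 * (B b b' + B b' b)‖ + ‖ζ ^ 4 * B b' b'‖ := norm_add_le _ _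
      _ = ‖ζ‖ ^ 3 * ‖B b b' + B b' b‖ + ‖ζ‖ ^ 4 * ‖B b' b'‖ := by
          rw [norm_mul, norm_mul, norm_pow, norm_pow]
      _ ≤ ‖ζ‖ ^ 3 * ‖B b b' + B b' b‖ + ‖ζ‖ ^ 3 * ‖B b' b'‖ := by
          have : ‖ζ‖ ^ 4 ≤ ‖ζ‖ ^ 3 := pow_le_pow_of_le_one hz0 h2.le (by norm_num)
          have := mul_le_mul_of_nonneg_right this (norm_nonneg (B b' b'))
          linarith
      _ = _ := by ring
  have h5 : P (p + ζ • b + ζ ^ 2 • b') =
      (P (p + (ζ • b + ζ ^ 2 • b')) - ps.partialSum 3 (ζ • b + ζ ^ 2 • b')) +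
      ps.partialSum 3 (ζ • b + ζ ^ 2 • b') := by
    rw [← add_assoc]; ring
  rw [h5]
  refine (norm_add_le _ _).trans ?_
  rw [add_mul]
  exact add_le_add h3 h4

end Pool.Agent.Bl169
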