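import Pool.Agent.Bl169.Curve
set_option autoImplicit false
open Set Filter Topology Metric MeasureTheory
namespace Pool.Agent.Bl169



/-- TARGET -/
theorem curve_mean_le (F G H : E → ℂ) (hF : ∀ x, AnalyticAt ℂ F x) (hG : ∀ x, AnalyticAt ℂ G x)
    (hH : Continuous H) (p : E) (hG0 : G p ≠ 0) (hFG : ‖F p‖ ≤ ‖G p‖) (hHG : ‖H p‖ < ‖G p‖) :
    ∃ b b' : E, b ≠ 0 ∧ ∃ C : ℝ, ∀ᶠ t : ℝ in 𝓝[>] (0:ℝ),
      (2 * Real.pi)⁻¹ * ∫ θ in (0:ℝ)..(2 * Real.pi),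
        Real.log (max (max
          ‖F (p + ((t : ℂ) * Complex.exp ((θ : ℂ) * Complex.I)) • b +
            ((t : ℂ) * Complex.exp ((θ : ℂ) * Complex.I)) ^ 2 • b')‖
          ‖G (p + ((t : ℂ) * Complex.exp ((θ : ℂ) * Complex.I)) • b +
            ((t : ℂ) * Complex.exp ((θ : ℂ) * Complex.I)) ^ 2 • b')‖)
          ‖H (p + ((t : ℂ) * Complex.exp ((θ : ℂ) * Complex.I)) • b +
            ((t : ℂ) * Complex.exp ((θ : ℂ) * Complex.I)) ^ 2 • b')‖) ≤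
      Real.log ‖G p‖ + C * t ^ 3 := by
  set q0 : ℂ := F p / G p with hq0
  have hGp : 0 < ‖G p‖ := norm_pos_iff.mpr hG0
  have hq1 : ‖q0‖ ≤ 1 := by rw [hq0, norm_div]; exact div_le_one_of_le₀ hFG (norm_nonneg _)
  obtain ⟨b, b', hb, C, hC⟩ := exists_curve (fun x => F x - q0 * G x) p
    ((hF p).sub (analyticAt_const.mul (hG p))) (by
      show F p - q0 * G p = 0
      rw [hq0, div_mul_cancel₀ _ hG0, sub_self])
  set γ : ℂ → E := fun ζ => p + ζ • b + ζ ^ 2 • b' with hγ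
  have hγa : ∀ ζ, AnalyticAt ℂ γ ζ := fun ζ =>
    (analyticAt_const.add (analyticAt_id.smul analyticAt_const)).add ((analyticAt_id.pow 2).smul analyticAt_const)
  have hγc : Continuous γ := by
    rw [hγ]; fun_prop
  have hγ0 : γ 0 = p := by simp [hγ]
  have hGa : ∀ ζ, AnalyticAt ℂ (fun ζ => G (γ ζ)) ζ := fun ζ => (hG (γ ζ)).comp (hγa ζ)
  have hFc : Continuous F := continuous_iff_continuousAt.mpr fun x => (hF x).continuousAt
  have hGc : Continuous G := continuous_iff_continuousAt.mpr fun x => (hG x).continuousAt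
  have e1 : ∀ᶠ ζ in 𝓝 (0:ℂ), ‖H (γ ζ)‖ < ‖G (γ ζ)‖ := by
    have h1 : ContinuousAt (fun ζ => ‖H (γ ζ)‖) 0 := (hH.comp hγc).norm.continuousAt
    have h2 : ContinuousAt (fun ζ => ‖G (γ ζ)‖) 0 := (hGc.comp hγc).norm.continuousAt
    exact h1.eventually_lt h2 (by show ‖H (γ 0)‖ < ‖G (γ 0)‖; rw [hγ0]; exact hHG)
  have e2 : ∀ᶠ ζ in 𝓝 (0:ℂ), ‖G p‖ / 2 < ‖G (γ ζ)‖ := by
    have h2 : ContinuousAt (fun ζ => ‖G (γ ζ)‖) 0 := (hGc.comp hγc).norm.continuousAt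
    have h3 : ‖G p‖ / 2 < (fun ζ => ‖G (γ ζ)‖) 0 := by
      show ‖G p‖ / 2 < ‖G (γ 0)‖
      rw [hγ0]; linarith
    exact h2.eventually (lt_mem_nhds h3)
  obtain ⟨δ, hδ, hδ'⟩ := Metric.eventually_nhds_iff.mp (hC.and (e1.and e2))
  refine ⟨b, b', hb, 2 * |C| / ‖G p‖, ?_⟩
  have hIoo : Ioo (0:ℝ) δ ∈ 𝓝[>] (0:ℝ) := Ioo_mem_nhdsGT hδ
  filter_upwards [hIoo] with t ht
  obtain ⟨ht0, htδ⟩ := ht
  set z : ℝ → ℂ := fun θ => (t : ℂ) * Complex.exp ((θ : ℂ) * Complex.I) with hz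
  have hzn : ∀ θ, ‖z θ‖ = t := by
    intro θ
    rw [hz]
    simp only [norm_mul, Complex.norm_exp_ofReal_mul_I, mul_one, Complex.norm_real, Real.norm_eq_abs, abs_of_pos ht0]
  have hzc : Continuous z := by rw [hz]; fun_prop
  have hball : ∀ ζ : ℂ, ‖ζ‖ ≤ t → ‖F (γ ζ) - q0 * G (γ ζ)‖ ≤ C * ‖ζ‖ ^ 3 ∧ ‖H (γ ζ)‖ < ‖G (γ ζ)‖ ∧ ‖G p‖ / 2 < ‖G (γ ζ)‖ := by
    intro ζ hζ
    have := hδ' (y := ζ) (by rw [dist_zero_right]; linarith)
    exact this
  show (2 * Real.pi)⁻¹ * ∫ θ in (0:ℝ)..(2 * Real.pi),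
        Real.log (max (max ‖F (γ (z θ))‖ ‖G (γ (z θ))‖) ‖H (γ (z θ))‖) ≤ Real.log ‖G p‖ + 2 * |C| / ‖G p‖ * t ^ 3
  have hpt : ∀ θ, Real.log (max (max ‖F (γ (z θ))‖ ‖G (γ (z θ))‖) ‖H (γ (z θ))‖) ≤
      Real.log ‖G (γ (z θ))‖ + 2 * |C| / ‖G p‖ * t ^ 3 := by
    intro θ
    obtain ⟨k1, k2, k3⟩ := hball (z θ) (hzn θ).le
    rw [hzn θ] at k1
    set g := ‖G (γ (z θ))‖ with hg
    have hgpos : 0 < g := by linarith
    have hct : C * t ^ 3 ≤ |C| * t ^ 3 := mul_le_mul_of_nonneg_right (le_abs_self C) (by positivity)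
    have hFle : ‖F (γ (z θ))‖ ≤ g + |C| * t ^ 3 := by
      have : F (γ (z θ)) = (F (γ (z θ)) - q0 * G (γ (z θ))) + q0 * G (γ (z θ)) := by ring
      rw [this]
      refine le_trans (norm_add_le _ _) ?_
      rw [norm_mul]
      have h5 : ‖q0‖ * ‖G (γ (z θ))‖ ≤ 1 * g := mul_le_mul_of_nonneg_right hq1 (norm_nonneg _)
      linarith
    have hCt : 0 ≤ |C| * t ^ 3 := by positivity
    have hmax : max (max ‖F (γ (z θ))‖ g) ‖H (γ (z θ))‖ ≤ g + |C| * t ^ 3 :=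
      max_le (max_le hFle (by linarith)) (by linarith)
    have hmaxpos : 0 < max (max ‖F (γ (z θ))‖ g) ‖H (γ (z θ))‖ :=
      lt_of_lt_of_le hgpos (le_trans (le_max_right _ _) (le_max_left _ _))
    calc Real.log (max (max ‖F (γ (z θ))‖ g) ‖H (γ (z θ))‖) ≤ Real.log (g + |C| * t ^ 3) :=
          Real.log_le_log hmaxpos hmax
      _ = Real.log (g * (1 + |C| * t ^ 3 / g)) := by
          congr 1; field_simp
      _ = Real.log g + Real.log (1 + |C| * t ^ 3 / g) := by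
          rw [Real.log_mul hgpos.ne' (by positivity)]
      _ ≤ Real.log g + |C| * t ^ 3 / g := by
          have h6 := Real.log_le_sub_one_of_pos (by positivity : 0 < 1 + |C| * t ^ 3 / g)
          linarith
      _ ≤ Real.log g + 2 * |C| / ‖G p‖ * t ^ 3 := by
          have h7 : |C| * t ^ 3 / g ≤ |C| * t ^ 3 / (‖G p‖ / 2) :=
            div_le_div_of_nonneg_left hCt (by positivity) k3.le
          have h8 : |C| * t ^ 3 / (‖G p‖ / 2) = 2 * |C| / ‖G p‖ * t ^ 3 := by field_simp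
          linarith
  have hcont1 : Continuous (fun θ => Real.log (max (max ‖F (γ (z θ))‖ ‖G (γ (z θ))‖) ‖H (γ (z θ))‖)) := by
    refine Continuous.log ?_ ?_
    · exact (((hFc.comp (hγc.comp hzc)).norm.max (hGc.comp (hγc.comp hzc)).norm)).max (hH.comp (hγc.comp hzc)).norm
    · intro θ
      obtain ⟨k1, k2, k3⟩ := hball (z θ) (hzn θ).le
      have : 0 < ‖G (γ (z θ))‖ := by linarith
      exact (lt_of_lt_of_le this (le_trans (le_max_right _ _) (le_max_left _ _))).ne'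
  have hcont2 : Continuous (fun θ => Real.log ‖G (γ (z θ))‖) := by
    refine Continuous.log (hGc.comp (hγc.comp hzc)).norm ?_
    intro θ
    obtain ⟨k1, k2, k3⟩ := hball (z θ) (hzn θ).le
    have : 0 < ‖G (γ (z θ))‖ := by linarith
    exact this.ne'
  have hcont3 : Continuous (fun θ => Real.log ‖G (γ (z θ))‖ + 2 * |C| / ‖G p‖ * t ^ 3) := hcont2.add continuous_const
  have hpi : (0:ℝ) ≤ 2 * Real.pi := by positivity
  have hint := intervalIntegral.integral_mono_on (μ := volume) hpi (hcont1.intervalIntegrable 0 (2 * Real.pi))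
    (hcont3.intervalIntegrable 0 (2 * Real.pi)) (fun θ _ => hpt θ)
  have hav : Real.circleAverage (fun ζ => Real.log ‖G (γ ζ)‖) 0 t = Real.log ‖G p‖ := by
    have h9 := AnalyticOnNhd.circleAverage_log_norm_of_ne_zero (R := t) (c := 0) (g := fun ζ => G (γ ζ))
      (fun u _ => hGa u) (fun u hu => by
        rw [mem_closedBall_zero_iff, abs_of_pos ht0] at hu
        obtain ⟨k1, k2, k3⟩ := hball u hu
        have : 0 < ‖G (γ u)‖ := by linarith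
        exact norm_pos_iff.mp this)
    rw [h9, hγ0]
  have hav2 : (2 * Real.pi)⁻¹ * ∫ θ in (0:ℝ)..(2 * Real.pi), Real.log ‖G (γ (z θ))‖ = Real.log ‖G p‖ := by
    rw [← hav, Real.circleAverage_def, smul_eq_mul]
    congr 1
    refine intervalIntegral.integral_congr (fun θ _ => ?_)
    show Real.log ‖G (γ (z θ))‖ = Real.log ‖G (γ (circleMap 0 t θ))‖
    rw [circleMap, zero_add]
  have hsum : ∫ θ in (0:ℝ)..(2 * Real.pi), (Real.log ‖G (γ (z θ))‖ + 2 * |C| / ‖G p‖ * t ^ 3) =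
      (∫ θ in (0:ℝ)..(2 * Real.pi), Real.log ‖G (γ (z θ))‖) + (2 * Real.pi) * (2 * |C| / ‖G p‖ * t ^ 3) := by
    rw [intervalIntegral.integral_add (hcont2.intervalIntegrable _ _) (continuous_const.intervalIntegrable _ _),
      intervalIntegral.integral_const, sub_zero, smul_eq_mul]
  have hpos : 0 < (2 * Real.pi)⁻¹ := by positivity
  calc (2 * Real.pi)⁻¹ * ∫ θ in (0:ℝ)..(2 * Real.pi),
        Real.log (max (max ‖F (γ (z θ))‖ ‖G (γ (z θ))‖) ‖H (γ (z θ))‖)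
      ≤ (2 * Real.pi)⁻¹ * ∫ θ in (0:ℝ)..(2 * Real.pi), (Real.log ‖G (γ (z θ))‖ + 2 * |C| / ‖G p‖ * t ^ 3) :=
        mul_le_mul_of_nonneg_left hint hpos.le
    _ = Real.log ‖G p‖ + 2 * |C| / ‖G p‖ * t ^ 3 := by
        rw [hsum, mul_add, hav2]
        have : (2 * Real.pi)⁻¹ * (2 * Real.pi * (2 * |C| / ‖G p‖ * t ^ 3)) = 2 * |C| / ‖G p‖ * t ^ 3 := by
          rw [← mul_assoc, inv_mul_cancel₀ (by positivity), one_mul]
        rw [this]

end Pool.Agent.Bl169
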