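import Mathlib
set_option autoImplicit false
open Set Filter Topology Metric MeasureTheory

namespace Pool.Agent.Bl169

abbrev E : Type := Fin 2 → ℂ

/-- mean over the circle `a + e^{iθ} b` -/
noncomputable def cm (u : E → ℝ) (a b : E) : ℝ :=
  (2 * Real.pi)⁻¹ * ∫ θ in (0:ℝ)..(2 * Real.pi), u (a + Complex.exp ((θ : ℂ) * Complex.I) • b)

/-- continuous, real valued, sub-mean value inequality on all closed affine discs in `U` -/
def CPsh (U : Set E) (u : E → ℝ) : Prop :=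
  ContinuousOn u U ∧ ∀ a b : E, (∀ z : ℂ, ‖z‖ ≤ 1 → a + z • b ∈ U) → u a ≤ cm u a b

def FPsh (U : Set E) (u : E → EReal) : Prop :=
  UpperSemicontinuousOn u U ∧ (∀ x ∈ U, u x ≠ ⊤) ∧
    ∀ a b : E, (∀ z : ℂ, ‖z‖ ≤ 1 → a + z • b ∈ U) →
      ∀ M : ℝ, u a ≤
        ((((2 * Real.pi)⁻¹ *
          ∫ θ in (0:ℝ)..(2 * Real.pi),
            (max (u (a + Complex.exp ((θ : ℂ) * Complex.I) • b)) (M : EReal)).toReal) : ℝ) : EReal)

/-! ### the sequence -/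

def NN (j : ℕ) : ℕ := 2 ^ (j + 10)

/-- half of `lambda_j` -/
def hl (j : ℕ) : ℕ := 2 ^ (3 * j + 16)

def GG (j : ℕ) : ℕ := 2 ^ (j + 4)

/-- the exponents `rho_j` -/
def rho : ℕ → ℕ
  | 0 => 4096
  | j + 1 => hl j

noncomputable def eps : ℝ := (1 / 4 : ℝ) ^ (20 * 4096)

/-- the triples `(A_j, B_j, C_j)` -/
noncomputable def tri : ℕ → E → ℂ × ℂ × ℂ
  | 0, x => (x 1, (x 0) ^ 20, (eps : ℂ))
  | j + 1, x =>
    (((tri j x).1 ^ NN j - (tri j x).2.1 ^ NN j - (tri j x).2.2 ^ NN j) / 3,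
      (((tri j x).1 - (tri j x).2.1) / 2) ^ NN j,
      (tri j x).2.1 ^ (NN j * (2 * hl j)))

noncomputable def fA (j : ℕ) (x : E) : ℂ := (tri j x).1
noncomputable def fB (j : ℕ) (x : E) : ℂ := (tri j x).2.1
noncomputable def fC (j : ℕ) (x : E) : ℂ := (tri j x).2.2

lemma fA_zero (x : E) : fA 0 x = x 1 := rfl
lemma fB_zero (x : E) : fB 0 x = (x 0) ^ 20 := rfl
lemma fC_zero (x : E) : fC 0 x = (eps : ℂ) := rfl
lemma fA_succ (j : ℕ) (x : E) :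
    fA (j + 1) x = (fA j x ^ NN j - fB j x ^ NN j - fC j x ^ NN j) / 3 := rfl
lemma fB_succ (j : ℕ) (x : E) : fB (j + 1) x = ((fA j x - fB j x) / 2) ^ NN j := rfl
lemma fC_succ (j : ℕ) (x : E) : fC (j + 1) x = fB j x ^ (NN j * (2 * hl j)) := rfl

noncomputable def WW (j : ℕ) (x : E) : ℝ := max (max ‖fA j x‖ ‖fB j x‖) ‖fC j x‖

def DD : ℕ → ℕ
  | 0 => 1
  | j + 1 => DD j * NN j

noncomputable def ww (j : ℕ) (x : E) : ℝ := ((DD j : ℝ))⁻¹ * Real.log (WW j x)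

def Om : Set E := {x | ‖x 0‖ < 1 / 2 ∧ ‖x 1‖ < 1 / 2}
def KK : Set E := {x | ‖x 0‖ ≤ 1 / 4 ∧ ‖x 1‖ ≤ 1 / 4}

lemma NN_pos (j : ℕ) : 0 < NN j := Nat.pow_pos (by norm_num)
lemma hl_pos (j : ℕ) : 0 < hl j := Nat.pow_pos (by norm_num)
lemma GG_pos (j : ℕ) : 0 < GG j := Nat.pow_pos (by norm_num)
lemma DD_pos (j : ℕ) : 0 < DD j := by
  induction j with
  | zero => exact Nat.one_pos
  | succ j ih => exact Nat.mul_pos ih (NN_pos j)
lemma NN_ge (j : ℕ) : 1024 ≤ NN j := by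
  unfold NN
  calc 1024 = 2 ^ 10 := by norm_num
    _ ≤ 2 ^ (j + 10) := Nat.pow_le_pow_right (by norm_num) (by omega)

lemma eps_pos : 0 < eps := by unfold eps; positivity
lemma eps_le : eps ≤ 1 / 4 := by
  unfold eps
  calc (1 / 4 : ℝ) ^ (20 * 4096) ≤ (1 / 4 : ℝ) ^ 1 :=
        pow_le_pow_of_le_one (by norm_num) (by norm_num) (by norm_num)
    _ = 1 / 4 := by norm_num

lemma log_eps : Real.log eps = - (20 * 4096 * Real.log 4) := by
  unfold eps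
  rw [Real.log_pow, one_div, Real.log_inv]
  push_cast; ring

end Pool.Agent.Bl169
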