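import Pool.Agent.Bl169.Lem
set_option autoImplicit false
open Set Filter Topology Metric MeasureTheory

namespace Pool.Agent.Bl169

theorem maximal_roles (F G H : E → ℂ) (hF : ∀ x, AnalyticAt ℂ F x) (hG : ∀ x, AnalyticAt ℂ G x)
    (hH : ∀ x, AnalyticAt ℂ H x) (D : ℝ) (w : E → ℝ) (hwc : Continuous w)
    (hw : ∀ x, w x = D⁻¹ * Real.log (max (max ‖F x‖ ‖G x‖) ‖H x‖)) (hD : 0 < D)
    (g : E → ℝ) (hg : ContDiff ℝ 2 g) (p : E)
    (hp : ∃ r > 0, ∀ b : E, ‖b‖ ≤ r → g p ≤ cm g p b) (η : ℝ) (hη : 0 < η)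
    (hmax : ∀ᶠ x in 𝓝 p, g x + η * (‖x 0‖ ^ 2 + ‖x 1‖ ^ 2) - w x ≤
        g p + η * (‖p 0‖ ^ 2 + ‖p 1‖ ^ 2) - w p)
    (hFG : ‖F p‖ ≤ ‖G p‖) (hHG : ‖H p‖ < ‖G p‖) : False := by
  have hHc : Continuous H := continuous_iff_continuousAt.2 fun x => (hH x).continuousAt
  have hG0 : G p ≠ 0 := by
    intro h
    rw [h, norm_zero] at hHG
    exact absurd hHG (not_lt.2 (norm_nonneg _))
  obtain ⟨b, b', hb, C, hcurve⟩ := curve_mean_le F G H hF hG hHc p hG0 hFG hHG
  refine no_touch g hg p hp η hη w (Filter.Eventually.of_forall fun x => hwc.continuousAt) hmax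
    b b' hb (D⁻¹ * C) ?_
  filter_upwards [hcurve] with t ht
  have hwp : w p = D⁻¹ * Real.log ‖G p‖ := by
    rw [hw p, max_eq_right hFG, max_eq_left hHG.le]
  simp only [hw] at hwp ⊢
  rw [hwp, intervalIntegral.integral_const_mul]
  have hD' : 0 < D⁻¹ := inv_pos.2 hD
  have h1 := mul_le_mul_of_nonneg_left ht hD'.le
  calc (2 * Real.pi)⁻¹ * (D⁻¹ * ∫ θ in (0:ℝ)..(2 * Real.pi),
        Real.log (max (max
          ‖F (p + ((t : ℂ) * Complex.exp ((θ : ℂ) * Complex.I)) • b +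
            ((t : ℂ) * Complex.exp ((θ : ℂ) * Complex.I)) ^ 2 • b')‖
          ‖G (p + ((t : ℂ) * Complex.exp ((θ : ℂ) * Complex.I)) • b +
            ((t : ℂ) * Complex.exp ((θ : ℂ) * Complex.I)) ^ 2 • b')‖)
          ‖H (p + ((t : ℂ) * Complex.exp ((θ : ℂ) * Complex.I)) • b +
            ((t : ℂ) * Complex.exp ((θ : ℂ) * Complex.I)) ^ 2 • b')‖))
      = D⁻¹ * ((2 * Real.pi)⁻¹ * ∫ θ in (0:ℝ)..(2 * Real.pi),
        Real.log (max (max
          ‖F (p + ((t : ℂ) * Complex.exp ((θ : ℂ) * Complex.I)) • b +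
            ((t : ℂ) * Complex.exp ((θ : ℂ) * Complex.I)) ^ 2 • b')‖
          ‖G (p + ((t : ℂ) * Complex.exp ((θ : ℂ) * Complex.I)) • b +
            ((t : ℂ) * Complex.exp ((θ : ℂ) * Complex.I)) ^ 2 • b')‖)
          ‖H (p + ((t : ℂ) * Complex.exp ((θ : ℂ) * Complex.I)) • b +
            ((t : ℂ) * Complex.exp ((θ : ℂ) * Complex.I)) ^ 2 • b')‖)) := by ring
    _ ≤ D⁻¹ * (Real.log ‖G p‖ + C * t ^ 3) := h1
    _ = D⁻¹ * Real.log ‖G p‖ + D⁻¹ * C * t ^ 3 := by ring

theorem maximal_mx1 (a b c : ℝ) : max (max a b) c = max (max c b) a := by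
  rw [max_comm (max a b) c, max_comm a b, ← max_assoc]

theorem maximal_mx4 (a b c : ℝ) : max (max a b) c = max (max b c) a := by
  rw [maximal_mx1, max_comm c b]

theorem maximal_mx5 (a b c : ℝ) : max (max a b) c = max (max c a) b := by
  rw [max_right_comm, max_comm a c]

/-- TARGET -/
theorem maximal (U : Set E) (hU : IsOpen U) (F G H : E → ℂ) (hF : ∀ x, AnalyticAt ℂ F x)
    (hG : ∀ x, AnalyticAt ℂ G x) (hH : ∀ x, AnalyticAt ℂ H x)
    (hpos : ∀ x, 0 < max (max ‖F x‖ ‖G x‖) ‖H x‖)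
    (hno : ∀ x ∈ U, ¬ (‖F x‖ = ‖G x‖ ∧ ‖G x‖ = ‖H x‖)) (D : ℝ) (hD : 0 < D)
    (v : E → EReal) (hv : FPsh U v) (K : Set E) (hK : IsCompact K) (hKU : K ⊆ U)
    (hvw : ∀ x ∈ U \ K, v x ≤ ((D⁻¹ * Real.log (max (max ‖F x‖ ‖G x‖) ‖H x‖) : ℝ) : EReal)) :
    ∀ x ∈ U, v x ≤ ((D⁻¹ * Real.log (max (max ‖F x‖ ‖G x‖) ‖H x‖) : ℝ) : EReal) := by
  by_contra hcon
  push Not at hcon
  obtain ⟨x₁, hx₁, hgt⟩ := hcon
  have hFc : Continuous F := continuous_iff_continuousAt.2 fun x => (hF x).continuousAt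
  have hGc : Continuous G := continuous_iff_continuousAt.2 fun x => (hG x).continuousAt
  have hHc : Continuous H := continuous_iff_continuousAt.2 fun x => (hH x).continuousAt
  set w : E → ℝ := fun x => D⁻¹ * Real.log (max (max ‖F x‖ ‖G x‖) ‖H x‖) with hw
  have hwc : Continuous w := by
    refine continuous_const.mul (Continuous.log ?_ fun x => (hpos x).ne')
    exact (hFc.norm.max hGc.norm).max hHc.norm
  obtain ⟨g, η, p, hη, hpU, hg, hsub, hmax⟩ :=
    exists_touch U hU v hv w hwc.continuousOn K hK hKU hvw x₁ hx₁ hgt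
  have hne := hno p hpU
  rcases le_total ‖F p‖ ‖G p‖ with h1 | h1
  · rcases le_total ‖H p‖ ‖G p‖ with h2 | h2
    · -- G is maximal
      rcases h2.lt_or_eq with h3 | h3
      · exact maximal_roles F G H hF hG hH D w hwc (fun x => rfl) hD g hg p hsub η hη hmax h1 h3
      · rcases h1.lt_or_eq with h4 | h4
        · refine maximal_roles H G F hH hG hF D w hwc (fun x => ?_) hD g hg p hsub η hη hmax h2 h4
          simp only [hw]
          rw [maximal_mx1 ‖F x‖ ‖G x‖ ‖H x‖]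
        · exact hne ⟨h4, h3.symm⟩
    · -- H is maximal
      rcases h2.lt_or_eq with h3 | h3
      · refine maximal_roles F H G hF hH hG D w hwc (fun x => ?_) hD g hg p hsub η hη hmax
          (h1.trans h2) h3
        simp only [hw]
        rw [max_right_comm]
      · rcases h1.lt_or_eq with h4 | h4
        · refine maximal_roles G H F hG hH hF D w hwc (fun x => ?_) hD g hg p hsub η hη hmax h2
            (h4.trans_le h2)
          simp only [hw]
          rw [maximal_mx4 ‖F x‖ ‖G x‖ ‖H x‖]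
        · exact hne ⟨h4, h3⟩
  · rcases le_total ‖H p‖ ‖F p‖ with h2 | h2
    · -- F is maximal
      rcases h2.lt_or_eq with h3 | h3
      · refine maximal_roles G F H hG hF hH D w hwc (fun x => ?_) hD g hg p hsub η hη hmax h1 h3
        simp only [hw]
        rw [max_comm ‖G x‖ ‖F x‖]
      · rcases h1.lt_or_eq with h4 | h4
        · refine maximal_roles H F G hH hF hG D w hwc (fun x => ?_) hD g hg p hsub η hη hmax h2 h4
          simp only [hw]
          rw [maximal_mx5 ‖F x‖ ‖G x‖ ‖H x‖]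
        · exact hne ⟨h4.symm, h4.trans h3.symm⟩
    · -- H is maximal
      rcases h2.lt_or_eq with h3 | h3
      · refine maximal_roles G H F hG hH hF D w hwc (fun x => ?_) hD g hg p hsub η hη hmax
          (h1.trans h2) h3
        simp only [hw]
        rw [maximal_mx4 ‖F x‖ ‖G x‖ ‖H x‖]
      · rcases h1.lt_or_eq with h4 | h4
        · refine maximal_roles F H G hF hH hG D w hwc (fun x => ?_) hD g hg p hsub η hη hmax h2
            (h4.trans_le h2)
          simp only [hw]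
          rw [max_right_comm]
        · exact hne ⟨h4.symm, h4.trans h3⟩

end Pool.Agent.Bl169
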