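import Pool.Agent.Bl169.Seq
set_option autoImplicit false
open Set Filter Topology Metric MeasureTheory

namespace Pool.Agent.Bl169

noncomputable def xx : E := ![0, ((eps / 2 : ℝ) : ℂ)]

lemma xx_zero : xx 0 = 0 := rfl
lemma xx_one : xx 1 = ((eps / 2 : ℝ) : ℂ) := rfl

lemma xx_mem : xx ∈ Om := by
  constructor
  · rw [xx_zero]; simp
  · rw [xx_one, Complex.norm_real, Real.norm_eq_abs, abs_of_pos (by have := eps_pos; linarith)]
    have := eps_le; linarith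

lemma fA0_xx : fA 0 xx = ((eps / 2 : ℝ) : ℂ) := rfl
lemma fB0_xx : fB 0 xx = 0 := by
  rw [fB_zero, xx_zero]; simp
lemma fC0_xx : fC 0 xx = ((eps : ℝ) : ℂ) := rfl

lemma log4_le : Real.log 4 ≤ 2 := by
  have h : Real.log 4 = 2 * Real.log 2 := by
    rw [show (4:ℝ) = 2 ^ 2 by norm_num, Real.log_pow]; norm_num
  have := Real.log_two_lt_d9
  rw [h]; linarith

lemma log4_ge : 1 ≤ Real.log 4 := by
  have h : Real.log 4 = 2 * Real.log 2 := by
    rw [show (4:ℝ) = 2 ^ 2 by norm_num, Real.log_pow]; norm_num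
  have := Real.log_two_gt_d9
  rw [h]; linarith

lemma log_ge_aux (x t : ℝ) (N : ℕ) (hx : 0 < x) (h : x ^ N / 4 ≤ t) :
    N * Real.log x - Real.log 4 ≤ Real.log t := by
  have h1 : Real.log (x ^ N / 4) = N * Real.log x - Real.log 4 := by
    rw [Real.log_div (pow_pos hx N).ne' (by norm_num), Real.log_pow]
  rw [← h1]
  exact Real.log_le_log (by positivity) h

/-- TARGET 1 -/
theorem x0_ratio (j : ℕ) : ‖fB (j + 1) xx‖ ≤ ‖fA (j + 1) xx‖ / 8 ∧
    ‖fC (j + 1) xx‖ ≤ ‖fA (j + 1) xx‖ / 8 ∧ 0 < ‖fA (j + 1) xx‖ ∧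
    (DD (j + 1) : ℝ) * (Real.log eps - 1) + Real.log 4 ≤ Real.log ‖fA (j + 1) xx‖ := by
  induction j with
  | zero =>
    have hN : 16 ≤ NN 0 := le_trans (by norm_num) (NN_ge 0)
    have hlam : 1 ≤ 2 * hl 0 := by have := hl_pos 0; omega
    have he1 : eps ≤ 1 := by have := eps_le; linarith
    obtain ⟨h1, h2, h3⟩ := x0_first (NN 0) (2 * hl 0) hN hlam eps eps_pos he1
    have eA : fA (0 + 1) xx = ((((eps / 2 : ℝ) : ℂ)) ^ NN 0 - (0 : ℂ) ^ NN 0 - ((eps : ℝ) : ℂ) ^ NN 0) / 3 := by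
      rw [fA_succ, fA0_xx, fB0_xx, fC0_xx]
    have eB : fB (0 + 1) xx = ((((eps / 2 : ℝ) : ℂ) - 0) / 2) ^ NN 0 := by
      rw [fB_succ, fA0_xx, fB0_xx]
    have eC : fC (0 + 1) xx = (0 : ℂ) ^ (NN 0 * (2 * hl 0)) := by
      rw [fC_succ, fB0_xx]
    have hpos : 0 < eps ^ NN 0 / 4 := by have := eps_pos; positivity
    rw [← eA] at h1 h2 h3
    rw [← eB] at h2
    rw [← eC] at h3
    refine ⟨h2, h3, lt_of_lt_of_le hpos h1, ?_⟩
    have h4 := log_ge_aux eps _ (NN 0) eps_pos h1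
    have hD : (DD (0 + 1) : ℝ) = (NN 0 : ℝ) := by
      have : DD (0 + 1) = NN 0 := by
        show DD 0 * NN 0 = NN 0
        show 1 * NN 0 = NN 0
        omega
      rw [this]
    rw [hD]
    have h5 : (16 : ℝ) ≤ (NN 0 : ℝ) := by exact_mod_cast hN
    have h6 := log4_le
    have h7 : (NN 0 : ℝ) * (Real.log eps - 1) + Real.log 4 ≤ NN 0 * Real.log eps - Real.log 4 := by
      rw [mul_sub, mul_one]; linarith
    exact h7.trans h4
  | succ j ih =>
    obtain ⟨i1, i2, i3, i4⟩ := ih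
    have hN : 16 ≤ NN (j + 1) := le_trans (by norm_num) (NN_ge (j + 1))
    have hlam : 1 ≤ 2 * hl (j + 1) := by have := hl_pos (j + 1); omega
    have ha : ‖fA (j + 1) xx‖ ≤ 1 := by
      have h1 : ‖fA (j + 1) xx‖ ≤ WW (j + 1) xx := le_trans (le_max_left _ _) (le_max_left _ _)
      have h2 := WW_le (j + 1) xx xx_mem
      have h3 : ((1:ℝ) / 2) ^ (DD (j + 1)) ≤ 1 := pow_le_one₀ (by norm_num) (by norm_num)
      linarith
    obtain ⟨h1, h2, h3⟩ := x0_step (NN (j + 1)) (2 * hl (j + 1)) hN hlam _ _ _ ha i1 i2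
    rw [← fA_succ] at h1 h2 h3
    rw [← fB_succ] at h2
    rw [← fC_succ] at h3
    have hpos : 0 < ‖fA (j + 1) xx‖ ^ NN (j + 1) / 4 := by positivity
    refine ⟨h2, h3, lt_of_lt_of_le hpos h1, ?_⟩
    have h4 := log_ge_aux _ _ (NN (j + 1)) i3 h1
    have hD : (DD (j + 1 + 1) : ℝ) = (DD (j + 1) : ℝ) * (NN (j + 1) : ℝ) := by
      have : DD (j + 1 + 1) = DD (j + 1) * NN (j + 1) := rfl
      rw [this]; push_cast; ring
    rw [hD]
    have h5 : (16 : ℝ) ≤ (NN (j + 1) : ℝ) := by exact_mod_cast hN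
    have h6 := log4_ge
    have h7 : (NN (j + 1) : ℝ) * ((DD (j + 1) : ℝ) * (Real.log eps - 1) + Real.log 4)
        ≤ (NN (j + 1) : ℝ) * Real.log ‖fA (j + 1) xx‖ :=
      mul_le_mul_of_nonneg_left i4 (by linarith)
    have h8 : 16 * Real.log 4 ≤ (NN (j + 1) : ℝ) * Real.log 4 :=
      mul_le_mul_of_nonneg_right h5 (by linarith)
    have h9 : (DD (j + 1) : ℝ) * (NN (j + 1) : ℝ) * (Real.log eps - 1) =
      (NN (j + 1) : ℝ) * ((DD (j + 1) : ℝ) * (Real.log eps - 1)) := by ring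
    rw [h9]
    rw [mul_add] at h7
    linarith

/-- TARGET 2 -/
theorem x0_log (j : ℕ) (δ : ℝ) (hδ : 0 < δ) :
    Real.log eps - 2 ≤ (DD j : ℝ)⁻¹ * Real.log (max ‖(fA j xx - fB j xx) / 2‖ δ) := by
  have hmax : ∀ t s : ℝ, 0 < s → s ≤ t → Real.log s ≤ Real.log (max t δ) := by
    intro t s hs hst
    exact Real.log_le_log hs (hst.trans (le_max_left _ _))
  cases j with
  | zero =>
    have h1 : ‖(fA 0 xx - fB 0 xx) / 2‖ = eps / 4 := by
      rw [fA0_xx, fB0_xx, sub_zero, norm_div, Complex.norm_real, Real.norm_eq_abs,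
        abs_of_pos (by have := eps_pos; linarith)]
      simp; ring
    have h2 := hmax _ (eps / 4) (by have := eps_pos; linarith) (le_of_eq h1.symm)
    rw [Real.log_div eps_pos.ne' (by norm_num)] at h2
    have h3 : (DD 0 : ℝ) = 1 := by
      show ((1 : ℕ) : ℝ) = 1
      norm_num
    rw [h3, inv_one, one_mul]
    have := log4_le
    linarith
  | succ j =>
    obtain ⟨i1, i2, i3, i4⟩ := x0_ratio j
    have h1 : ‖fA (j + 1) xx‖ / 4 ≤ ‖(fA (j + 1) xx - fB (j + 1) xx) / 2‖ := by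
      rw [norm_div]
      have h2 : ‖fA (j + 1) xx‖ - ‖fB (j + 1) xx‖ ≤ ‖fA (j + 1) xx - fB (j + 1) xx‖ :=
        norm_sub_norm_le _ _
      have h3 : ‖(2:ℂ)‖ = 2 := by simp
      rw [h3]
      linarith
    have h2 := hmax _ _ (by positivity) h1
    rw [Real.log_div i3.ne' (by norm_num)] at h2
    have hD : (0:ℝ) < (DD (j + 1) : ℝ) := by exact_mod_cast DD_pos (j + 1)
    have h3 : (DD (j + 1) : ℝ) * (Real.log eps - 1) ≤
        Real.log (max ‖(fA (j + 1) xx - fB (j + 1) xx) / 2‖ δ) := by linarith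
    have h4 : Real.log eps - 1 ≤ (DD (j + 1) : ℝ)⁻¹ *
        Real.log (max ‖(fA (j + 1) xx - fB (j + 1) xx) / 2‖ δ) := by
      rw [inv_mul_eq_div, le_div_iff₀ hD]
      linarith
    linarith

lemma DD_big (j : ℕ) : (j + 14) * 8 ^ j ≤ 14 * DD j := by
  induction j with
  | zero => show (0 + 14) * 8 ^ 0 ≤ 14 * 1; norm_num
  | succ j ih =>
    have h1 : DD (j + 1) = DD j * NN j := rfl
    have h2 := NN_ge j
    calc (j + 1 + 14) * 8 ^ (j + 1) ≤ 1024 * ((j + 14) * 8 ^ j) := by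
          rw [pow_succ]
          have : (j + 1 + 14) * (8 ^ j * 8) = (8 * (j + 1 + 14)) * 8 ^ j := by ring
          rw [this, ← mul_assoc]
          exact Nat.mul_le_mul_right _ (by omega)
      _ ≤ 1024 * (14 * DD j) := Nat.mul_le_mul_left _ ih
      _ = 14 * (DD j * 1024) := by ring
      _ ≤ 14 * (DD j * NN j) := Nat.mul_le_mul_left _ (Nat.mul_le_mul_left _ h2)
      _ = 14 * DD (j + 1) := by rw [h1]

lemma log_NN (j : ℕ) : Real.log (16 * (NN j : ℝ)) ≤ j + 14 := by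
  have h1 : (16 * (NN j : ℝ)) = 2 ^ (j + 14) := by
    unfold NN
    push_cast
    rw [show (16:ℝ) = 2 ^ 4 by norm_num, ← pow_add]
    congr 1; ring
  rw [h1, Real.log_pow]
  have h2 : Real.log 2 ≤ 1 := by have := Real.log_two_lt_d9; linarith
  have h3 : (0:ℝ) ≤ ((j + 14 : ℕ) : ℝ) := by positivity
  calc ((j + 14 : ℕ) : ℝ) * Real.log 2 ≤ ((j + 14 : ℕ) : ℝ) * 1 := mul_le_mul_of_nonneg_left h2 h3
    _ = j + 14 := by push_cast; ring

lemma log_NN_nonneg (j : ℕ) : 0 ≤ Real.log (16 * (NN j : ℝ)) := by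
  apply Real.log_nonneg
  have : (1024 : ℝ) ≤ (NN j : ℝ) := by exact_mod_cast NN_ge j
  linarith

lemma term_le (j : ℕ) : (DD j : ℝ)⁻¹ * Real.log (16 * (NN j : ℝ)) ≤ 14 * (1 / 8) ^ j := by
  have hD : (0:ℝ) < (DD j : ℝ) := by exact_mod_cast DD_pos j
  rw [inv_mul_eq_div, div_le_iff₀ hD]
  have h1 : (((j + 14) * 8 ^ j : ℕ) : ℝ) ≤ ((14 * DD j : ℕ) : ℝ) := by exact_mod_cast DD_big j
  push_cast at h1
  have h2 := log_NN j
  have h3 : (0:ℝ) < 8 ^ j := by positivity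
  have h4 : (14:ℝ) * (1 / 8) ^ j * (DD j : ℝ) = (14 * (DD j : ℝ)) / 8 ^ j := by
    rw [one_div, inv_pow]; field_simp
  rw [h4, le_div_iff₀ h3]
  calc Real.log (16 * (NN j : ℝ)) * 8 ^ j ≤ (j + 14) * 8 ^ j :=
        mul_le_mul_of_nonneg_right h2 h3.le
    _ ≤ 14 * (DD j : ℝ) := h1

/-- TARGET 3: numerical bound of the sums -/
theorem x0_sum (n : ℕ) (s : ℕ → ℝ) (hs : ∀ j, Real.log eps - 2 ≤ s j) :
    Real.log eps < -(20 * Real.log 4) + ∑ j ∈ Finset.range n,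
      ((GG j : ℝ)⁻¹ * s j - (DD j : ℝ)⁻¹ * Real.log (16 * NN j)) - 1 := by
  have hL : Real.log eps = -(20 * 4096 * Real.log 4) := log_eps
  have h4 := log4_ge
  have key : ∀ n : ℕ, (Real.log eps - 2) * (1 / 8 * (1 - (1 / 2) ^ n)) - 16 * (1 - (1 / 8) ^ n) ≤
      ∑ j ∈ Finset.range n, ((GG j : ℝ)⁻¹ * s j - (DD j : ℝ)⁻¹ * Real.log (16 * NN j)) := by
    intro n
    induction n with
    | zero => simp
    | succ n ih =>
      rw [Finset.sum_range_succ]
      have h1 : (GG n : ℝ)⁻¹ = 1 / 16 * (1 / 2) ^ n := by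
        unfold GG
        push_cast
        rw [pow_add, one_div_pow]
        field_simp; norm_num
      have h2 := term_le n
      have h3 : (GG n : ℝ)⁻¹ * (Real.log eps - 2) ≤ (GG n : ℝ)⁻¹ * s n :=
        mul_le_mul_of_nonneg_left (hs n) (by positivity)
      rw [h1] at h3
      have e1 : (Real.log eps - 2) * (1 / 8 * (1 - (1 / 2) ^ (n + 1))) =
        (Real.log eps - 2) * (1 / 8 * (1 - (1 / 2) ^ n)) +
          1 / 16 * (1 / 2) ^ n * (Real.log eps - 2) := by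
        rw [pow_succ]; ring
      have e2 : (16 : ℝ) * (1 - (1 / 8) ^ (n + 1)) = 16 * (1 - (1 / 8) ^ n) + 14 * (1 / 8) ^ n := by
        rw [pow_succ]; ring
      rw [e1, e2, h1]
      linarith
  have h5 := key n
  have h6 : (0:ℝ) ≤ (1 / 2) ^ n := by positivity
  have h6' : ((1:ℝ) / 2) ^ n ≤ 1 := pow_le_one₀ (by norm_num) (by norm_num)
  have h7 : (0:ℝ) ≤ (1 / 8) ^ n := by positivity
  have h8 : (Real.log eps - 2) * (1 / 8) ≤ (Real.log eps - 2) * (1 / 8 * (1 - (1 / 2) ^ n)) := by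
    apply mul_le_mul_of_nonpos_left
    · linarith
    · rw [hL]; linarith
  rw [hL] at h5 h8 ⊢
  linarith

end Pool.Agent.Bl169
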