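import Pool.Agent.Bl169.Chain
import Pool.Agent.Bl169.X0
import Pool.Agent.Bl169.Maximal
set_option autoImplicit false
open Set Filter Topology Metric MeasureTheory

namespace Pool.Agent.Bl169

def FMax (U : Set E) (φ : E → EReal) : Prop :=
  FPsh U φ ∧ ∀ v : E → EReal, FPsh U v →
    (∃ K : Set E, IsCompact K ∧ K ⊆ U ∧ ∀ x ∈ U \ K, v x ≤ φ x) → ∀ x ∈ U, v x ≤ φ x

/-- the counterexample -/
noncomputable def uu (x : E) : EReal := ⨅ j, ((ww j x : ℝ) : EReal)

/-- the competitor -/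
noncomputable def vI (x : E) : EReal := ⨅ j, ((vv j x : ℝ) : EReal)

lemma fpsh_uu (U : Set E) (hU : U ⊆ Om) : FPsh U uu :=
  fpsh_iInf U ww (cpsh_ww U) (fun j x hx => ww_anti j x (hU hx))

lemma fpsh_vI (U : Set E) (hU : U ⊆ Om) : FPsh U vI :=
  fpsh_iInf U vv (cpsh_vv U) (fun j x hx => vv_anti j x (hU hx))

lemma ww_antitone (x : E) (hx : x ∈ Om) : Antitone (fun j => ww j x) :=
  antitone_nat_of_succ_le fun j => ww_anti j x hx

lemma fmax_of_seq (U : Set E) (hU : IsOpen U) (hUO : U ⊆ Om) (s : ℕ → ℕ) (hs : ∀ k, k ≤ s k)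
    (hno : ∀ k, ∀ x ∈ U, ¬ (‖fA (s k) x‖ = ‖fB (s k) x‖ ∧ ‖fB (s k) x‖ = ‖fC (s k) x‖)) :
    FMax U uu := by
  refine ⟨fpsh_uu U hUO, fun v hv hK x hx => ?_⟩
  obtain ⟨K, hK, hKU, hvK⟩ := hK
  refine le_iInf fun j => ?_
  have hD : (0 : ℝ) < DD (s j) := by exact_mod_cast DD_pos (s j)
  have h := maximal U hU (fA (s j)) (fB (s j)) (fC (s j)) (anA _) (anB _) (anC _) (WW_pos (s j))
    (hno j) (DD (s j)) hD v hv K hK hKU (fun y hy => (hvK y hy).trans (iInf_le _ (s j))) x hx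
  refine h.trans ?_
  have h2 : ww (s j) x ≤ ww j x := ww_antitone x (hUO hx) (hs j)
  exact_mod_cast h2

lemma isOpen_Om : IsOpen Om := by
  have h0 : Continuous (fun x : E => ‖x 0‖) := (continuous_apply 0).norm
  have h1 : Continuous (fun x : E => ‖x 1‖) := (continuous_apply 1).norm
  exact (isOpen_lt h0 continuous_const).inter (isOpen_lt h1 continuous_const)

lemma local_max (x : E) (hx : x ∈ Om) :
    ∃ U : Set E, IsOpen U ∧ x ∈ U ∧ U ⊆ Om ∧ FMax U uu := by
  have h0 : Continuous (fun x : E => ‖x 0‖) := (continuous_apply 0).norm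
  have hlt : (1 / 4 : ℝ) ^ 600 < (1 / 4 : ℝ) ^ 500 :=
    pow_lt_pow_right_of_lt_one₀ (by norm_num) (by norm_num) (by norm_num)
  by_cases h : (1 / 4 : ℝ) ^ 600 < ‖x 0‖
  · refine ⟨Om ∩ {y | (1 / 4 : ℝ) ^ 600 < ‖y 0‖}, isOpen_Om.inter (isOpen_lt continuous_const h0),
      ⟨hx, h⟩, inter_subset_left, ?_⟩
    exact fmax_of_seq _ (isOpen_Om.inter (isOpen_lt continuous_const h0)) inter_subset_left
      (fun k => 2 * k) (fun k => by omega) (fun k y hy => no_triple_even k y hy.1 hy.2)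
  · have h' : ‖x 0‖ < (1 / 4 : ℝ) ^ 500 := lt_of_le_of_lt (not_lt.1 h) hlt
    refine ⟨Om ∩ {y | ‖y 0‖ < (1 / 4 : ℝ) ^ 500}, isOpen_Om.inter (isOpen_lt h0 continuous_const),
      ⟨hx, h'⟩, inter_subset_left, ?_⟩
    exact fmax_of_seq _ (isOpen_Om.inter (isOpen_lt h0 continuous_const)) inter_subset_left
      (fun k => 2 * k + 1) (fun k => by omega)
      (fun k y hy => no_triple_odd k y hy.1 hy.2)

lemma isCompact_KK : IsCompact KK := by
  have e : KK = closedBall (0 : E) (1 / 4) := by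
    ext x
    rw [mem_closedBall_zero_iff, pi_norm_le_iff_of_nonneg (by norm_num)]
    constructor
    · rintro ⟨h0, h1⟩ i
      fin_cases i
      · exact h0
      · exact h1
    · intro h
      exact ⟨h 0, h 1⟩
  rw [e]
  exact isCompact_closedBall _ _

lemma KK_sub : KK ⊆ Om := fun x hx =>
  ⟨lt_of_le_of_lt hx.1 (by norm_num), lt_of_le_of_lt hx.2 (by norm_num)⟩

lemma not_max : ¬ FMax Om uu := by
  rintro ⟨-, h⟩
  have h1 := h vI (fpsh_vI Om subset_rfl) ⟨KK, isCompact_KK, KK_sub, fun x hx =>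
    iInf_mono fun j => by exact_mod_cast vv_le_ww j x hx⟩ xx xx_mem
  have h2 : uu xx ≤ ((Real.log eps : ℝ) : EReal) := by
    have h3 : ww 0 xx ≤ Real.log eps := by
      have e2 : ww 0 xx = Real.log (WW 0 xx) := by simp [ww, DD]
      rw [e2]
      refine Real.log_le_log (WW_pos 0 xx) ?_
      refine max_le (max_le ?_ ?_) ?_
      · rw [fA0_xx, Complex.norm_real, Real.norm_eq_abs, abs_of_pos (by have := eps_pos; positivity)]
        have := eps_pos
        linarith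
      · rw [fB0_xx, norm_zero]; exact eps_pos.le
      · rw [fC0_xx, Complex.norm_real, Real.norm_eq_abs, abs_of_pos eps_pos]
    exact (iInf_le _ 0).trans (by exact_mod_cast h3)
  have h4 : ((Real.log eps + 1 : ℝ) : EReal) ≤ vI xx := by
    refine le_iInf fun n => ?_
    have h5 := x0_sum n
      (fun j => (DD j : ℝ)⁻¹ * Real.log (max ‖(fA j xx - fB j xx) / 2‖ (dl j)))
      (fun j => x0_log j (dl j) (dl_pos j))
    have h6 : Real.log eps + 1 ≤ vv n xx := by
      unfold vv tt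
      linarith
    exact_mod_cast h6
  have h7 : ((Real.log eps + 1 : ℝ) : EReal) ≤ ((Real.log eps : ℝ) : EReal) :=
    h4.trans (h1.trans h2)
  rw [EReal.coe_le_coe_iff] at h7
  linarith

end Pool.Agent.Bl169
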