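import Pool.Agent.Bl169.Defs
set_option autoImplicit false
open Set Filter Topology Metric
namespace Pool.Agent.Bl169


theorem fpsh_circle_cont (U : Set E) (u : E → ℝ) (hu : ContinuousOn u U) (a b : E)
    (h : ∀ z : ℂ, ‖z‖ ≤ 1 → a + z • b ∈ U) :
    Continuous (fun θ : ℝ => u (a + Complex.exp ((θ : ℂ) * Complex.I) • b)) := by
  have h1 : Continuous (fun θ : ℝ => a + Complex.exp ((θ : ℂ) * Complex.I) • b) := by
    fun_prop
  refine hu.comp_continuous h1 fun θ => h _ ?_
  rw [Complex.norm_exp_ofReal_mul_I]

theorem fpsh_iInf (U : Set E) (u : ℕ → E → ℝ) (hu : ∀ j, CPsh U (u j))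
    (hanti : ∀ j, ∀ x ∈ U, u (j + 1) x ≤ u j x) :
    FPsh U (fun x => ⨅ j, ((u j x : ℝ) : EReal)) := by
  have hmono : ∀ x ∈ U, Antitone (fun j => u j x) := fun x hx =>
    antitone_nat_of_succ_le fun j => hanti j x hx
  refine ⟨?_, ?_, ?_⟩
  · refine upperSemicontinuousOn_iInf fun j => ?_
    exact (continuous_coe_real_ereal.comp_continuousOn (hu j).1).upperSemicontinuousOn
  · intro x _
    exact (lt_of_le_of_lt (iInf_le (fun j => ((u j x : ℝ) : EReal)) 0) (EReal.coe_lt_top _)).ne
  · intro a b hdisc M
    have hpi : 0 < (2 * Real.pi)⁻¹ := by positivity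
    have hcirc : ∀ θ : ℝ, a + Complex.exp ((θ : ℂ) * Complex.I) • b ∈ U := fun θ =>
      hdisc _ (by rw [Complex.norm_exp_ofReal_mul_I])
    have hcont : ∀ j, Continuous (fun θ : ℝ =>
        u j (a + Complex.exp ((θ : ℂ) * Complex.I) • b)) := fun j =>
      fpsh_circle_cont U (u j) (hu j).1 a b hdisc
    have hwcont : ∀ j, Continuous (fun θ : ℝ =>
        max (u j (a + Complex.exp ((θ : ℂ) * Complex.I) • b)) M) := fun j =>
      (hcont j).max continuous_const
    have hlim : Tendsto (fun j => ∫ θ in (0:ℝ)..(2 * Real.pi),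
        max (u j (a + Complex.exp ((θ : ℂ) * Complex.I) • b)) M) atTop
        (𝓝 (∫ θ in (0:ℝ)..(2 * Real.pi),
          (max (⨅ j, ((u j (a + Complex.exp ((θ : ℂ) * Complex.I) • b) : ℝ) : EReal))
            (M : EReal)).toReal)) := by
      refine intervalIntegral.tendsto_integral_filter_of_dominated_convergence
        (fun θ => |M| + |max (u 0 (a + Complex.exp ((θ : ℂ) * Complex.I) • b)) M|)
        (Eventually.of_forall fun j => (hwcont j).aestronglyMeasurable)
        (Eventually.of_forall fun j => Eventually.of_forall fun θ _ => ?_)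
        ((continuous_const.add (hwcont 0).abs).intervalIntegrable _ _)
        (Eventually.of_forall fun θ _ => ?_)
      · have h1 : u j (a + Complex.exp ((θ : ℂ) * Complex.I) • b) ≤
            u 0 (a + Complex.exp ((θ : ℂ) * Complex.I) • b) := hmono _ (hcirc θ) (Nat.zero_le j)
        generalize u j (a + Complex.exp ((θ : ℂ) * Complex.I) • b) = x at h1
        generalize u 0 (a + Complex.exp ((θ : ℂ) * Complex.I) • b) = y at h1
        rw [Real.norm_eq_abs, abs_le]
        have h2 : M ≤ max x M := le_max_right _ _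
        have h3 : max x M ≤ max y M := max_le_max_right _ h1
        have h4 := neg_abs_le M
        have h5 := le_abs_self (max y M)
        have h6 := abs_nonneg (max y M)
        have h7 := abs_nonneg M
        constructor <;> linarith
      · have h1 : Antitone (fun j => ((u j (a + Complex.exp ((θ : ℂ) * Complex.I) • b) : ℝ) :
            EReal)) := fun i j hij => EReal.coe_le_coe_iff.2 (hmono _ (hcirc θ) hij)
        have h2 := tendsto_atTop_iInf h1
        have h3 : Tendsto (fun j => max ((u j (a + Complex.exp ((θ : ℂ) * Complex.I) • b) : ℝ) :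
            EReal) (M : EReal)) atTop (𝓝 (max (⨅ j, ((u j
              (a + Complex.exp ((θ : ℂ) * Complex.I) • b) : ℝ) : EReal)) (M : EReal))) :=
          h2.max tendsto_const_nhds
        have h4 : max (⨅ j, ((u j
              (a + Complex.exp ((θ : ℂ) * Complex.I) • b) : ℝ) : EReal)) (M : EReal) ≠ ⊤ := by
          refine (max_lt ?_ (EReal.coe_lt_top _)).ne
          exact lt_of_le_of_lt (iInf_le _ 0) (EReal.coe_lt_top _)
        have h5 : max (⨅ j, ((u j
              (a + Complex.exp ((θ : ℂ) * Complex.I) • b) : ℝ) : EReal)) (M : EReal) ≠ ⊥ :=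
          (lt_of_lt_of_le (EReal.bot_lt_coe M) (le_max_right _ _)).ne'
        have h6 := (EReal.tendsto_toReal h4 h5).comp h3
        refine h6.congr fun j => ?_
        change (max ((u j (a + Complex.exp ((θ : ℂ) * Complex.I) • b) : ℝ) : EReal)
          (M : EReal)).toReal = _
        rw [← EReal.coe_strictMono.monotone.map_max, EReal.toReal_coe]
    have hlim2 := hlim.const_mul ((2 * Real.pi)⁻¹)
    have hlim3 := (continuous_coe_real_ereal.tendsto _).comp hlim2
    refine ge_of_tendsto hlim3 (Eventually.of_forall fun j => ?_)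
    refine (iInf_le _ j).trans ?_
    refine EReal.coe_le_coe_iff.2 ?_
    refine ((hu j).2 a b hdisc).trans ?_
    unfold cm
    refine mul_le_mul_of_nonneg_left ?_ hpi.le
    refine intervalIntegral.integral_mono_on (by positivity) ((hcont j).intervalIntegrable _ _)
      ((hwcont j).intervalIntegrable _ _) fun θ _ => le_max_left _ _

theorem fpsh_of_cpsh (U : Set E) (u : E → ℝ) (hu : CPsh U u) :
    FPsh U (fun x => ((u x : ℝ) : EReal)) := by
  have h := fpsh_iInf U (fun _ => u) (fun _ => hu) (fun _ _ _ => le_rfl)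
  simpa only [iInf_const] using h

theorem cpsh_const (U : Set E) (c : ℝ) : CPsh U (fun _ => c) := by
  refine ⟨continuousOn_const, fun a b _ => ?_⟩
  unfold cm
  rw [intervalIntegral.integral_const, smul_eq_mul, sub_zero, ← mul_assoc,
    inv_mul_cancel₀ (by positivity), one_mul]

theorem cpsh_add (U : Set E) (u v : E → ℝ) (hu : CPsh U u) (hv : CPsh U v) :
    CPsh U (fun x => u x + v x) := by
  refine ⟨hu.1.add hv.1, fun a b h => ?_⟩
  have h1 := hu.2 a b h
  have h2 := hv.2 a b h
  unfold cm at *
  rw [intervalIntegral.integral_add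
    ((fpsh_circle_cont U u hu.1 a b h).intervalIntegrable _ _)
    ((fpsh_circle_cont U v hv.1 a b h).intervalIntegrable _ _), mul_add]
  exact add_le_add h1 h2

theorem cpsh_smul (U : Set E) (u : E → ℝ) (hu : CPsh U u) (c : ℝ) (hc : 0 ≤ c) :
    CPsh U (fun x => c * u x) := by
  refine ⟨continuousOn_const.mul hu.1, fun a b h => ?_⟩
  have h1 := hu.2 a b h
  unfold cm at *
  rw [intervalIntegral.integral_const_mul, mul_left_comm]
  exact mul_le_mul_of_nonneg_left h1 hc

end Pool.Agent.Bl169
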