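import Pool.Agent.Bl169.Defs
set_option autoImplicit false
open Set Filter Topology Metric MeasureTheory
namespace Pool.Agent.Bl169


theorem exists_kernel (δ : ℝ) (hδ : 0 < δ) : ∃ χ : E → ℝ, ContDiff ℝ 2 χ ∧ HasCompactSupport χ ∧
    (∀ y, 0 ≤ χ y) ∧ (∀ y, δ < ‖y‖ → χ y = 0) ∧
    (∀ (θ : ℝ) (y : E), χ (Complex.exp ((θ : ℂ) * Complex.I) • y) = χ y) ∧
    ∫ y, χ y = 1 := by
  have hδ2 : 0 < δ ^ 2 := by positivity
  let f : ContDiffBump (0 : ℝ) := ⟨δ ^ 2 / 2, δ ^ 2, by positivity, by linarith⟩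
  let χ₀ : E → ℝ := fun y => f (‖y 0‖ ^ 2 + ‖y 1‖ ^ 2)
  have hsm : ContDiff ℝ 2 χ₀ := by
    have h1 : ContDiff ℝ 2 (fun y : E => ‖y 0‖ ^ 2 + ‖y 1‖ ^ 2) :=
      ((contDiff_apply ℝ ℂ (0 : Fin 2)).norm_sq ℝ).add ((contDiff_apply ℝ ℂ (1 : Fin 2)).norm_sq ℝ)
    exact f.contDiff.comp h1
  have hnn : ∀ y, 0 ≤ χ₀ y := fun y => f.nonneg
  have hz : ∀ y, δ < ‖y‖ → χ₀ y = 0 := by
    intro y hy
    apply f.zero_of_le_dist
    have h1 : 0 ≤ ‖y 0‖ ^ 2 + ‖y 1‖ ^ 2 := by positivity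
    rw [Real.dist_eq, sub_zero, abs_of_nonneg h1]
    show δ ^ 2 ≤ ‖y 0‖ ^ 2 + ‖y 1‖ ^ 2
    by_contra hcon
    push Not at hcon
    have h2 : ‖y‖ ≤ δ := by
      rw [pi_norm_le_iff_of_nonneg hδ.le]
      intro i
      fin_cases i
      · have : ‖y 0‖ ^ 2 ≤ δ ^ 2 := by nlinarith [sq_nonneg ‖y 1‖]
        exact le_of_sq_le_sq this hδ.le
      · have : ‖y 1‖ ^ 2 ≤ δ ^ 2 := by nlinarith [sq_nonneg ‖y 0‖]
        exact le_of_sq_le_sq this hδ.le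
    linarith
  have hcs : HasCompactSupport χ₀ := by
    apply HasCompactSupport.intro (isCompact_closedBall (0 : E) δ)
    intro y hy
    apply hz
    rw [mem_closedBall, dist_zero_right, not_le] at hy
    exact hy
  have hrot : ∀ (θ : ℝ) (y : E), χ₀ (Complex.exp ((θ : ℂ) * Complex.I) • y) = χ₀ y := by
    intro θ y
    have h1 : ∀ i, ‖(Complex.exp ((θ : ℂ) * Complex.I) • y) i‖ = ‖y i‖ := by
      intro i
      rw [Pi.smul_apply, norm_smul, Complex.norm_exp_ofReal_mul_I, one_mul]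
    show f _ = f _
    rw [h1, h1]
  have hone : χ₀ 0 ≠ 0 := by
    have : χ₀ 0 = 1 := by
      apply f.one_of_mem_closedBall
      show (‖(0 : E) 0‖ ^ 2 + ‖(0 : E) 1‖ ^ 2 : ℝ) ∈ closedBall (0 : ℝ) (δ ^ 2 / 2)
      simp
      positivity
    rw [this]
    exact one_ne_zero
  have hpos : 0 < ∫ y, χ₀ y := by
    exact hsm.continuous.integral_pos_of_hasCompactSupport_nonneg_nonzero hcs hnn hone
  refine ⟨fun y => (∫ y, χ₀ y)⁻¹ * χ₀ y, contDiff_const.mul hsm, ?_, ?_, ?_, ?_, ?_⟩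
  · exact hcs.mul_left
  · intro y
    exact mul_nonneg (inv_nonneg.2 hpos.le) (hnn y)
  · intro y hy
    show _ * χ₀ y = 0
    rw [hz y hy, mul_zero]
  · intro θ y
    show _ * χ₀ _ = _ * χ₀ _
    rw [hrot]
  · rw [integral_const_mul, inv_mul_cancel₀ hpos.ne']

end Pool.Agent.Bl169
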