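import Pool.Agent.Bl169.Defs
set_option autoImplicit false
open Set Filter Topology Metric
namespace Pool.Agent.Bl169


open scoped ComplexConjugate in
lemma log_norm_le_poly {g : ℂ → ℝ} (hg : Continuous g) {ε : ℝ} (hε : 0 < ε) :
    ∃ P : Polynomial ℂ, ∀ ζ : ℂ, ‖ζ‖ = 1 → |g ζ - (P.eval ζ).re| < ε := by
  set T : ℝ := 2 * Real.pi with hT
  have : Fact (0 < T) := ⟨by positivity⟩
  let h : C(AddCircle T, ℂ) :=
    ⟨fun x => (g ((AddCircle.toCircle x : Circle) : ℂ) : ℂ), by
      exact Complex.continuous_ofReal.comp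
        (hg.comp (continuous_subtype_val.comp AddCircle.continuous_toCircle))⟩
  have hmem : h ∈ (Submodule.span ℂ (Set.range <| @fourier T)).topologicalClosure := by
    rw [span_fourier_closure_eq_top]; trivial
  have hmem' : h ∈ closure ((Submodule.span ℂ (Set.range <| @fourier T) : Submodule ℂ _) : Set C(AddCircle T, ℂ)) := hmem
  obtain ⟨k, hk, hdist⟩ := Metric.mem_closure_iff.1 hmem' ε hε
  have key : ∃ P Q : Polynomial ℂ, ∀ x : AddCircle T,
      k x = P.eval ((AddCircle.toCircle x : Circle) : ℂ) +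
        conj (Q.eval ((AddCircle.toCircle x : Circle) : ℂ)) := by
    refine Submodule.span_induction (p := fun k _ => ∃ P Q : Polynomial ℂ, ∀ x : AddCircle T,
      k x = P.eval ((AddCircle.toCircle x : Circle) : ℂ) +
        conj (Q.eval ((AddCircle.toCircle x : Circle) : ℂ))) ?_ ?_ ?_ ?_ hk
    · rintro _ ⟨n, rfl⟩
      obtain ⟨m, rfl | rfl⟩ := n.eq_nat_or_neg
      · refine ⟨Polynomial.X ^ m, 0, fun x => ?_⟩
        simp [fourier_apply, AddCircle.toCircle_nsmul]
      · refine ⟨0, Polynomial.X ^ m, fun x => ?_⟩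
        rw [fourier_neg]
        simp [fourier_apply, AddCircle.toCircle_nsmul]
    · exact ⟨0, 0, fun x => by simp⟩
    · rintro a b _ _ ⟨P, Q, h1⟩ ⟨P', Q', h2⟩
      refine ⟨P + P', Q + Q', fun x => ?_⟩
      rw [ContinuousMap.add_apply, h1, h2]
      simp only [Polynomial.eval_add, map_add]
      ring
    · rintro a b _ ⟨P, Q, h1⟩
      refine ⟨Polynomial.C a * P, Polynomial.C (conj a) * Q, fun x => ?_⟩
      rw [ContinuousMap.smul_apply, h1]
      simp only [Polynomial.eval_mul, Polynomial.eval_C, map_mul, Complex.conj_conj, smul_eq_mul]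
      ring
  obtain ⟨P, Q, hPQ⟩ := key
  refine ⟨P + Q, fun ζ hζ => ?_⟩
  obtain ⟨x, hx⟩ : ∃ x : AddCircle T, AddCircle.toCircle x = (⟨ζ, by simp [Submonoid.unitSphere, hζ]⟩ : Circle) := by
    obtain ⟨x, hx⟩ := (AddCircle.homeomorphCircle (T := T) (by positivity)).surjective
      (⟨ζ, by simp [Submonoid.unitSphere, hζ]⟩ : Circle)
    exact ⟨x, by rw [← hx, AddCircle.homeomorphCircle_apply]⟩
  have hx' : ((AddCircle.toCircle x : Circle) : ℂ) = ζ := by rw [hx]
  have h1 : ‖h x - k x‖ < ε := by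
    have e := ContinuousMap.norm_coe_le_norm (h - k) x
    rw [ContinuousMap.sub_apply] at e
    rw [dist_eq_norm] at hdist
    exact lt_of_le_of_lt e hdist
  have h2 : (h x - k x).re = g ζ - ((P + Q).eval ζ).re := by
    rw [hPQ x, hx']
    show ((g ((AddCircle.toCircle x : Circle) : ℂ) : ℂ) - _).re = _
    rw [hx']
    simp only [Complex.sub_re, Complex.ofReal_re, Complex.add_re, Complex.conj_re,
      Polynomial.eval_add]
  rw [← h2]
  exact lt_of_le_of_lt (Complex.abs_re_le_norm _) h1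

lemma log_norm_le_re {Q : ℂ → ℂ} (hQ : Differentiable ℂ Q) (a : ℂ) (r : ℝ) :
    Real.circleAverage (fun ζ => (Q ζ).re) a r = (Q a).re := by
  have h1 : Real.circleAverage Q a r = Q a := (hQ.diffContOnCl (s := ball a |r|)).circleAverage
  have h2 := Complex.reCLM.circleAverage_comp_comm (f := Q) (c := a) (R := r)
    (hQ.continuous.continuousOn.circleIntegrable')
  have h3 : (fun ζ => (Q ζ).re) = Complex.reCLM ∘ Q := rfl
  rw [h3, h2, h1]
  rfl


theorem log_norm_le (f : ℂ → ℂ) (hf : ∀ z, AnalyticAt ℂ f z) (W : ℂ → ℝ) (hW : Continuous W)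
    (hpos : ∀ z, 0 < W z) (hle : ∀ z, ‖f z‖ ≤ W z) (h0 : f 0 ≠ 0) :
    Real.log ‖f 0‖ ≤ Real.circleAverage (fun z => Real.log (W z)) 0 1 := by
  have hfd : Differentiable ℂ f := fun z => (hf z).differentiableAt
  have hlog : Continuous fun z => Real.log (W z) := hW.log fun z => (hpos z).ne'
  have key : ∀ ε : ℝ, 0 < ε →
      Real.log ‖f 0‖ ≤ Real.circleAverage (fun z => Real.log (W z)) 0 1 + 2 * ε := by
    intro ε hε
    obtain ⟨P, hP⟩ := log_norm_le_poly hlog hε
    have hPd : Differentiable ℂ fun z => P.eval z := P.differentiable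
    have hd : Differentiable ℂ fun z => f z * Complex.exp (-(P.eval z)) :=
      hfd.mul hPd.neg.cexp
    have hb : ‖f 0 * Complex.exp (-(P.eval 0))‖ ≤ Real.exp ε := by
      refine Complex.norm_le_of_forall_mem_frontier_norm_le (U := Metric.ball (0:ℂ) 1)
        (f := fun z => f z * Complex.exp (-(P.eval z))) Metric.isBounded_ball
        hd.diffContOnCl ?_ (subset_closure (Metric.mem_ball_self one_pos))
      intro z hz
      rw [frontier_ball (0:ℂ) one_ne_zero, mem_sphere_zero_iff_norm] at hz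
      have h1 := hP z hz
      rw [abs_lt] at h1
      rw [norm_mul, Complex.norm_exp, Complex.neg_re]
      calc ‖f z‖ * Real.exp (-(P.eval z).re) ≤ W z * Real.exp (-(P.eval z).re) :=
            mul_le_mul_of_nonneg_right (hle z) (Real.exp_pos _).le
        _ = Real.exp (Real.log (W z)) * Real.exp (-(P.eval z).re) := by
            rw [Real.exp_log (hpos z)]
        _ = Real.exp (Real.log (W z) - (P.eval z).re) := by
            rw [← Real.exp_add, sub_eq_add_neg]
        _ ≤ Real.exp ε := Real.exp_le_exp.2 h1.2.le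
    have h2 : Real.log ‖f 0‖ - (P.eval 0).re ≤ ε := by
      rw [norm_mul, Complex.norm_exp, Complex.neg_re] at hb
      have h3 := Real.log_le_log (mul_pos (norm_pos_iff.2 h0) (Real.exp_pos _)) hb
      rw [Real.log_exp, Real.log_mul (norm_pos_iff.2 h0).ne' (Real.exp_pos _).ne',
        Real.log_exp] at h3
      linarith
    have h3 : (P.eval 0).re ≤ Real.circleAverage (fun z => Real.log (W z)) 0 1 + ε := by
      rw [← log_norm_le_re hPd 0 1]
      have hc1 : CircleIntegrable (fun z => (P.eval z).re) 0 1 :=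
        ((Complex.continuous_re.comp hPd.continuous).continuousOn).circleIntegrable'
      have hc2 : CircleIntegrable (fun z => Real.log (W z)) 0 1 :=
        hlog.continuousOn.circleIntegrable'
      have hc3 : CircleIntegrable (fun _ : ℂ => ε) 0 1 := circleIntegrable_const _ _ _
      have e : Real.circleAverage (fun z => Real.log (W z)) 0 1 + ε =
          Real.circleAverage ((fun z => Real.log (W z)) + fun _ => ε) 0 1 := by
        rw [Real.circleAverage_add hc2 hc3, Real.circleAverage_const]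
      rw [e]
      apply Real.circleAverage_mono hc1 (hc2.add hc3)
      intro z hz
      rw [abs_one, mem_sphere_zero_iff_norm] at hz
      have h1 := hP z hz
      rw [abs_lt] at h1
      simp only [Pi.add_apply]
      linarith
    linarith
  apply le_of_forall_pos_le_add
  intro ε hε
  have := key (ε / 2) (by positivity)
  linarith

theorem cpsh_log_max_aux (V : E → ℝ) (hV : Continuous V) (hpos : ∀ x, 0 < V x) (K : E → ℂ)
    (hK : ∀ x, AnalyticAt ℂ K x) (hle : ∀ x, ‖K x‖ ≤ V x) (a b : E) (ha : ‖K a‖ = V a) :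
    Real.log (V a) ≤ cm (fun x => Real.log (V x)) a b := by
  have h1 : ∀ z : ℂ, AnalyticAt ℂ (fun z : ℂ => K (a + z • b)) z := by
    intro z
    have h2 : AnalyticAt ℂ (fun z : ℂ => a + z • b) z :=
      analyticAt_const.add (analyticAt_id.smul analyticAt_const)
    exact (hK _).comp h2
  have hc : Continuous fun z : ℂ => V (a + z • b) := hV.comp (by fun_prop)
  have h3 := log_norm_le (fun z : ℂ => K (a + z • b)) h1 (fun z => V (a + z • b)) hc
    (fun z => hpos _) (fun z => hle _) (by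
      simp only [zero_smul, add_zero]
      rw [← norm_pos_iff, ha]
      exact hpos a)
  simp only [zero_smul, add_zero] at h3
  rw [ha] at h3
  refine h3.trans (le_of_eq ?_)
  rw [Real.circleAverage, cm, smul_eq_mul]
  congr 1
  apply intervalIntegral.integral_congr
  intro θ _
  simp [circleMap]

theorem cpsh_log_max (U : Set E) (F G H : E → ℂ) (hF : ∀ x, AnalyticAt ℂ F x)
    (hG : ∀ x, AnalyticAt ℂ G x) (hH : ∀ x, AnalyticAt ℂ H x)
    (hpos : ∀ x, 0 < max (max ‖F x‖ ‖G x‖) ‖H x‖) :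
    CPsh U (fun x => Real.log (max (max ‖F x‖ ‖G x‖) ‖H x‖)) := by
  have hFc : Continuous F := continuous_iff_continuousAt.2 fun x => (hF x).continuousAt
  have hGc : Continuous G := continuous_iff_continuousAt.2 fun x => (hG x).continuousAt
  have hHc : Continuous H := continuous_iff_continuousAt.2 fun x => (hH x).continuousAt
  have hVc : Continuous fun x => max (max ‖F x‖ ‖G x‖) ‖H x‖ :=
    (hFc.norm.max hGc.norm).max hHc.norm
  refine ⟨(hVc.log fun x => (hpos x).ne').continuousOn, fun a b _ => ?_⟩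
  have hF1 : ∀ x, ‖F x‖ ≤ max (max ‖F x‖ ‖G x‖) ‖H x‖ := fun x =>
    le_trans (le_max_left _ _) (le_max_left _ _)
  have hG1 : ∀ x, ‖G x‖ ≤ max (max ‖F x‖ ‖G x‖) ‖H x‖ := fun x =>
    le_trans (le_max_right _ _) (le_max_left _ _)
  have hH1 : ∀ x, ‖H x‖ ≤ max (max ‖F x‖ ‖G x‖) ‖H x‖ := fun x => le_max_right _ _
  rcases le_total ‖H a‖ (max ‖F a‖ ‖G a‖) with h | h
  · rcases le_total ‖G a‖ ‖F a‖ with h' | h'
    · exact cpsh_log_max_aux (fun x => max (max ‖F x‖ ‖G x‖) ‖H x‖) hVc hpos F hF hF1 a b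
        (by show _ = max (max ‖F a‖ ‖G a‖) ‖H a‖; rw [max_eq_left h, max_eq_left h'])
    · exact cpsh_log_max_aux (fun x => max (max ‖F x‖ ‖G x‖) ‖H x‖) hVc hpos G hG hG1 a b
        (by show _ = max (max ‖F a‖ ‖G a‖) ‖H a‖; rw [max_eq_left h, max_eq_right h'])
  · exact cpsh_log_max_aux (fun x => max (max ‖F x‖ ‖G x‖) ‖H x‖) hVc hpos H hH hH1 a b
      (by show _ = max (max ‖F a‖ ‖G a‖) ‖H a‖; rw [max_eq_right h])

theorem cpsh_log_trunc (U : Set E) (F : E → ℂ) (hF : ∀ x, AnalyticAt ℂ F x) (δ : ℝ) (hδ : 0 < δ) :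
    CPsh U (fun x => Real.log (max ‖F x‖ δ)) := by
  have h := cpsh_log_max U F (fun _ => (δ:ℂ)) (fun _ => (δ:ℂ)) hF (fun _ => analyticAt_const)
    (fun _ => analyticAt_const) (fun x => lt_of_lt_of_le (by
      rw [Complex.norm_real, Real.norm_eq_abs]; exact abs_pos.2 hδ.ne') (le_max_right _ _))
  have e : (fun x => Real.log (max (max ‖F x‖ ‖(δ:ℂ)‖) ‖(δ:ℂ)‖)) =
      fun x => Real.log (max ‖F x‖ δ) := by
    funext x
    rw [Complex.norm_real, Real.norm_eq_abs, abs_of_pos hδ, max_assoc, max_self]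
  rw [← e]
  exact h

end Pool.Agent.Bl169
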