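import Pool.Agent.Bl169.PowSub
set_option autoImplicit false
namespace Pool.Agent.Bl169


theorem norm_pow_sub_le (n : ℕ) (a b : ℂ) (W : ℝ) (ha : ‖a‖ ≤ W) (hb : ‖b‖ ≤ W) :
    ‖a ^ n - b ^ n‖ ≤ n * W ^ (n - 1) * ‖a - b‖ := by
  have hW : 0 ≤ W := (norm_nonneg a).trans ha
  rw [← (Commute.all a b).geom_sum₂_mul n, norm_mul]
  refine mul_le_mul_of_nonneg_right ?_ (norm_nonneg _)
  refine (norm_sum_le _ _).trans ?_
  have h1 : ∀ i ∈ Finset.range n, ‖a ^ i * b ^ (n - 1 - i)‖ ≤ W ^ (n - 1) := by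
    intro i hi
    rw [Finset.mem_range] at hi
    rw [norm_mul, norm_pow, norm_pow]
    calc ‖a‖ ^ i * ‖b‖ ^ (n - 1 - i) ≤ W ^ i * W ^ (n - 1 - i) :=
          mul_le_mul (pow_le_pow_left₀ (norm_nonneg _) ha _)
            (pow_le_pow_left₀ (norm_nonneg _) hb _) (by positivity) (by positivity)
      _ = W ^ (n - 1) := by
          rw [← pow_add]
          congr 1
          omega
  refine (Finset.sum_le_sum h1).trans ?_
  rw [Finset.sum_const, Finset.card_range, nsmul_eq_mul]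

theorem loss_step (N lam rho G : ℕ) (hN : 16 ≤ N) (hlam : 1 ≤ lam) (hrho : 1 ≤ rho)
    (hG : 1 ≤ G) (hGN : G ≤ N) (hl : G * (lam - 1) ≤ N * (rho - 1) + 1)
    (a b c : ℂ) (hb : ‖b‖ ≤ 1 / (8 * N))
    (hW : max (max ‖a‖ ‖b‖) ‖c‖ ≤ 1)
    (hQ : ‖a - b‖ ≤ ‖b‖ / 4 → ‖c‖ ≤ ‖b‖ → ‖c‖ ≤ ‖b‖ ^ rho) :
    (max (max ‖a‖ ‖b‖) ‖c‖) ^ (N * G) * ‖(a - b) / 2‖ ^ N ≤
      (16 * N : ℝ) ^ (N * G) *
        (max (max ‖(a ^ N - b ^ N - c ^ N) / 3‖ ‖((a - b) / 2) ^ N‖) ‖b ^ (N * lam)‖) ^ G := by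
  have haW : ‖a‖ ≤ max (max ‖a‖ ‖b‖) ‖c‖ := (le_max_left _ _).trans (le_max_left _ _)
  have hbW : ‖b‖ ≤ max (max ‖a‖ ‖b‖) ‖c‖ := (le_max_right _ _).trans (le_max_left _ _)
  have hcW : ‖c‖ ≤ max (max ‖a‖ ‖b‖) ‖c‖ := le_max_right _ _
  have hWcases : max (max ‖a‖ ‖b‖) ‖c‖ = ‖a‖ ∨ max (max ‖a‖ ‖b‖) ‖c‖ = ‖b‖ ∨
      max (max ‖a‖ ‖b‖) ‖c‖ = ‖c‖ := by
    rcases max_choice (max ‖a‖ ‖b‖) ‖c‖ with h | h
    · rcases max_choice ‖a‖ ‖b‖ with h' | h'
      · left; rw [h, h']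
      · right; left; rw [h, h']
    · right; right; exact h
  generalize max (max ‖a‖ ‖b‖) ‖c‖ = W at *
  have hA' : ‖(a ^ N - b ^ N - c ^ N) / 3‖ ≤
      max (max ‖(a ^ N - b ^ N - c ^ N) / 3‖ ‖((a - b) / 2) ^ N‖) ‖b ^ (N * lam)‖ :=
    (le_max_left _ _).trans (le_max_left _ _)
  have hB' : ‖((a - b) / 2) ^ N‖ ≤
      max (max ‖(a ^ N - b ^ N - c ^ N) / 3‖ ‖((a - b) / 2) ^ N‖) ‖b ^ (N * lam)‖ :=
    (le_max_right _ _).trans (le_max_left _ _)
  have hC' : ‖b ^ (N * lam)‖ ≤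
      max (max ‖(a ^ N - b ^ N - c ^ N) / 3‖ ‖((a - b) / 2) ^ N‖) ‖b ^ (N * lam)‖ :=
    le_max_right _ _
  generalize max (max ‖(a ^ N - b ^ N - c ^ N) / 3‖ ‖((a - b) / 2) ^ N‖) ‖b ^ (N * lam)‖ = W'
    at hA' hB' hC' ⊢
  have hx : ‖(a - b) / 2‖ = ‖a - b‖ / 2 := by
    rw [norm_div]
    norm_num
  have hAeq : ‖(a ^ N - b ^ N - c ^ N) / 3‖ = ‖a ^ N - b ^ N - c ^ N‖ / 3 := by
    rw [norm_div]
    norm_num
  rw [hAeq] at hA'
  rw [norm_pow, hx] at hB'
  rw [norm_pow] at hC'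
  rw [hx]
  have hδ0 : 0 ≤ ‖a - b‖ := norm_nonneg _
  have hδ2 : ‖a - b‖ ≤ 2 := by
    calc ‖a - b‖ ≤ ‖a‖ + ‖b‖ := norm_sub_le _ _
      _ ≤ 2 := by linarith
  have hab1 : ‖a‖ ≤ ‖b‖ + ‖a - b‖ := by
    have : a = b + (a - b) := by ring
    calc ‖a‖ = ‖b + (a - b)‖ := by rw [← this]
      _ ≤ _ := norm_add_le _ _
  have hNr : (16 : ℝ) ≤ N := by exact_mod_cast hN
  have hW0 : 0 ≤ W := (norm_nonneg a).trans haW
  have hb0 : 0 ≤ ‖b‖ := norm_nonneg b
  have hc0 : 0 ≤ ‖c‖ := norm_nonneg c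
  have hest := pow_sub_est N (by omega) a b
  have hdiff := norm_pow_sub_le N a b W haW hbW
  have htri : ‖c ^ N‖ - ‖a ^ N - b ^ N‖ ≤ ‖a ^ N - b ^ N - c ^ N‖ := by
    have := norm_sub_norm_le (c ^ N) (a ^ N - b ^ N)
    rw [norm_sub_rev (c ^ N)] at this
    exact this
  have htri2 : ‖a ^ N - b ^ N‖ - ‖c ^ N‖ ≤ ‖a ^ N - b ^ N - c ^ N‖ := norm_sub_norm_le _ _
  rw [norm_pow c] at htri htri2
  have hA0 : 0 ≤ ‖a ^ N - b ^ N - c ^ N‖ := norm_nonneg _
  have hW'0 : 0 ≤ W' := le_trans (by positivity) hA'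
  generalize ‖a - b‖ = δ at *
  generalize ‖a ^ N - b ^ N - c ^ N‖ = A at *
  generalize ‖a ^ N - b ^ N‖ = D at *
  generalize ‖b‖ = β at *
  generalize ‖c‖ = γ at *
  generalize ‖a‖ = α at *
  set x := δ / 2 with hxdef
  have hx0 : 0 ≤ x := by positivity
  have hx1 : x ≤ 1 := by rw [hxdef]; linarith
  have hxN1 : x ^ N ≤ 1 := pow_le_one₀ hx0 hx1
  have hNG0 : N * G ≠ 0 := by
    have : 0 < N * G := Nat.mul_pos (by omega) (by omega)
    omega
  -- a general finishing step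
  have fin2 : ∀ K : ℝ, 0 ≤ K → K ^ G ≤ (16 * (N : ℝ)) ^ (N * G) → W ^ (N * G) * x ^ N ≤ K ^ G * W' ^ G →
      W ^ (N * G) * x ^ N ≤ (16 * (N : ℝ)) ^ (N * G) * W' ^ G := by
    intro K _ hK h
    exact h.trans (mul_le_mul_of_nonneg_right hK (by positivity))
  have h2N : ((2 : ℝ) ^ N) ^ G ≤ (16 * (N : ℝ)) ^ (N * G) := by
    rw [← pow_mul]
    exact pow_le_pow_left₀ (by norm_num) (by linarith) _
  have h4N : (4 : ℝ) ^ G ≤ (16 * (N : ℝ)) ^ (N * G) := by
    calc (4 : ℝ) ^ G ≤ (16 * (N : ℝ)) ^ G := pow_le_pow_left₀ (by norm_num) (by linarith) _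
      _ ≤ (16 * (N : ℝ)) ^ (N * G) := pow_le_pow_right₀ (by linarith)
          (Nat.le_mul_of_pos_left G (by omega))
  by_cases h1 : W ≤ δ * (8 * N)
  · have h3 : W ≤ 16 * N * x := by rw [hxdef]; linarith
    calc W ^ (N * G) * x ^ N ≤ (16 * N * x) ^ (N * G) * 1 :=
          mul_le_mul (pow_le_pow_left₀ hW0 h3 _) hxN1 (by positivity) (by positivity)
      _ = (16 * (N : ℝ)) ^ (N * G) * (x ^ N) ^ G := by
          rw [mul_one, mul_pow, ← pow_mul]
      _ ≤ _ := mul_le_mul_of_nonneg_left (pow_le_pow_left₀ (by positivity) hB' _) (by positivity)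
  push Not at h1
  have hN0 : (0 : ℝ) < N := by linarith
  have hδW : δ ≤ W / (8 * N) := by
    rw [le_div_iff₀ (by positivity)]
    exact h1.le
  have hbern : (7 / 8 : ℝ) ≤ (1 - 1 / (8 * N)) ^ N := by
    have h3 : (-2 : ℝ) ≤ -(1 / (8 * N)) := by
      have : 1 / (8 * (N : ℝ)) ≤ 1 := by
        rw [div_le_one (by positivity)]
        linarith
      linarith
    have h4 := one_add_mul_le_pow h3 N
    have h5 : 1 + (N : ℝ) * -(1 / (8 * N)) = 7 / 8 := by
      field_simp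
      norm_num
    rw [h5] at h4
    calc (7 / 8 : ℝ) ≤ (1 + -(1 / (8 * (N : ℝ)))) ^ N := h4
      _ = _ := by ring
  have h18 : (0 : ℝ) ≤ 1 - 1 / (8 * N) := by
    have : 1 / (8 * (N : ℝ)) ≤ 1 := by
      rw [div_le_one (by positivity)]
      linarith
    linarith
  by_cases h2 : β ≤ γ
  · -- case 2
    have hcge : (1 - 1 / (8 * N)) * W ≤ γ := by
      have h3 : (1 - 1 / (8 * (N : ℝ))) * W = W - W / (8 * N) := by ring
      have h4 : 0 ≤ W / (8 * N) := by positivity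
      rw [h3]
      rcases hWcases with h | h | h <;> linarith
    have hcN : 7 / 8 * W ^ N ≤ γ ^ N := by
      calc 7 / 8 * W ^ N ≤ (1 - 1 / (8 * N)) ^ N * W ^ N :=
            mul_le_mul_of_nonneg_right hbern (by positivity)
        _ = ((1 - 1 / (8 * N)) * W) ^ N := by rw [mul_pow]
        _ ≤ γ ^ N := pow_le_pow_left₀ (by positivity) hcge _
    have hD : D ≤ W ^ N / 8 := by
      calc D ≤ N * W ^ (N - 1) * δ := hdiff
        _ ≤ N * W ^ (N - 1) * (W / (8 * N)) := mul_le_mul_of_nonneg_left hδW (by positivity)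
        _ = W ^ (N - 1 + 1) / 8 := by
            rw [pow_succ]
            field_simp
        _ = W ^ N / 8 := by
            congr 2
            omega
    have hWA : W ^ N ≤ 4 * W' := by linarith
    refine fin2 4 (by norm_num) h4N ?_
    calc W ^ (N * G) * x ^ N ≤ W ^ (N * G) * 1 := mul_le_mul_of_nonneg_left hxN1 (by positivity)
      _ = (W ^ N) ^ G := by rw [mul_one, pow_mul]
      _ ≤ (4 * W') ^ G := pow_le_pow_left₀ (by positivity) hWA _
      _ = _ := mul_pow _ _ _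
  push Not at h2
  have hbge : (1 - 1 / (8 * N)) * W ≤ β := by
    have h3 : (1 - 1 / (8 * (N : ℝ))) * W = W - W / (8 * N) := by ring
    have h4 : 0 ≤ W / (8 * N) := by positivity
    rw [h3]
    rcases hWcases with h | h | h <;> linarith
  have hWb : W ≤ 2 * β := by
    have h3 : (1 / 2 : ℝ) ≤ 1 - 1 / (8 * N) := by
      have : 1 / (8 * (N : ℝ)) ≤ 1 / 2 := by
        rw [div_le_div_iff₀ (by positivity) (by norm_num)]
        linarith
      linarith
    nlinarith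
  have hδb : δ ≤ β / (4 * N) := by
    calc δ ≤ W / (8 * N) := hδW
      _ ≤ (2 * β) / (8 * N) := div_le_div_of_nonneg_right hWb (by positivity)
      _ = β / (4 * N) := by ring
  have hδb4 : δ ≤ β / 4 := by
    refine hδb.trans ?_
    rw [div_le_div_iff₀ (by positivity) (by norm_num)]
    nlinarith
  have hcr := hQ hδb4 h2.le
  obtain ⟨he1, he2⟩ := hest hδb
  have hβ1 : β ≤ 1 := hbW.trans hW
  rcases eq_or_lt_of_le hb0 with hβ0 | hβpos
  · have hW00 : W = 0 := by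
      have : W ≤ 0 := by rw [← hβ0] at hWb; linarith
      exact le_antisymm this hW0
    rw [hW00, zero_pow hNG0, zero_mul]
    positivity
  by_cases h3 : γ ^ N * β ≤ 2 / 5 * (N * δ * β ^ N)
  · -- case 3i
    have h4 : 9 / 20 * (N * δ * β ^ N) ≤ A * β := by
      have h5 : (D - γ ^ N) * β ≤ A * β := mul_le_mul_of_nonneg_right htri2 hb0
      have h6 : (D - γ ^ N) * β = D * β - γ ^ N * β := by ring
      rw [h6] at h5
      linarith
    have h5 : x * β ^ N ≤ W' := by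
      have h6 : A * β ≤ 3 * W' := by
        calc A * β ≤ A * 1 := mul_le_mul_of_nonneg_left hβ1 hA0
          _ ≤ 3 * W' := by linarith
      have h7 : 3 * (x * β ^ N) ≤ 9 / 20 * (N * δ * β ^ N) := by
        have h8 : 0 ≤ δ * β ^ N := by positivity
        rw [hxdef]
        nlinarith
      linarith
    have h6 : W ^ N * x ≤ 2 ^ N * W' := by
      calc W ^ N * x ≤ (2 * β) ^ N * x :=
            mul_le_mul_of_nonneg_right (pow_le_pow_left₀ hW0 hWb _) hx0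
        _ = 2 ^ N * (x * β ^ N) := by rw [mul_pow]; ring
        _ ≤ _ := mul_le_mul_of_nonneg_left h5 (by positivity)
    refine fin2 (2 ^ N) (by positivity) h2N ?_
    calc W ^ (N * G) * x ^ N ≤ W ^ (N * G) * x ^ G :=
          mul_le_mul_of_nonneg_left (pow_le_pow_of_le_one hx0 hx1 hGN) (by positivity)
      _ = (W ^ N * x) ^ G := by rw [mul_pow, ← pow_mul]
      _ ≤ (2 ^ N * W') ^ G := pow_le_pow_left₀ (by positivity) h6 _
      _ = _ := mul_pow _ _ _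
  · -- case 3ii
    push Not at h3
    have h4 : γ ^ N ≤ β ^ (rho * N) := by
      rw [pow_mul]
      exact pow_le_pow_left₀ hc0 hcr _
    have h5 : x * β ^ N ≤ β ^ (rho * N + 1) := by
      have h6 : 2 / 5 * (N * δ * β ^ N) ≤ β ^ (rho * N + 1) := by
        rw [pow_succ]
        exact h3.le.trans (mul_le_mul_of_nonneg_right h4 hb0)
      have h7 : x * β ^ N ≤ 2 / 5 * (N * δ * β ^ N) := by
        have h8 : 0 ≤ δ * β ^ N := by positivity
        rw [hxdef]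
        nlinarith
      linarith
    have h6 : x ≤ β ^ (N * (rho - 1) + 1) := by
      have h7 : rho * N + 1 = (N * (rho - 1) + 1) + N := by
        obtain ⟨k, rfl⟩ : ∃ k, rho = k + 1 := ⟨rho - 1, by omega⟩
        have : k + 1 - 1 = k := by omega
        rw [this]
        ring
      rw [h7, pow_add] at h5
      exact le_of_mul_le_mul_right h5 (by positivity)
    have h7 : x ^ N ≤ β ^ (N * (G * (lam - 1))) := by
      calc x ^ N ≤ (β ^ (N * (rho - 1) + 1)) ^ N := pow_le_pow_left₀ hx0 h6 _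
        _ = β ^ (N * (N * (rho - 1) + 1)) := by rw [← pow_mul, mul_comm]
        _ ≤ β ^ (N * (G * (lam - 1))) :=
            pow_le_pow_of_le_one hb0 hβ1 (Nat.mul_le_mul_left N hl)
    refine fin2 (2 ^ N) (by positivity) h2N ?_
    calc W ^ (N * G) * x ^ N ≤ (2 * β) ^ (N * G) * β ^ (N * (G * (lam - 1))) :=
          mul_le_mul (pow_le_pow_left₀ hW0 hWb _) h7 (by positivity) (by positivity)
      _ = (2 ^ N) ^ G * (β ^ (N * lam)) ^ G := by
          rw [mul_pow, ← pow_mul, ← pow_mul, mul_assoc, ← pow_add]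
          congr 2
          obtain ⟨k, rfl⟩ : ∃ k, lam = k + 1 := ⟨lam - 1, by omega⟩
          have : k + 1 - 1 = k := by omega
          rw [this]
          ring
      _ ≤ _ := mul_le_mul_of_nonneg_left (pow_le_pow_left₀ (by positivity) hC' _) (by positivity)

end Pool.Agent.Bl169
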