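import Pool.Agent.Bl169.CurveGe
set_option autoImplicit false
open Set Filter Topology Metric MeasureTheory
namespace Pool.Agent.Bl169



theorem coord_sq_aux (z0 z1 z2 : ℂ) (t θ : ℝ) :
    ‖z0 + ((t : ℂ) * Complex.exp ((θ : ℂ) * Complex.I)) * z1 +
        ((t : ℂ) * Complex.exp ((θ : ℂ) * Complex.I)) ^ 2 * z2‖ ^ 2 =
      (‖z0‖ ^ 2 + t ^ 2 * ‖z1‖ ^ 2 + t ^ 4 * ‖z2‖ ^ 2) +
      (2 * (t * (z0.re * z1.re + z0.im * z1.im) + t ^ 3 * (z1.re * z2.re + z1.im * z2.im)) * Real.cos θ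
       + (-2) * (t * (z0.re * z1.im - z0.im * z1.re) + t ^ 3 * (z1.re * z2.im - z1.im * z2.re)) * Real.sin θ
       + 2 * (t ^ 2 * (z0.re * z2.re + z0.im * z2.im)) * Real.cos (2 * θ)
       + (-2) * (t ^ 2 * (z0.re * z2.im - z0.im * z2.re)) * Real.sin (2 * θ)) := by
  rw [Real.cos_two_mul, Real.sin_two_mul]
  have hexp : Complex.exp ((θ : ℂ) * Complex.I) = ⟨Real.cos θ, Real.sin θ⟩ := by
    rw [Complex.exp_mul_I]
    apply Complex.ext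
    · simp [← Complex.ofReal_cos, ← Complex.ofReal_sin]
    · simp [← Complex.ofReal_cos, ← Complex.ofReal_sin]
  rw [hexp]
  rw [← Complex.normSq_eq_norm_sq, ← Complex.normSq_eq_norm_sq, ← Complex.normSq_eq_norm_sq,
    ← Complex.normSq_eq_norm_sq]
  simp only [Complex.normSq_apply, Complex.add_re, Complex.add_im, Complex.mul_re, Complex.mul_im,
    Complex.ofReal_re, Complex.ofReal_im, pow_two]
  have hcs := Real.sin_sq_add_cos_sq θ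
  set c := Real.cos θ
  set s := Real.sin θ
  obtain ⟨a0, b0⟩ := z0
  obtain ⟨a1, b1⟩ := z1
  obtain ⟨a2, b2⟩ := z2
  simp only
  have hs : s ^ 2 = 1 - c ^ 2 := by linarith
  have hs3 : s ^ 3 = s * (1 - c ^ 2) := by rw [pow_succ, hs]; ring
  have hs4 : s ^ 4 = (1 - c ^ 2) ^ 2 := by rw [show s ^ 4 = (s ^ 2) ^ 2 by ring, hs]
  ring_nf
  simp only [hs, hs3, hs4]
  ring

theorem trig_int_aux (K a b c d : ℝ) :
    ∫ θ in (0:ℝ)..(2 * Real.pi), (K + (a * Real.cos θ + b * Real.sin θ + c * Real.cos (2 * θ)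
      + d * Real.sin (2 * θ))) = 2 * Real.pi * K := by
  have hF : ∀ θ ∈ Set.uIcc (0:ℝ) (2 * Real.pi), HasDerivAt (fun x : ℝ => K * x + (a * Real.sin x
      + b * (-Real.cos x) + c * (Real.sin (2 * x) / 2) + d * (-(Real.cos (2 * x)) / 2)))
      (K + (a * Real.cos θ + b * Real.sin θ + c * Real.cos (2 * θ) + d * Real.sin (2 * θ))) θ := by
    intro θ _
    have h1 : HasDerivAt (fun x : ℝ => K * x) K θ := by
      simpa using (hasDerivAt_id θ).const_mul K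
    have h2 := (Real.hasDerivAt_sin θ).const_mul a
    have h3 : HasDerivAt (fun x : ℝ => b * (-Real.cos x)) (b * Real.sin θ) θ := by
      have := ((Real.hasDerivAt_cos θ).fun_neg).const_mul b
      simpa using this
    have h2x : HasDerivAt (fun x : ℝ => 2 * x) 2 θ := by
      simpa using (hasDerivAt_id θ).const_mul (2:ℝ)
    have h4 : HasDerivAt (fun x : ℝ => c * (Real.sin (2 * x) / 2)) (c * Real.cos (2 * θ)) θ := by
      have := (((Real.hasDerivAt_sin (2 * θ)).comp θ h2x).div_const 2).const_mul c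
      have e : c * (Real.cos (2 * θ) * 2 / 2) = c * Real.cos (2 * θ) := by ring
      rw [e] at this
      exact this
    have h5 : HasDerivAt (fun x : ℝ => d * (-(Real.cos (2 * x)) / 2)) (d * Real.sin (2 * θ)) θ := by
      have := ((((Real.hasDerivAt_cos (2 * θ)).comp θ h2x).fun_neg).div_const 2).const_mul d
      have e : d * (-(-Real.sin (2 * θ) * 2) / 2) = d * Real.sin (2 * θ) := by ring
      rw [e] at this
      exact this
    exact h1.add (((h2.add h3).add h4).add h5)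
  rw [intervalIntegral.integral_eq_sub_of_hasDerivAt hF]
  · have e1 : Real.sin (2 * (2 * Real.pi)) = 0 := by
      have := Real.sin_nat_mul_pi 4
      rw [← this]; congr 1; push_cast; ring
    have e2 : Real.cos (2 * (2 * Real.pi)) = 1 := by
      have := Real.cos_nat_mul_two_pi 2
      rw [← this]; congr 1
    simp [e1, e2]
    ring
  · apply Continuous.intervalIntegrable
    fun_prop

theorem curve_mean_sq (p b b' : E) (t : ℝ) :
    (2 * Real.pi)⁻¹ * ∫ θ in (0:ℝ)..(2 * Real.pi),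
        (‖(p + ((t : ℂ) * Complex.exp ((θ : ℂ) * Complex.I)) • b +
          ((t : ℂ) * Complex.exp ((θ : ℂ) * Complex.I)) ^ 2 • b') 0‖ ^ 2 +
        ‖(p + ((t : ℂ) * Complex.exp ((θ : ℂ) * Complex.I)) • b +
          ((t : ℂ) * Complex.exp ((θ : ℂ) * Complex.I)) ^ 2 • b') 1‖ ^ 2) =
      (‖p 0‖ ^ 2 + ‖p 1‖ ^ 2) + t ^ 2 * (‖b 0‖ ^ 2 + ‖b 1‖ ^ 2) +
        t ^ 4 * (‖b' 0‖ ^ 2 + ‖b' 1‖ ^ 2) := by
  have h : ∀ θ : ℝ, (‖(p + ((t : ℂ) * Complex.exp ((θ : ℂ) * Complex.I)) • b +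
          ((t : ℂ) * Complex.exp ((θ : ℂ) * Complex.I)) ^ 2 • b') 0‖ ^ 2 +
        ‖(p + ((t : ℂ) * Complex.exp ((θ : ℂ) * Complex.I)) • b +
          ((t : ℂ) * Complex.exp ((θ : ℂ) * Complex.I)) ^ 2 • b') 1‖ ^ 2) = 
      ‖p 0 + ((t : ℂ) * Complex.exp ((θ : ℂ) * Complex.I)) * b 0 +
          ((t : ℂ) * Complex.exp ((θ : ℂ) * Complex.I)) ^ 2 * b' 0‖ ^ 2 +
      ‖p 1 + ((t : ℂ) * Complex.exp ((θ : ℂ) * Complex.I)) * b 1 +
          ((t : ℂ) * Complex.exp ((θ : ℂ) * Complex.I)) ^ 2 * b' 1‖ ^ 2 := fun θ => rfl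
  simp_rw [h, coord_sq_aux]
  have hpi : (2 * Real.pi) ≠ 0 := by positivity
  rw [intervalIntegral.integral_add, trig_int_aux, trig_int_aux]
  · field_simp
    ring
  · apply Continuous.intervalIntegrable
    fun_prop
  · apply Continuous.intervalIntegrable
    fun_prop

/-- TARGET -/
theorem no_touch (g : E → ℝ) (hg : ContDiff ℝ 2 g) (p : E)
    (hp : ∃ r > 0, ∀ b : E, ‖b‖ ≤ r → g p ≤ cm g p b) (η : ℝ) (hη : 0 < η) (w : E → ℝ)
    (hwc : ∀ᶠ x in 𝓝 p, ContinuousAt w x)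
    (hmax : ∀ᶠ x in 𝓝 p, g x + η * (‖x 0‖ ^ 2 + ‖x 1‖ ^ 2) - w x ≤
        g p + η * (‖p 0‖ ^ 2 + ‖p 1‖ ^ 2) - w p)
    (b b' : E) (hb : b ≠ 0) (C : ℝ)
    (hcurve : ∀ᶠ t : ℝ in 𝓝[>] (0:ℝ), (2 * Real.pi)⁻¹ * ∫ θ in (0:ℝ)..(2 * Real.pi),
        w (p + ((t : ℂ) * Complex.exp ((θ : ℂ) * Complex.I)) • b +
          ((t : ℂ) * Complex.exp ((θ : ℂ) * Complex.I)) ^ 2 • b') ≤ w p + C * t ^ 3) : False := by
  obtain ⟨C1, hC1⟩ := curve_mean_ge g hg p b b' hp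
  obtain ⟨δ, hδ, hball⟩ := Metric.eventually_nhds_iff_ball.1 (hwc.and hmax)
  have hnb : 0 < ‖b 0‖ ^ 2 + ‖b 1‖ ^ 2 := by
    by_contra hcon
    apply hb
    have h0 : ‖b 0‖ ^ 2 = 0 := by nlinarith [sq_nonneg ‖b 0‖, sq_nonneg ‖b 1‖]
    have h1 : ‖b 1‖ ^ 2 = 0 := by nlinarith [sq_nonneg ‖b 0‖, sq_nonneg ‖b 1‖]
    ext i
    fin_cases i
    · simpa using h0
    · simpa using h1
  -- smallness
  have hsmall : ∀ᶠ t : ℝ in 𝓝[>] (0:ℝ), t * ‖b‖ + t ^ 2 * ‖b'‖ < δ := by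
    have hc : Continuous fun t : ℝ => t * ‖b‖ + t ^ 2 * ‖b'‖ := by fun_prop
    have := hc.tendsto 0
    simp only [zero_mul, ne_eq, OfNat.ofNat_ne_zero, not_false_eq_true, zero_pow, add_zero] at this
    exact (this.mono_left nhdsWithin_le_nhds).eventually (gt_mem_nhds hδ)
  have hsmall2 : ∀ᶠ t : ℝ in 𝓝[>] (0:ℝ), (C1 + C) * t < η * (‖b 0‖ ^ 2 + ‖b 1‖ ^ 2) := by
    have hc : Continuous fun t : ℝ => (C1 + C) * t := by fun_prop
    have := hc.tendsto 0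
    simp only [mul_zero] at this
    exact (this.mono_left nhdsWithin_le_nhds).eventually (gt_mem_nhds (by positivity))
  obtain ⟨t, ⟨⟨⟨h1, h2⟩, h3⟩, h4⟩, ht⟩ :=
    ((((hC1.and hcurve).and hsmall).and hsmall2).and self_mem_nhdsWithin).exists
  have ht : 0 < t := ht
  set γ : ℝ → E := fun θ => p + ((t : ℂ) * Complex.exp ((θ : ℂ) * Complex.I)) • b +
          ((t : ℂ) * Complex.exp ((θ : ℂ) * Complex.I)) ^ 2 • b' with hγ
  have hγc : Continuous γ := by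
    rw [hγ]; fun_prop
  have hγb : ∀ θ, γ θ ∈ ball p δ := by
    intro θ
    rw [mem_ball, dist_eq_norm]
    have e : γ θ - p = ((t : ℂ) * Complex.exp ((θ : ℂ) * Complex.I)) • b +
          ((t : ℂ) * Complex.exp ((θ : ℂ) * Complex.I)) ^ 2 • b' := by
      simp only [hγ]; abel
    rw [e]
    have hn : ‖(t : ℂ) * Complex.exp ((θ : ℂ) * Complex.I)‖ = t := by
      rw [norm_mul, Complex.norm_exp_ofReal_mul_I, mul_one, Complex.norm_real, Real.norm_eq_abs,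
        abs_of_pos ht]
    calc _ ≤ ‖((t : ℂ) * Complex.exp ((θ : ℂ) * Complex.I)) • b‖ +
          ‖((t : ℂ) * Complex.exp ((θ : ℂ) * Complex.I)) ^ 2 • b'‖ := norm_add_le _ _
      _ = t * ‖b‖ + t ^ 2 * ‖b'‖ := by rw [norm_smul, norm_smul, norm_pow, hn]
      _ < δ := h3
  have hwγ : Continuous fun θ => w (γ θ) := by
    rw [continuous_iff_continuousAt]
    intro θ
    exact ContinuousAt.comp (hball _ (hγb θ)).1 hγc.continuousAt
  have hgγ : Continuous fun θ => g (γ θ) := hg.continuous.comp hγc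
  have hq : Continuous fun θ => (‖(γ θ) 0‖ ^ 2 + ‖(γ θ) 1‖ ^ 2) := by
    have h0 : Continuous fun θ => (γ θ) 0 := (continuous_apply 0).comp hγc
    have h1 : Continuous fun θ => (γ θ) 1 := (continuous_apply 1).comp hγc
    fun_prop
  have hpi : (0:ℝ) < 2 * Real.pi := by positivity
  have hint : ∫ θ in (0:ℝ)..(2 * Real.pi), (g (γ θ) + η * (‖(γ θ) 0‖ ^ 2 + ‖(γ θ) 1‖ ^ 2) - w (γ θ))
      ≤ ∫ θ in (0:ℝ)..(2 * Real.pi), (g p + η * (‖p 0‖ ^ 2 + ‖p 1‖ ^ 2) - w p) := by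
    apply intervalIntegral.integral_mono_on hpi.le
    · exact (((hgγ.add (hq.const_mul η)).sub hwγ)).intervalIntegrable _ _
    · exact continuous_const.intervalIntegrable _ _
    · intro θ _
      exact (hball _ (hγb θ)).2
  have hgq : Continuous fun θ => g (γ θ) + η * (‖(γ θ) 0‖ ^ 2 + ‖(γ θ) 1‖ ^ 2) :=
    hgγ.add (continuous_const.mul hq)
  have hqq : Continuous fun θ => η * (‖(γ θ) 0‖ ^ 2 + ‖(γ θ) 1‖ ^ 2) := continuous_const.mul hq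
  rw [intervalIntegral.integral_sub (hgq.intervalIntegrable _ _)
    (hwγ.intervalIntegrable _ _), intervalIntegral.integral_add (hgγ.intervalIntegrable _ _)
    (hqq.intervalIntegrable _ _), intervalIntegral.integral_const_mul,
    intervalIntegral.integral_const] at hint
  have hsq := curve_mean_sq p b b' t
  change (2 * Real.pi)⁻¹ * ∫ θ in (0:ℝ)..(2 * Real.pi), (‖(γ θ) 0‖ ^ 2 + ‖(γ θ) 1‖ ^ 2) = _ at hsq
  change g p - C1 * t ^ 3 ≤ (2 * Real.pi)⁻¹ * ∫ θ in (0:ℝ)..(2 * Real.pi), g (γ θ) at h1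
  change (2 * Real.pi)⁻¹ * ∫ θ in (0:ℝ)..(2 * Real.pi), w (γ θ) ≤ w p + C * t ^ 3 at h2
  have hint2 := mul_le_mul_of_nonneg_left hint (inv_nonneg.2 hpi.le)
  rw [sub_zero, smul_eq_mul, ← mul_assoc, inv_mul_cancel₀ hpi.ne', one_mul] at hint2
  have e3 : (2 * Real.pi)⁻¹ * (((∫ θ in (0:ℝ)..(2 * Real.pi), g (γ θ)) +
      η * ∫ θ in (0:ℝ)..(2 * Real.pi), (‖(γ θ) 0‖ ^ 2 + ‖(γ θ) 1‖ ^ 2)) -
      ∫ θ in (0:ℝ)..(2 * Real.pi), w (γ θ)) =
      ((2 * Real.pi)⁻¹ * ∫ θ in (0:ℝ)..(2 * Real.pi), g (γ θ)) +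
      η * ((2 * Real.pi)⁻¹ * ∫ θ in (0:ℝ)..(2 * Real.pi), (‖(γ θ) 0‖ ^ 2 + ‖(γ θ) 1‖ ^ 2)) -
      ((2 * Real.pi)⁻¹ * ∫ θ in (0:ℝ)..(2 * Real.pi), w (γ θ)) := by ring
  rw [e3, hsq] at hint2
  have hk : η * (t ^ 2 * (‖b 0‖ ^ 2 + ‖b 1‖ ^ 2)) + η * (t ^ 4 * (‖b' 0‖ ^ 2 + ‖b' 1‖ ^ 2))
      ≤ (C1 + C) * t ^ 3 := by nlinarith
  have hk2 : 0 ≤ η * (t ^ 4 * (‖b' 0‖ ^ 2 + ‖b' 1‖ ^ 2)) := by positivity
  have hk3 : η * (t ^ 2 * (‖b 0‖ ^ 2 + ‖b 1‖ ^ 2)) ≤ (C1 + C) * t ^ 3 := by linarith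
  have hk4 : t ^ 2 * (η * (‖b 0‖ ^ 2 + ‖b 1‖ ^ 2)) ≤ t ^ 2 * ((C1 + C) * t) := by
    calc _ = η * (t ^ 2 * (‖b 0‖ ^ 2 + ‖b 1‖ ^ 2)) := by ring
      _ ≤ (C1 + C) * t ^ 3 := hk3
      _ = _ := by ring
  have hk5 := le_of_mul_le_mul_left hk4 (by positivity)
  linarith

end Pool.Agent.Bl169
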