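import Pool.Agent.Bl169.PowSub
set_option autoImplicit false
namespace Pool.Agent.Bl169


theorem Q_step (N lam rho : ℕ) (hN : 16 ≤ N) (hlam : 1 ≤ lam) (hrho : 1 ≤ rho)
    (hl : 2 * lam ≤ N * (rho - 1) + 1) (a b c : ℂ) (hb : ‖b‖ ≤ 1 / (8 * N))
    (hQ : ‖a - b‖ ≤ ‖b‖ / 4 → ‖c‖ ≤ ‖b‖ → ‖c‖ ≤ ‖b‖ ^ rho)
    (h1 : ‖(a ^ N - b ^ N - c ^ N) / 3 - ((a - b) / 2) ^ N‖ ≤ ‖((a - b) / 2) ^ N‖ / 4)
    (h2 : ‖b ^ (N * (2 * lam))‖ ≤ ‖((a - b) / 2) ^ N‖) :
    ‖b ^ (N * (2 * lam))‖ ≤ ‖((a - b) / 2) ^ N‖ ^ lam := by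
  have hNR : (16 : ℝ) ≤ (N : ℝ) := by exact_mod_cast hN
  have hNpos : (0 : ℝ) < (N : ℝ) := by linarith
  have hNne : N ≠ 0 := by omega
  have hβ0 : 0 ≤ ‖b‖ := norm_nonneg b
  have hD0 : 0 ≤ ‖a - b‖ := norm_nonneg _
  have hB : ‖((a - b) / 2) ^ N‖ = (‖a - b‖ / 2) ^ N := by
    rw [norm_pow, norm_div]; norm_num
  have hb1 : ‖b‖ ≤ 1 := by
    refine hb.trans ?_
    rw [div_le_one (by positivity)]
    linarith
  rw [hB] at h1 h2 ⊢
  rw [norm_pow] at h2 ⊢
  have key : ‖b‖ ^ 2 ≤ ‖a - b‖ / 2 → ‖b‖ ^ (N * (2 * lam)) ≤ ((‖a - b‖ / 2) ^ N) ^ lam := by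
    intro h
    have e1 : ‖b‖ ^ (N * (2 * lam)) = (‖b‖ ^ 2) ^ (N * lam) := by
      rw [← pow_mul]; congr 1; ring
    rw [e1, ← pow_mul (‖a - b‖ / 2)]
    exact pow_le_pow_left₀ (by positivity) h _
  apply key
  by_cases hc : ‖b‖ / (4 * N) ≤ ‖a - b‖
  · have : ‖b‖ ^ 2 ≤ ‖b‖ / (8 * N) := by
      rw [sq]
      calc ‖b‖ * ‖b‖ ≤ ‖b‖ * (1 / (8 * N)) := mul_le_mul_of_nonneg_left hb hβ0
        _ = ‖b‖ / (8 * N) := by ring
    calc ‖b‖ ^ 2 ≤ ‖b‖ / (8 * N) := this
      _ = (‖b‖ / (4 * N)) / 2 := by field_simp; ring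
      _ ≤ ‖a - b‖ / 2 := by linarith
  · exfalso
    push Not at hc
    have hβpos : 0 < ‖b‖ := by
      rcases hβ0.lt_or_eq with h | h
      · exact h
      · rw [← h] at hc; simp at hc; linarith
    obtain ⟨X1, X2⟩ := pow_sub_est N (by omega) a b hc.le
    set X := ‖a ^ N - b ^ N‖ with hX
    set β := ‖b‖ with hβ
    set D := ‖a - b‖ with hD
    set P := β ^ (N - 1) with hP
    have hPpos : 0 < P := by positivity
    have hPN : β ^ N = P * β := by
      rw [hP, ← pow_succ]; congr 1; omega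
    rw [hPN] at X1 X2
    have X1' : 17 / 20 * (N * D * P) ≤ X := by
      have : (17 / 20 * (N * D * P)) * β ≤ X * β := by linarith
      exact le_of_mul_le_mul_right this hβpos
    have X2' : X ≤ 23 / 20 * (N * D * P) := by
      have : X * β ≤ (23 / 20 * (N * D * P)) * β := by linarith
      exact le_of_mul_le_mul_right this hβpos
    -- smallness of B
    have hD2 : D / 2 ≤ β / 128 := by
      have : β / (4 * N) ≤ β / 64 := by
        apply div_le_div_of_nonneg_left hβ0 (by norm_num) (by linarith)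
      linarith
    have hsmall : (D / 2) ^ N ≤ D * P / 256 := by
      have e : (D / 2) ^ N = (D / 2) ^ (N - 1) * (D / 2) := by
        rw [← pow_succ]; congr 1; omega
      have e2 : (D / 2) ^ (N - 1) ≤ (β / 128) ^ (N - 1) := pow_le_pow_left₀ (by positivity) hD2 _
      have e3 : (β / 128) ^ (N - 1) = P * (1 / 128) ^ (N - 1) := by
        rw [hP, ← mul_pow]; congr 1; ring
      have e4 : ((1 : ℝ) / 128) ^ (N - 1) ≤ 1 / 128 := by
        calc ((1 : ℝ) / 128) ^ (N - 1) ≤ (1 / 128) ^ 1 :=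
              pow_le_pow_of_le_one (by norm_num) (by norm_num) (by omega)
          _ = 1 / 128 := by norm_num
      rw [e]
      have e5 : (D / 2) ^ (N - 1) ≤ P * (1 / 128) := by
        calc (D / 2) ^ (N - 1) ≤ P * (1 / 128) ^ (N - 1) := by rw [← e3]; exact e2
          _ ≤ P * (1 / 128) := mul_le_mul_of_nonneg_left e4 hPpos.le
      calc (D / 2) ^ (N - 1) * (D / 2) ≤ (P * (1 / 128)) * (D / 2) :=
            mul_le_mul_of_nonneg_right e5 (by positivity)
        _ = D * P / 256 := by ring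
    have hDP : 0 ≤ D * P := by positivity
    have hNDP : 16 * (D * P) ≤ N * D * P := by
      rw [mul_assoc]; exact mul_le_mul_of_nonneg_right hNR hDP
    -- bound of a^N - b^N - c^N
    have hY : ‖a ^ N - b ^ N - c ^ N‖ ≤ 15 / 4 * (D / 2) ^ N := by
      have t1 : ‖(a ^ N - b ^ N - c ^ N) / 3‖ ≤
          ‖(a ^ N - b ^ N - c ^ N) / 3 - ((a - b) / 2) ^ N‖ + ‖((a - b) / 2) ^ N‖ := by
        have := norm_add_le ((a ^ N - b ^ N - c ^ N) / 3 - ((a - b) / 2) ^ N) (((a - b) / 2) ^ N)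
        simpa using this
      rw [hB] at t1
      have t2 : ‖(a ^ N - b ^ N - c ^ N) / 3‖ = ‖a ^ N - b ^ N - c ^ N‖ / 3 := by
        rw [norm_div]; norm_num
      rw [t2] at t1
      linarith
    have hcN : ‖c ^ N‖ = ‖c‖ ^ N := norm_pow _ _
    have up : ‖c‖ ^ N ≤ X + 15 / 4 * (D / 2) ^ N := by
      have := norm_sub_norm_le (c ^ N) (a ^ N - b ^ N)
      have h' : ‖c ^ N - (a ^ N - b ^ N)‖ = ‖a ^ N - b ^ N - c ^ N‖ := by
        rw [← norm_neg]; congr 1; ring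
      rw [h', hcN] at this
      linarith
    have lo : X - 15 / 4 * (D / 2) ^ N ≤ ‖c‖ ^ N := by
      have := norm_sub_norm_le (a ^ N - b ^ N) (c ^ N)
      rw [hcN] at this
      linarith
    have up2 : ‖c‖ ^ N ≤ 6 / 5 * (N * D * P) := by linarith
    have lo2 : 4 / 5 * (N * D * P) ≤ ‖c‖ ^ N := by linarith
    have hND : N * D ≤ β / 4 := by
      have := hc.le
      rw [le_div_iff₀ (by positivity)] at this
      linarith
    have hcb : ‖c‖ ≤ β := by
      have : ‖c‖ ^ N ≤ β ^ N := by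
        rw [hPN]
        have h3 : N * D * P ≤ β / 4 * P := mul_le_mul_of_nonneg_right hND hPpos.le
        have h4 : 0 ≤ P * β := by positivity
        linarith
      exact (pow_le_pow_iff_left₀ (norm_nonneg _) hβ0 hNne).mp this
    have hDβ : D ≤ β / 4 := by
      have : D ≤ N * D := by nlinarith
      linarith
    have hcr : ‖c‖ ≤ β ^ rho := hQ hDβ hcb
    have hcrN : ‖c‖ ^ N ≤ β ^ (rho * N) := by
      rw [pow_mul]; exact pow_le_pow_left₀ (norm_nonneg _) hcr _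
    have hlow : β ^ (2 * lam) ≤ D / 2 := by
      have : (β ^ (2 * lam)) ^ N ≤ (D / 2) ^ N := by
        rw [← pow_mul, mul_comm (2 * lam) N]; exact h2
      exact (pow_le_pow_iff_left₀ (by positivity) (by positivity) hNne).mp this
    have hexp : 2 * lam + (N - 1) ≤ rho * N := by
      obtain ⟨r, rfl⟩ : ∃ r, rho = r + 1 := ⟨rho - 1, by omega⟩
      simp only [Nat.add_sub_cancel] at hl
      have : (r + 1) * N = N * r + N := by ring
      omega
    have hpw : β ^ (rho * N) ≤ β ^ (2 * lam) * P := by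
      rw [hP, ← pow_add]
      exact pow_le_pow_of_le_one hβ0 hb1 hexp
    have hfin : 4 / 5 * (N * D * P) ≤ β ^ (2 * lam) * P := lo2.trans (hcrN.trans hpw)
    have hfin2 : β ^ (2 * lam) * P ≤ D / 2 * P := mul_le_mul_of_nonneg_right hlow hPpos.le
    have hDpos : 0 < D := by
      have : 0 < β ^ (2 * lam) := by positivity
      linarith
    have hDPpos : 0 < D * P := by positivity
    linarith

end Pool.Agent.Bl169
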