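import Pool.Agent.Bl169.Kernel
import Pool.Agent.Bl169.Moll
set_option autoImplicit false
open Set Filter Topology Metric MeasureTheory
namespace Pool.Agent.Bl169




/-- truncated function -/
noncomputable def etGG (v : E → EReal) (L : Set E) (T : ℝ) : E → ℝ :=
  L.indicator fun x => (max (v x) ((-T : ℝ) : EReal)).toReal

theorem et_real {a : EReal} (ha : a ≠ ⊤) (T : ℝ) :
    ((max a ((-T : ℝ) : EReal)).toReal : EReal) = max a ((-T : ℝ) : EReal) := by
  apply EReal.coe_toReal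
  · intro h
    rcases max_eq_iff.1 h with ⟨h1, _⟩ | ⟨h1, _⟩
    · exact ha h1
    · exact EReal.coe_ne_top _ h1
  · intro h
    have h1 : ((-T : ℝ) : EReal) ≤ max a ((-T : ℝ) : EReal) := le_max_right _ _
    rw [h, le_bot_iff] at h1
    exact EReal.coe_ne_bot _ h1

theorem et_ge (v : E → EReal) (L : Set E) (T : ℝ) (x : E) (hx : x ∈ L) (ht : v x ≠ ⊤) :
    -T ≤ etGG v L T x := by
  unfold etGG
  rw [indicator_of_mem hx, ← EReal.coe_le_coe_iff, et_real ht]
  exact le_max_right _ _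

theorem et_le (v : E → EReal) (L : Set E) (T : ℝ) (x : E) (hx : x ∈ L) (ht : v x ≠ ⊤) (c : ℝ)
    (h1 : v x ≤ (c : EReal)) (h2 : -T ≤ c) : etGG v L T x ≤ c := by
  unfold etGG
  rw [indicator_of_mem hx, ← EReal.coe_le_coe_iff, et_real ht]
  exact max_le h1 (by exact_mod_cast h2)

theorem et_meas (U : Set E) (v : E → EReal) (hv : FPsh U v) (L : Set E) (hL : IsCompact L)
    (hLU : L ⊆ U) (T : ℝ) : Measurable (etGG v L T) := by
  unfold etGG
  refine measurable_of_Ici fun c => ?_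
  have h1 : (L.indicator fun x => (max (v x) ((-T : ℝ) : EReal)).toReal) ⁻¹' Ici c =
      (L ∩ v ⁻¹' Ici (c : EReal)) ∪ (L ∩ {_x : E | c ≤ -T}) ∪ (Lᶜ ∩ {_x : E | c ≤ 0}) := by
    ext x
    by_cases hx : x ∈ L
    · have ht : v x ≠ ⊤ := hv.2.1 x (hLU hx)
      simp only [mem_preimage, indicator_of_mem hx, mem_Ici, mem_union, mem_inter_iff, hx, true_and,
        mem_setOf_eq, mem_compl_iff, not_true_eq_false, false_and, or_false]
      rw [← EReal.coe_le_coe_iff, et_real ht, le_max_iff, EReal.coe_le_coe_iff]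
    · simp [hx]
  rw [h1]
  have husc : UpperSemicontinuousOn v L := hv.1.mono hLU
  obtain ⟨w, hw1, hw2⟩ := upperSemicontinuousOn_iff_preimage_Ici.1 husc (c : EReal)
  rw [hw2]
  refine ((hL.measurableSet.inter hw1.measurableSet).union
    (hL.measurableSet.inter (MeasurableSet.const _))).union
    (hL.measurableSet.compl.inter (MeasurableSet.const _))

theorem et_bdd (U : Set E) (v : E → EReal) (hv : FPsh U v) (L : Set E) (hL : IsCompact L)
    (hLU : L ⊆ U) (T : ℝ) : ∃ C : ℝ, ∀ x, |etGG v L T x| ≤ C := by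
  rcases L.eq_empty_or_nonempty with rfl | hne
  · exact ⟨0, fun x => by simp [etGG]⟩
  have husc : UpperSemicontinuousOn v L := hv.1.mono hLU
  obtain ⟨x2, hx2, hmax⟩ := husc.exists_isMaxOn hne hL
  obtain ⟨A, hA⟩ : ∃ A : ℝ, v x2 ≤ (A : EReal) := by
    have h := hv.2.1 x2 (hLU hx2)
    refine ⟨(v x2).toReal, EReal.le_coe_toReal h⟩
  refine ⟨max |A| |T|, fun x => ?_⟩
  by_cases hx : x ∈ L
  · have ht : v x ≠ ⊤ := hv.2.1 x (hLU hx)
    have h1 := et_ge v L T x hx ht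
    have h2 := et_le v L T x hx ht (max A (-T)) (by
      have h3 : v x ≤ v x2 := hmax hx
      refine h3.trans (hA.trans ?_)
      exact_mod_cast le_max_left _ _) (le_max_right _ _)
    rw [abs_le]
    constructor
    · have := le_max_right |A| |T|
      have := le_abs_self T
      linarith
    · refine h2.trans (max_le ?_ ?_)
      · exact (le_abs_self A).trans (le_max_left _ _)
      · exact (neg_le_abs T).trans (le_max_right _ _)
  · unfold etGG
    rw [indicator_of_notMem hx, abs_zero]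
    exact (abs_nonneg A).trans (le_max_left _ _)

theorem et_disc (U : Set E) (v : E → EReal) (hv : FPsh U v) (L : Set E) (hL : IsCompact L)
    (hLU : L ⊆ U) (T : ℝ) (a b : E) (h : ∀ z : ℂ, ‖z‖ ≤ 1 → a + z • b ∈ L) :
    etGG v L T a ≤ cm (etGG v L T) a b := by
  have ha : a ∈ L := by simpa using h 0 (by simp)
  have hmeas := et_meas U v hv L hL hLU T
  obtain ⟨C, hC⟩ := et_bdd U v hv L hL hLU T
  have hmem : ∀ θ : ℝ, a + Complex.exp ((θ : ℂ) * Complex.I) • b ∈ L := fun θ =>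
    h _ (by rw [Complex.norm_exp_ofReal_mul_I])
  have hcont : Continuous fun θ : ℝ => a + Complex.exp ((θ : ℂ) * Complex.I) • b := by fun_prop
  have hint : IntervalIntegrable (fun θ : ℝ => etGG v L T (a + Complex.exp ((θ : ℂ) * Complex.I) • b))
      volume 0 (2 * Real.pi) := by
    rw [intervalIntegrable_iff]
    refine Measure.integrableOn_of_bounded (M := C)
      (by rw [uIoc_of_le (by positivity), Real.volume_Ioc]; exact ENNReal.ofReal_ne_top) ?_ ?_
    · exact (hmeas.comp hcont.measurable).aestronglyMeasurable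
    · exact Filter.Eventually.of_forall fun θ => by rw [Real.norm_eq_abs]; exact hC _
  have hcm : cm (etGG v L T) a b = (2 * Real.pi)⁻¹ * ∫ θ in (0:ℝ)..(2 * Real.pi),
      (max (v (a + Complex.exp ((θ : ℂ) * Complex.I) • b)) ((-T : ℝ) : EReal)).toReal := by
    unfold cm
    congr 1
    refine intervalIntegral.integral_congr fun θ _ => ?_
    show etGG v L T _ = _
    unfold etGG
    rw [indicator_of_mem (hmem θ)]
  have h1 := hv.2.2 a b (fun z hz => hLU (h z hz)) (-T)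
  rw [← hcm] at h1
  refine et_le v L T a ha (hv.2.1 a (hLU ha)) _ h1 ?_
  have h2 : ∫ θ in (0:ℝ)..(2 * Real.pi), (-T : ℝ) ≤ ∫ θ in (0:ℝ)..(2 * Real.pi),
      etGG v L T (a + Complex.exp ((θ : ℂ) * Complex.I) • b) := by
    refine intervalIntegral.integral_mono_on (by positivity) (by simp) hint fun θ _ => ?_
    exact et_ge v L T _ (hmem θ) (hv.2.1 _ (hLU (hmem θ)))
  rw [intervalIntegral.integral_const, smul_eq_mul, sub_zero] at h2
  have h3 := mul_le_mul_of_nonneg_left h2 (show 0 ≤ (2 * Real.pi)⁻¹ by positivity)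
  rw [← mul_assoc, inv_mul_cancel₀ (by positivity), one_mul] at h3
  exact h3

/-- TARGET -/
theorem exists_touch (U : Set E) (hU : IsOpen U) (v : E → EReal) (hv : FPsh U v) (w : E → ℝ)
    (hw : ContinuousOn w U) (K : Set E) (hK : IsCompact K) (hKU : K ⊆ U)
    (hvw : ∀ x ∈ U \ K, v x ≤ ((w x : ℝ) : EReal)) (x₁ : E) (hx₁ : x₁ ∈ U)
    (hgt : ((w x₁ : ℝ) : EReal) < v x₁) :
    ∃ (g : E → ℝ) (η : ℝ) (p : E), 0 < η ∧ p ∈ U ∧ ContDiff ℝ 2 g ∧
      (∃ r > 0, ∀ b : E, ‖b‖ ≤ r → g p ≤ cm g p b) ∧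
      ∀ᶠ x in 𝓝 p, g x + η * (‖x 0‖ ^ 2 + ‖x 1‖ ^ 2) - w x ≤
        g p + η * (‖p 0‖ ^ 2 + ‖p 1‖ ^ 2) - w p := by
  have hx₁K : x₁ ∈ K := by
    by_contra h
    exact absurd (hvw x₁ ⟨hx₁, h⟩) (not_le.2 hgt)
  obtain ⟨ρ, hρ, hρU⟩ := hK.exists_cthickening_subset_open hU hKU
  set r : ℝ := ρ / 4 with hr
  have hr0 : 0 < r := by rw [hr]; linarith
  set L : Set E := cthickening (4 * r) K with hLdef
  have hLU : L ⊆ U := by rw [hLdef, hr, show 4 * (ρ / 4) = ρ by ring]; exact hρU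
  have hL : IsCompact L := hK.cthickening
  have hcth : ∀ s : ℝ, 0 ≤ s → ∀ x, x ∈ cthickening s K ↔ ∃ k ∈ K, ‖x - k‖ ≤ s := by
    intro s hs x
    rw [hK.cthickening_eq_biUnion_closedBall hs]
    simp [dist_eq_norm]
  have hLmem : ∀ x, x ∈ L ↔ ∃ k ∈ K, ‖x - k‖ ≤ 4 * r := hcth (4 * r) (by positivity)
  have hx₁L : x₁ ∈ L := (hLmem x₁).2 ⟨x₁, hx₁K, by simp; positivity⟩
  have hwL : ContinuousOn w L := hw.mono hLU
  obtain ⟨T, hT⟩ := hL.exists_bound_of_continuousOn hwL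
  have hTw : ∀ x ∈ L, -T ≤ w x := fun x hx => by
    have := hT x hx
    rw [Real.norm_eq_abs, abs_le] at this
    exact this.1
  have hvtop : ∀ x ∈ L, v x ≠ ⊤ := fun x hx => hv.2.1 x (hLU hx)
  -- the gap
  obtain ⟨V, hV⟩ : ∃ V : ℝ, v x₁ = (V : EReal) := by
    refine ⟨(v x₁).toReal, (EReal.coe_toReal (hvtop x₁ hx₁L) ?_).symm⟩
    intro h
    rw [h] at hgt
    exact not_lt_bot hgt
  have hwV : w x₁ < V := by rw [hV] at hgt; exact_mod_cast hgt
  set m : ℝ := V - w x₁ with hm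
  have hm0 : 0 < m := by rw [hm]; linarith
  set gg : E → ℝ := etGG v L T with hgg
  have hggx : V ≤ gg x₁ := by
    rw [hgg]
    unfold etGG
    rw [indicator_of_mem hx₁L, ← EReal.coe_le_coe_iff, et_real (hvtop x₁ hx₁L), ← hV]
    exact le_max_left _ _
  have hggw : ∀ x ∈ L, x ∉ K → gg x ≤ w x := by
    intro x hx hxK
    exact et_le v L T x hx (hvtop x hx) (w x) (hvw x ⟨hLU hx, hxK⟩) (hTw x hx)
  have hmeas : Measurable gg := et_meas U v hv L hL hLU T
  obtain ⟨C, hC⟩ := et_bdd U v hv L hL hLU T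
  have hdisc : ∀ a b : E, (∀ z : ℂ, ‖z‖ ≤ 1 → a + z • b ∈ L) → gg a ≤ cm gg a b :=
    fun a b h => et_disc U v hv L hL hLU T a b h
  -- eta
  have hqc : Continuous fun x : E => ‖x 0‖ ^ 2 + ‖x 1‖ ^ 2 := by fun_prop
  obtain ⟨B, hB⟩ := hL.exists_bound_of_continuousOn hqc.continuousOn
  have hB0 : 0 ≤ B := (norm_nonneg _).trans (hB x₁ hx₁L)
  set η : ℝ := m / (4 * (B + 1)) with hη
  have hη0 : 0 < η := by rw [hη]; positivity
  have hηB : ∀ x ∈ L, η * (‖x 0‖ ^ 2 + ‖x 1‖ ^ 2) ≤ m / 4 := by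
    intro x hx
    have h1 := hB x hx
    rw [Real.norm_eq_abs] at h1
    have h2 := (le_abs_self _).trans h1
    calc η * (‖x 0‖ ^ 2 + ‖x 1‖ ^ 2) ≤ η * (B + 1) := by
          apply mul_le_mul_of_nonneg_left _ hη0.le; linarith
      _ = m / 4 := by rw [hη]; field_simp
  -- delta
  have huc := hL.uniformContinuousOn_of_continuous hwL
  rw [Metric.uniformContinuousOn_iff] at huc
  obtain ⟨δ', hδ', hδw⟩ := huc (m / 4) (by linarith)
  set δ : ℝ := min r (δ' / 2) with hδ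
  have hδ0 : 0 < δ := lt_min hr0 (by linarith)
  have hδr : δ ≤ r := min_le_left _ _
  have hδ2 : δ < δ' := lt_of_le_of_lt (min_le_right _ _) (by linarith)
  obtain ⟨χ, hχ, hχc, hχ0, hχs, hχr, hχ1⟩ := exists_kernel δ hδ0
  obtain ⟨hf1, hf2, hf3, hf4⟩ := moll δ hδ0 χ hχ hχc hχ0 hχs hχr hχ1 gg hmeas C hC L hdisc
  set f : E → ℝ := fun x => ∫ y, gg (x - y) * χ y with hf
  set L1 : Set E := cthickening (2 * r) K with hL1def
  have hL1 : IsCompact L1 := hK.cthickening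
  have hL1mem : ∀ x, x ∈ L1 ↔ ∃ k ∈ K, ‖x - k‖ ≤ 2 * r := hcth (2 * r) (by positivity)
  have hL1L : L1 ⊆ L := by
    intro x hx
    obtain ⟨k, hk, h⟩ := (hL1mem x).1 hx
    exact (hLmem x).2 ⟨k, hk, by linarith⟩
  have hx₁L1 : x₁ ∈ L1 := (hL1mem x₁).2 ⟨x₁, hx₁K, by simp; positivity⟩
  have hΦc : ContinuousOn (fun x : E => f x + η * (‖x 0‖ ^ 2 + ‖x 1‖ ^ 2) - w x) L1 :=
    ((hf1.continuous.continuousOn).add (continuousOn_const.mul hqc.continuousOn)).sub
      (hwL.mono hL1L)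
  obtain ⟨p, hp, hpmax⟩ := hL1.exists_isMaxOn ⟨x₁, hx₁L1⟩ hΦc
  have hΦx : m ≤ f x₁ + η * (‖x₁ 0‖ ^ 2 + ‖x₁ 1‖ ^ 2) - w x₁ := by
    have h1 : gg x₁ ≤ f x₁ := by
      refine hf3 x₁ fun y hy => ?_
      refine (hLmem _).2 ⟨x₁, hx₁K, ?_⟩
      rw [show x₁ - y - x₁ = -y by abel, norm_neg]
      linarith
    have h2 : 0 ≤ η * (‖x₁ 0‖ ^ 2 + ‖x₁ 1‖ ^ 2) := by positivity
    rw [hm]; linarith
  have hpr : ∃ k ∈ K, ‖p - k‖ ≤ r := by
    by_contra hcon
    push Not at hcon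
    obtain ⟨k0, hk0, hpk0⟩ := (hL1mem p).1 hp
    have h1 : f p ≤ w p + m / 4 := by
      refine hf4 p _ fun y hy => ?_
      have h2 : p - y ∈ L := by
        refine (hLmem _).2 ⟨k0, hk0, ?_⟩
        have : ‖p - y - k0‖ ≤ ‖p - k0‖ + ‖y‖ := by
          rw [show p - y - k0 = (p - k0) - y by abel]; exact norm_sub_le _ _
        linarith
      have h3 : p - y ∉ K := by
        intro h
        have h4 := hcon (p - y) h
        rw [show p - (p - y) = y by abel] at h4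
        linarith
      have h5 := hggw (p - y) h2 h3
      have h6 := hδw (p - y) h2 p (hL1L hp) (by
        rw [dist_eq_norm, show p - y - p = -y by abel, norm_neg]; linarith)
      rw [Real.dist_eq, abs_lt] at h6
      linarith
    have h7 := hηB p (hL1L hp)
    have h8 : f x₁ + η * (‖x₁ 0‖ ^ 2 + ‖x₁ 1‖ ^ 2) - w x₁ ≤
      f p + η * (‖p 0‖ ^ 2 + ‖p 1‖ ^ 2) - w p := hpmax hx₁L1
    linarith
  obtain ⟨k, hk, hpk⟩ := hpr
  refine ⟨f, η, p, hη0, hLU (hL1L hp), hf1, ⟨r, hr0, fun b hb => ?_⟩, ?_⟩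
  · refine hf2 p b fun z hz y hy => ?_
    refine (hLmem _).2 ⟨k, hk, ?_⟩
    have h1 : ‖z • b‖ ≤ r := by
      rw [norm_smul]
      calc ‖z‖ * ‖b‖ ≤ 1 * r := mul_le_mul hz hb (norm_nonneg _) zero_le_one
        _ = r := one_mul r
    have h2 : ‖p + z • b - y - k‖ ≤ ‖p - k‖ + ‖z • b‖ + ‖y‖ := by
      rw [show p + z • b - y - k = (p - k) + z • b - y by abel]
      exact (norm_sub_le _ _).trans (add_le_add_left (norm_add_le _ _) _)
    linarith
  · filter_upwards [Metric.ball_mem_nhds p hr0] with x hx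
    rw [Metric.mem_ball, dist_eq_norm] at hx
    refine hpmax ((hL1mem x).2 ⟨k, hk, ?_⟩)
    have h2 : ‖x - k‖ ≤ ‖x - p‖ + ‖p - k‖ := by
      rw [show x - k = (x - p) + (p - k) by abel]; exact norm_add_le _ _
    linarith

end Pool.Agent.Bl169
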