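import Mathlib
set_option autoImplicit false
namespace Pool.Agent.Bl169

theorem x0_step (N lam : ℕ) (hN : 16 ≤ N) (hlam : 1 ≤ lam) (a b c : ℂ) (ha : ‖a‖ ≤ 1)
    (hb : ‖b‖ ≤ ‖a‖ / 8) (hc : ‖c‖ ≤ ‖a‖ / 8) :
    ‖a‖ ^ N / 4 ≤ ‖(a ^ N - b ^ N - c ^ N) / 3‖ ∧
    ‖((a - b) / 2) ^ N‖ ≤ ‖(a ^ N - b ^ N - c ^ N) / 3‖ / 8 ∧
    ‖b ^ (N * lam)‖ ≤ ‖(a ^ N - b ^ N - c ^ N) / 3‖ / 8 := by
  have hna : 0 ≤ ‖a‖ := norm_nonneg a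
  have haN : 0 ≤ ‖a‖ ^ N := pow_nonneg hna N
  have h8 : ((1:ℝ)/8) ^ N ≤ 1/32 := by
    calc ((1:ℝ)/8) ^ N ≤ (1/8) ^ 16 := pow_le_pow_of_le_one (by norm_num) (by norm_num) hN
      _ ≤ 1/32 := by norm_num
  have h916 : ((9:ℝ)/16) ^ N ≤ 1/32 := by
    calc ((9:ℝ)/16) ^ N ≤ (9/16) ^ 16 := pow_le_pow_of_le_one (by norm_num) (by norm_num) hN
      _ ≤ 1/32 := by norm_num
  have hbN : ‖b‖ ^ N ≤ ‖a‖ ^ N / 32 := by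
    calc ‖b‖ ^ N ≤ (‖a‖ / 8) ^ N := pow_le_pow_left₀ (norm_nonneg b) hb N
      _ = ‖a‖ ^ N * (1/8) ^ N := by rw [← mul_pow]; congr 1; ring
      _ ≤ ‖a‖ ^ N * (1/32) := mul_le_mul_of_nonneg_left h8 haN
      _ = ‖a‖ ^ N / 32 := by ring
  have hcN : ‖c‖ ^ N ≤ ‖a‖ ^ N / 32 := by
    calc ‖c‖ ^ N ≤ (‖a‖ / 8) ^ N := pow_le_pow_left₀ (norm_nonneg c) hc N
      _ = ‖a‖ ^ N * (1/8) ^ N := by rw [← mul_pow]; congr 1; ring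
      _ ≤ ‖a‖ ^ N * (1/32) := mul_le_mul_of_nonneg_left h8 haN
      _ = ‖a‖ ^ N / 32 := by ring
  have hmain : ‖a‖ ^ N / 4 ≤ ‖(a ^ N - b ^ N - c ^ N) / 3‖ := by
    rw [norm_div]
    have h3 : ‖(3:ℂ)‖ = 3 := by simp
    rw [h3]
    have h1 : ‖a ^ N‖ - ‖b ^ N‖ ≤ ‖a ^ N - b ^ N‖ := norm_sub_norm_le _ _
    have h2 : ‖a ^ N - b ^ N‖ - ‖c ^ N‖ ≤ ‖a ^ N - b ^ N - c ^ N‖ := norm_sub_norm_le _ _
    rw [norm_pow] at h1 h2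
    rw [norm_pow] at h1
    linarith
  refine ⟨hmain, ?_, ?_⟩
  · have h1 : ‖((a - b) / 2) ^ N‖ ≤ ‖a‖ ^ N / 32 := by
      rw [norm_pow, norm_div]
      have h2 : ‖(2:ℂ)‖ = 2 := by simp
      rw [h2]
      have h3 : ‖a - b‖ / 2 ≤ ‖a‖ * (9/16) := by
        have := norm_sub_le a b
        linarith
      calc (‖a - b‖ / 2) ^ N ≤ (‖a‖ * (9/16)) ^ N :=
            pow_le_pow_left₀ (by positivity) h3 N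
        _ = ‖a‖ ^ N * (9/16) ^ N := mul_pow _ _ _
        _ ≤ ‖a‖ ^ N * (1/32) := mul_le_mul_of_nonneg_left h916 haN
        _ = ‖a‖ ^ N / 32 := by ring
    linarith
  · have h1 : ‖b ^ (N * lam)‖ ≤ ‖b‖ ^ N := by
      rw [norm_pow]
      apply pow_le_pow_of_le_one (norm_nonneg b)
      · linarith
      · exact Nat.le_mul_of_pos_right N hlam
    linarith

theorem x0_first (N lam : ℕ) (hN : 16 ≤ N) (hlam : 1 ≤ lam) (e : ℝ) (he : 0 < e) (he1 : e ≤ 1) :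
    e ^ N / 4 ≤ ‖((((e / 2 : ℝ) : ℂ)) ^ N - (0 : ℂ) ^ N - ((e : ℝ) : ℂ) ^ N) / 3‖ ∧
    ‖((((e / 2 : ℝ) : ℂ) - 0) / 2) ^ N‖ ≤
      ‖((((e / 2 : ℝ) : ℂ)) ^ N - (0 : ℂ) ^ N - ((e : ℝ) : ℂ) ^ N) / 3‖ / 8 ∧
    ‖(0 : ℂ) ^ (N * lam)‖ ≤
      ‖((((e / 2 : ℝ) : ℂ)) ^ N - (0 : ℂ) ^ N - ((e : ℝ) : ℂ) ^ N) / 3‖ / 8 := by
  have hN0 : N ≠ 0 := by omega
  have heN : 0 ≤ e ^ N := pow_nonneg he.le N
  have h2N : ((1:ℝ)/2) ^ N ≤ 1/32 := by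
    calc ((1:ℝ)/2) ^ N ≤ (1/2) ^ 16 := pow_le_pow_of_le_one (by norm_num) (by norm_num) hN
      _ ≤ 1/32 := by norm_num
  have h4N : ((1:ℝ)/4) ^ N ≤ 1/32 := by
    calc ((1:ℝ)/4) ^ N ≤ (1/4) ^ 16 := pow_le_pow_of_le_one (by norm_num) (by norm_num) hN
      _ ≤ 1/32 := by norm_num
  have h0 : (0:ℂ) ^ N = 0 := zero_pow hN0
  have hN2 : N * lam ≠ 0 := Nat.mul_ne_zero hN0 (by omega)
  have he2 : ‖(((e / 2 : ℝ) : ℂ))‖ = e / 2 := by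
    rw [Complex.norm_real, Real.norm_of_nonneg (by positivity)]
  have he3 : ‖((e : ℝ) : ℂ)‖ = e := by
    rw [Complex.norm_real, Real.norm_of_nonneg he.le]
  have h3 : ‖(3:ℂ)‖ = 3 := by simp
  have h2' : ‖(2:ℂ)‖ = 2 := by simp
  have hmain : e ^ N / 4 ≤ ‖((((e / 2 : ℝ) : ℂ)) ^ N - (0 : ℂ) ^ N - ((e : ℝ) : ℂ) ^ N) / 3‖ := by
    rw [h0, sub_zero, norm_div, h3, norm_sub_rev]
    have h1 : ‖((e : ℝ) : ℂ) ^ N‖ - ‖(((e / 2 : ℝ) : ℂ)) ^ N‖ ≤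
        ‖((e : ℝ) : ℂ) ^ N - (((e / 2 : ℝ) : ℂ)) ^ N‖ := norm_sub_norm_le _ _
    rw [norm_pow, norm_pow, he2, he3] at h1
    have h4 : (e / 2) ^ N ≤ e ^ N / 32 := by
      calc (e / 2) ^ N = e ^ N * (1/2) ^ N := by rw [← mul_pow]; congr 1; ring
        _ ≤ e ^ N * (1/32) := mul_le_mul_of_nonneg_left h2N heN
        _ = e ^ N / 32 := by ring
    linarith
  refine ⟨hmain, ?_, ?_⟩
  · have h1 : ‖((((e / 2 : ℝ) : ℂ) - 0) / 2) ^ N‖ ≤ e ^ N / 32 := by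
      rw [sub_zero, norm_pow, norm_div, h2', he2]
      calc (e / 2 / 2) ^ N = e ^ N * (1/4) ^ N := by rw [← mul_pow]; congr 1; ring
        _ ≤ e ^ N * (1/32) := mul_le_mul_of_nonneg_left h4N heN
        _ = e ^ N / 32 := by ring
    linarith
  · rw [zero_pow hN2, norm_zero]
    positivity

end Pool.Agent.Bl169
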