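import Pool.Agent.Bl169.Defs
import Pool.Agent.Bl169.QStep
import Pool.Agent.Bl169.Loss
import Pool.Agent.Bl169.ChainStep
import Pool.Agent.Bl169.X0Step
import Pool.Agent.Bl169.LogMax
import Pool.Agent.Bl169.Inf
import Pool.Agent.Bl169.Touch
import Pool.Agent.Bl169.NoTouch
import Pool.Agent.Bl169.CurveLe
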