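import Mathlib
set_option autoImplicit false
namespace Pool.Agent.Bl169

theorem pow_sub_est_bin (η : ℂ) (N : ℕ) :
    ‖(1 + η) ^ N - 1 - N * η‖ ≤ (1 + ‖η‖) ^ N - 1 - N * ‖η‖ := by
  induction N with
  | zero => simp
  | succ n ih =>
    have e1 : (1 + η) ^ (n + 1) - 1 - ((n + 1 : ℕ) : ℂ) * η =
      (1 + η) * ((1 + η) ^ n - 1 - n * η) + n * η ^ 2 := by
      push_cast
      ring
    have e2 : (1 + ‖η‖) ^ (n + 1) - 1 - ((n + 1 : ℕ) : ℝ) * ‖η‖ =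
      (1 + ‖η‖) * ((1 + ‖η‖) ^ n - 1 - n * ‖η‖) + n * ‖η‖ ^ 2 := by
      push_cast
      ring
    rw [e1, e2]
    refine le_trans (norm_add_le _ _) ?_
    rw [norm_mul, norm_mul, norm_pow, Complex.norm_natCast]
    have h1 : ‖1 + η‖ ≤ 1 + ‖η‖ := by
      have := norm_add_le (1:ℂ) η
      rwa [norm_one] at this
    have h2 : ‖1 + η‖ * ‖(1 + η) ^ n - 1 - n * η‖ ≤ (1 + ‖η‖) * ((1 + ‖η‖) ^ n - 1 - n * ‖η‖) :=
      mul_le_mul h1 ih (norm_nonneg _) (by positivity)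
    linarith

theorem pow_sub_est_real (t : ℝ) (N : ℕ) (ht : 0 ≤ t) (h : N * t ≤ 1 / 4) :
    (1 + t) ^ N - 1 - N * t ≤ 3 / 20 * (N * t) := by
  obtain ⟨x, hx⟩ : ∃ x : ℝ, x = N * t := ⟨_, rfl⟩
  have hx0 : 0 ≤ x := by rw [hx]; positivity
  have h1 : (1 + t) ^ N ≤ Real.exp x := by
    have h2 : 1 + t ≤ Real.exp t := by
      have := Real.add_one_le_exp t
      linarith
    calc (1 + t) ^ N ≤ (Real.exp t) ^ N := pow_le_pow_left₀ (by linarith) h2 N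
      _ = Real.exp x := by rw [hx, ← Real.exp_nat_mul]
  rw [← hx] at h ⊢
  have h3 := Real.exp_bound' hx0 (by linarith) (n := 3) (by norm_num)
  simp [Finset.sum_range_succ, Nat.factorial] at h3
  nlinarith [mul_nonneg hx0 hx0, mul_nonneg hx0 (sub_nonneg.mpr h), mul_nonneg (mul_nonneg hx0 hx0) (sub_nonneg.mpr h)]

theorem pow_sub_est (N : ℕ) (hN : 1 ≤ N) (a b : ℂ) (h : ‖a - b‖ ≤ ‖b‖ / (4 * N)) :
    17 / 20 * (N * ‖a - b‖ * ‖b‖ ^ N) ≤ ‖a ^ N - b ^ N‖ * ‖b‖ ∧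
    ‖a ^ N - b ^ N‖ * ‖b‖ ≤ 23 / 20 * (N * ‖a - b‖ * ‖b‖ ^ N) := by
  have hN' : (1:ℝ) ≤ N := by exact_mod_cast hN
  by_cases hb : b = 0
  · subst hb
    rw [norm_zero, zero_div] at h
    have h0 : ‖a - 0‖ = 0 := le_antisymm h (norm_nonneg _)
    rw [h0, norm_zero]
    simp
  · have hbn : 0 < ‖b‖ := norm_pos_iff.mpr hb
    obtain ⟨η, hη⟩ : ∃ η : ℂ, η = (a - b) / b := ⟨_, rfl⟩
    have ha : a = b * (1 + η) := by
      rw [hη]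
      field_simp
      ring
    have hab : ‖a - b‖ = ‖b‖ * ‖η‖ := by
      rw [← norm_mul, hη]
      congr 1
      field_simp
    have hx : N * ‖η‖ ≤ 1 / 4 := by
      rw [hab, le_div_iff₀ (by positivity)] at h
      nlinarith
    have h1 := pow_sub_est_bin η N
    have h2 := pow_sub_est_real ‖η‖ N (norm_nonneg _) hx
    have h3 : ‖(1 + η) ^ N - 1 - N * η‖ ≤ 3 / 20 * (N * ‖η‖) := le_trans h1 h2
    have h4 : ‖(N : ℂ) * η‖ = N * ‖η‖ := by rw [norm_mul, Complex.norm_natCast]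
    have h5 : ‖(1 + η) ^ N - 1‖ ≤ 23 / 20 * (N * ‖η‖) := by
      have e : (1 + η) ^ N - 1 = ((1 + η) ^ N - 1 - N * η) + N * η := by ring
      rw [e]
      refine le_trans (norm_add_le _ _) ?_
      rw [h4]
      linarith
    have h6 : 17 / 20 * (N * ‖η‖) ≤ ‖(1 + η) ^ N - 1‖ := by
      have e : (N : ℂ) * η = ((1 + η) ^ N - 1) - ((1 + η) ^ N - 1 - N * η) := by ring
      have h7 : ‖(N : ℂ) * η‖ ≤ ‖(1 + η) ^ N - 1‖ + ‖(1 + η) ^ N - 1 - N * η‖ := by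
        conv_lhs => rw [e]
        exact norm_sub_le _ _
      rw [h4] at h7
      linarith
    have h8 : ‖a ^ N - b ^ N‖ = ‖b‖ ^ N * ‖(1 + η) ^ N - 1‖ := by
      rw [ha, mul_pow, ← norm_pow, ← norm_mul]
      congr 1
      ring
    rw [h8, hab]
    have hbN : 0 < ‖b‖ ^ N * ‖b‖ := by positivity
    constructor
    · calc 17 / 20 * (N * (‖b‖ * ‖η‖) * ‖b‖ ^ N) = (‖b‖ ^ N * ‖b‖) * (17 / 20 * (N * ‖η‖)) := by ring
        _ ≤ (‖b‖ ^ N * ‖b‖) * ‖(1 + η) ^ N - 1‖ := mul_le_mul_of_nonneg_left h6 hbN.le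
        _ = ‖b‖ ^ N * ‖(1 + η) ^ N - 1‖ * ‖b‖ := by ring
    · calc ‖b‖ ^ N * ‖(1 + η) ^ N - 1‖ * ‖b‖ = (‖b‖ ^ N * ‖b‖) * ‖(1 + η) ^ N - 1‖ := by ring
        _ ≤ (‖b‖ ^ N * ‖b‖) * (23 / 20 * (N * ‖η‖)) := mul_le_mul_of_nonneg_left h5 hbN.le
        _ = 23 / 20 * (N * (‖b‖ * ‖η‖) * ‖b‖ ^ N) := by ring

end Pool.Agent.Bl169
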