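import Pool.Agent.Bl169.Lem
set_option autoImplicit false
open Set Filter Topology Metric MeasureTheory
namespace Pool.Agent.Bl169

lemma an_all (j : ℕ) : (∀ x, AnalyticAt ℂ (fA j) x) ∧ (∀ x, AnalyticAt ℂ (fB j) x) ∧
    (∀ x, AnalyticAt ℂ (fC j) x) := by
  induction j with
  | zero =>
    have h0 : ∀ (i : Fin 2) (x : E), AnalyticAt ℂ (fun y : E => y i) x := fun i x =>
      (ContinuousLinearMap.proj (R := ℂ) (φ := fun _ : Fin 2 => ℂ) i).analyticAt x
    refine ⟨fun x => h0 1 x, fun x => (h0 0 x).pow 20, fun x => analyticAt_const⟩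
  | succ j ih =>
    obtain ⟨hA, hB, hC⟩ := ih
    refine ⟨fun x => ?_, fun x => ?_, fun x => ?_⟩
    · have : AnalyticAt ℂ (fun y => (fA j y ^ NN j - fB j y ^ NN j - fC j y ^ NN j) / 3) x :=
        ((((hA x).pow _).sub ((hB x).pow _)).sub ((hC x).pow _)).div_const
      exact this
    · have : AnalyticAt ℂ (fun y => ((fA j y - fB j y) / 2) ^ NN j) x :=
        (((hA x).sub (hB x)).div_const).pow _
      exact this
    · have : AnalyticAt ℂ (fun y => fB j y ^ (NN j * (2 * hl j))) x := (hB x).pow _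
      exact this

lemma anA (j : ℕ) (x : E) : AnalyticAt ℂ (fA j) x := (an_all j).1 x
lemma anB (j : ℕ) (x : E) : AnalyticAt ℂ (fB j) x := (an_all j).2.1 x
lemma anC (j : ℕ) (x : E) : AnalyticAt ℂ (fC j) x := (an_all j).2.2 x

lemma contA (j : ℕ) : Continuous (fA j) := continuous_iff_continuousAt.2 fun x => (anA j x).continuousAt
lemma contB (j : ℕ) : Continuous (fB j) := continuous_iff_continuousAt.2 fun x => (anB j x).continuousAt
lemma contC (j : ℕ) : Continuous (fC j) := continuous_iff_continuousAt.2 fun x => (anC j x).continuousAt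
lemma contW (j : ℕ) : Continuous (WW j) :=
  ((contA j).norm.max (contB j).norm).max (contC j).norm

lemma NN_ne (j : ℕ) : NN j ≠ 0 := (NN_pos j).ne'

lemma ne_all (j : ℕ) (x : E) : ¬ (fA j x = 0 ∧ fB j x = 0 ∧ fC j x = 0) := by
  induction j with
  | zero =>
    rintro ⟨-, -, h⟩
    rw [fC_zero] at h
    exact eps_pos.ne' (by exact_mod_cast h)
  | succ j ih =>
    rintro ⟨h1, h2, h3⟩
    rw [fA_succ] at h1
    rw [fB_succ] at h2
    rw [fC_succ] at h3
    have hb : fB j x = 0 := eq_zero_of_pow_eq_zero h3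
    have hab : (fA j x - fB j x) / 2 = 0 := eq_zero_of_pow_eq_zero h2
    have ha : fA j x = 0 := by
      rw [hb, sub_zero] at hab
      have := div_eq_zero_iff.1 hab
      simpa using this
    rw [ha, hb, zero_pow (NN_ne j), sub_zero, zero_sub] at h1
    have hc : fC j x = 0 := by
      have h4 : fC j x ^ NN j = 0 := by
        have := div_eq_zero_iff.1 h1
        simpa using this
      exact eq_zero_of_pow_eq_zero h4
    exact ih ⟨ha, hb, hc⟩

theorem WW_pos (j : ℕ) (x : E) : 0 < WW j x := by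
  by_contra h
  push Not at h
  have h1 : ‖fA j x‖ ≤ 0 := le_trans (le_trans (le_max_left _ _) (le_max_left _ _)) h
  have h2 : ‖fB j x‖ ≤ 0 := le_trans (le_trans (le_max_right _ _) (le_max_left _ _)) h
  have h3 : ‖fC j x‖ ≤ 0 := le_trans (le_max_right _ _) h
  exact ne_all j x ⟨norm_le_zero_iff.1 h1, norm_le_zero_iff.1 h2, norm_le_zero_iff.1 h3⟩

lemma A_le (j : ℕ) (x : E) : ‖fA j x‖ ≤ WW j x := le_trans (le_max_left _ _) (le_max_left _ _)
lemma B_le (j : ℕ) (x : E) : ‖fB j x‖ ≤ WW j x := le_trans (le_max_right _ _) (le_max_left _ _)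
lemma C_le (j : ℕ) (x : E) : ‖fC j x‖ ≤ WW j x := le_max_right _ _

lemma WW_succ_le (j : ℕ) (x : E) (hB : ‖fB j x‖ ≤ 1) : WW (j + 1) x ≤ WW j x ^ NN j := by
  have hA := A_le j x
  have hB' := B_le j x
  have hC := C_le j x
  have h1 : ‖fA j x‖ ^ NN j ≤ WW j x ^ NN j := pow_le_pow_left₀ (norm_nonneg _) hA _
  have h2 : ‖fB j x‖ ^ NN j ≤ WW j x ^ NN j := pow_le_pow_left₀ (norm_nonneg _) hB' _
  have h3 : ‖fC j x‖ ^ NN j ≤ WW j x ^ NN j := pow_le_pow_left₀ (norm_nonneg _) hC _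
  refine max_le (max_le ?_ ?_) ?_
  · rw [fA_succ, norm_div]
    have h4 : ‖fA j x ^ NN j - fB j x ^ NN j - fC j x ^ NN j‖ ≤
        ‖fA j x‖ ^ NN j + ‖fB j x‖ ^ NN j + ‖fC j x‖ ^ NN j := by
      refine (norm_sub_le _ _).trans ?_
      rw [norm_pow (fC j x)]
      gcongr
      refine (norm_sub_le _ _).trans ?_
      rw [norm_pow, norm_pow]
    have h5 : ‖(3 : ℂ)‖ = 3 := by simp
    rw [h5, div_le_iff₀ (by norm_num)]
    linarith
  · rw [fB_succ, norm_pow]
    refine pow_le_pow_left₀ (norm_nonneg _) ?_ _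
    rw [norm_div]
    have h4 : ‖fA j x - fB j x‖ ≤ ‖fA j x‖ + ‖fB j x‖ := norm_sub_le _ _
    have h5 : ‖(2 : ℂ)‖ = 2 := by simp
    rw [h5, div_le_iff₀ (by norm_num)]
    linarith
  · rw [fC_succ, norm_pow]
    refine le_trans ?_ h2
    exact pow_le_pow_of_le_one (norm_nonneg _) hB
      (Nat.le_mul_of_pos_right _ (by have := hl_pos j; omega))

theorem WW_le (j : ℕ) (x : E) (hx : x ∈ Om) : WW j x ≤ (1 / 2) ^ (DD j) := by
  induction j with
  | zero =>
    have h0 := hx.1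
    have h1 := hx.2
    refine max_le (max_le ?_ ?_) ?_
    · rw [fA_zero]; simp only [DD]; linarith
    · rw [fB_zero, norm_pow]
      calc ‖x 0‖ ^ 20 ≤ (1 / 2 : ℝ) ^ 20 := pow_le_pow_left₀ (norm_nonneg _) h0.le _
        _ ≤ (1 / 2) ^ (DD 0) := pow_le_pow_of_le_one (by norm_num) (by norm_num) (by simp [DD])
    · rw [fC_zero, Complex.norm_real, Real.norm_eq_abs, abs_of_pos eps_pos]
      have := eps_le
      simp only [DD]; linarith
  | succ j ih =>
    have hB : ‖fB j x‖ ≤ 1 := (B_le j x).trans (ih.trans (pow_le_one₀ (by norm_num) (by norm_num)))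
    calc WW (j + 1) x ≤ WW j x ^ NN j := WW_succ_le j x hB
      _ ≤ ((1 / 2) ^ (DD j)) ^ NN j := pow_le_pow_left₀ (WW_pos j x).le ih _
      _ = (1 / 2) ^ (DD (j + 1)) := by rw [← pow_mul]; rfl

lemma DD_ge (j : ℕ) : j + 14 ≤ DD (j + 1) := by
  induction j with
  | zero =>
    have := NN_ge 0
    simp only [DD]; omega
  | succ j ih =>
    have := NN_ge (j + 1)
    have h2 : DD (j + 2) = DD (j + 1) * NN (j + 1) := rfl
    rw [h2]
    nlinarith

theorem fB_le (j : ℕ) (x : E) (hx : x ∈ Om) : ‖fB j x‖ ≤ 1 / (8 * (NN j : ℝ)) := by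
  have key : ‖fB j x‖ ≤ (1 / 2 : ℝ) ^ (j + 13) := by
    rcases j with _ | j
    · rw [fB_zero, norm_pow]
      calc ‖x 0‖ ^ 20 ≤ (1 / 2 : ℝ) ^ 20 := pow_le_pow_left₀ (norm_nonneg _) hx.1.le _
        _ ≤ (1 / 2) ^ (0 + 13) := pow_le_pow_of_le_one (by norm_num) (by norm_num) (by norm_num)
    · calc ‖fB (j + 1) x‖ ≤ WW (j + 1) x := B_le _ _
        _ ≤ (1 / 2) ^ (DD (j + 1)) := WW_le _ _ hx
        _ ≤ (1 / 2) ^ (j + 1 + 13) :=
          pow_le_pow_of_le_one (by norm_num) (by norm_num) (by have := DD_ge j; omega)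
  refine key.trans (le_of_eq ?_)
  unfold NN
  push_cast
  rw [one_div_pow, show (8 : ℝ) = 2 ^ 3 by norm_num, ← pow_add]
  congr 2
  ring

lemma ww_anti (j : ℕ) (x : E) (hx : x ∈ Om) : ww (j + 1) x ≤ ww j x := by
  have hB : ‖fB j x‖ ≤ 1 := (B_le j x).trans
    ((WW_le j x hx).trans (pow_le_one₀ (by norm_num) (by norm_num)))
  have h1 := Real.log_le_log (WW_pos (j + 1) x) (WW_succ_le j x hB)
  rw [Real.log_pow] at h1
  have hD : (0 : ℝ) < DD j := by exact_mod_cast DD_pos j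
  have hN : (0 : ℝ) < NN j := by exact_mod_cast NN_pos j
  have e : (DD (j + 1) : ℝ) = DD j * NN j := by exact_mod_cast rfl
  unfold ww
  rw [e]
  calc ((DD j : ℝ) * NN j)⁻¹ * Real.log (WW (j + 1) x)
      ≤ ((DD j : ℝ) * NN j)⁻¹ * (NN j * Real.log (WW j x)) := by gcongr
    _ = (DD j : ℝ)⁻¹ * Real.log (WW j x) := by field_simp

lemma cpsh_ww (U : Set E) (j : ℕ) : CPsh U (ww j) := by
  have h := cpsh_log_max U (fA j) (fB j) (fC j) (anA j) (anB j) (anC j) (WW_pos j)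
  exact cpsh_smul U _ h _ (inv_nonneg.2 (Nat.cast_nonneg _))

lemma rho_ge (j : ℕ) : 1 ≤ rho j := by
  rcases j with _ | j
  · simp [rho]
  · exact hl_pos j

lemma num_Q (j : ℕ) : 2 * hl j ≤ NN j * (rho j - 1) + 1 := by
  rcases j with _ | j
  · norm_num [hl, NN, rho]
  · have h1 : rho (j + 1) = hl j := rfl
    rw [h1]
    have e1 : hl (j + 1) = 8 * hl j := by unfold hl; ring
    have e2 := NN_ge (j + 1)
    have e3 : 2 ≤ hl j := by
      unfold hl
      calc 2 = 2 ^ 1 := by norm_num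
        _ ≤ 2 ^ (3 * j + 16) := Nat.pow_le_pow_right (by norm_num) (by omega)
    rw [e1]
    obtain ⟨k, hk⟩ : ∃ k, hl j = k + 2 := ⟨hl j - 2, by omega⟩
    rw [hk]
    have : k + 2 - 1 = k + 1 := by omega
    rw [this]
    nlinarith

lemma num_G (j : ℕ) : GG j * (2 * hl j - 1) ≤ NN j * (rho j - 1) + 1 := by
  rcases j with _ | j
  · norm_num [hl, NN, rho, GG]
  · have h1 : rho (j + 1) = hl j := rfl
    rw [h1]
    have e1 : hl (j + 1) = 8 * hl j := by unfold hl; ring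
    have e2 : NN (j + 1) = 64 * GG (j + 1) := by
      unfold NN GG
      ring
    have e3 : 2 ≤ hl j := by
      unfold hl
      calc 2 = 2 ^ 1 := by norm_num
        _ ≤ 2 ^ (3 * j + 16) := Nat.pow_le_pow_right (by norm_num) (by omega)
    rw [e1, e2]
    obtain ⟨k, hk⟩ : ∃ k, hl j = k + 2 := ⟨hl j - 2, by omega⟩
    rw [hk]
    have t1 : k + 2 - 1 = k + 1 := by omega
    have t2 : 2 * (8 * (k + 2)) - 1 = 16 * k + 31 := by omega
    rw [t1, t2]
    nlinarith [GG_pos (j + 1)]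

lemma GG_le (j : ℕ) : GG j ≤ NN j := Nat.pow_le_pow_right (by norm_num) (by omega)

/-- the property `Q_j` off `K` -/
lemma Q_all (j : ℕ) (x : E) (hx : x ∈ Om \ KK) :
    ‖fA j x - fB j x‖ ≤ ‖fB j x‖ / 4 → ‖fC j x‖ ≤ ‖fB j x‖ → ‖fC j x‖ ≤ ‖fB j x‖ ^ rho j := by
  induction j with
  | zero =>
    intro h1 _
    rw [fA_zero, fB_zero] at h1
    rw [fC_zero, fB_zero, Complex.norm_real, Real.norm_eq_abs, abs_of_pos eps_pos]
    by_cases hz : ‖x 0‖ ≤ 1 / 4
    · exfalso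
      have hw : 1 / 4 < ‖x 1‖ := by
        by_contra h
        exact hx.2 ⟨hz, not_lt.1 h⟩
      have h2 : ‖(x 0) ^ 20‖ ≤ 1 / 16 := by
        rw [norm_pow]
        calc ‖x 0‖ ^ 20 ≤ (1 / 4 : ℝ) ^ 20 := pow_le_pow_left₀ (norm_nonneg _) hz _
          _ ≤ 1 / 16 := by norm_num
      have h3 : ‖x 1‖ ≤ ‖x 1 - (x 0) ^ 20‖ + ‖(x 0) ^ 20‖ := by
        calc ‖x 1‖ = ‖(x 1 - (x 0) ^ 20) + (x 0) ^ 20‖ := by rw [sub_add_cancel]
          _ ≤ _ := norm_add_le _ _
      linarith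
    · push Not at hz
      have : rho 0 = 4096 := rfl
      rw [this, norm_pow, ← pow_mul]
      unfold eps
      exact pow_le_pow_left₀ (by norm_num) hz.le _
  | succ j ih =>
    intro h1 h2
    have hN : 16 ≤ NN j := le_trans (by norm_num) (NN_ge j)
    exact Q_step (NN j) (hl j) (rho j) hN (hl_pos j) (rho_ge j) (num_Q j)
      (fA j x) (fB j x) (fC j x) (fB_le j x hx.1) ih h1 h2

lemma loss_all (j : ℕ) (x : E) (hx : x ∈ Om \ KK) :
    WW j x ^ (NN j * GG j) * ‖(fA j x - fB j x) / 2‖ ^ NN j ≤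
      (16 * NN j : ℝ) ^ (NN j * GG j) * WW (j + 1) x ^ GG j := by
  have hN : 16 ≤ NN j := le_trans (by norm_num) (NN_ge j)
  exact loss_step (NN j) (2 * hl j) (rho j) (GG j) hN (by have := hl_pos j; omega) (rho_ge j)
    (GG_pos j) (GG_le j) (num_G j) (fA j x) (fB j x) (fC j x) (fB_le j x hx.1)
    ((WW_le j x hx.1).trans (pow_le_one₀ (by norm_num) (by norm_num))) (Q_all j x hx)

lemma exists_delta (j : ℕ) : ∃ δ : ℝ, 0 < δ ∧ δ ≤ 1 ∧ ∀ x ∈ Om \ KK,
    WW j x ^ (NN j * GG j) * (max ‖(fA j x - fB j x) / 2‖ δ) ^ NN j ≤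
      (16 * NN j : ℝ) ^ (NN j * GG j) * WW (j + 1) x ^ GG j := by
  obtain ⟨κ, hκ, hκ'⟩ : ∃ κ : ℝ, 0 < κ ∧ ∀ x ∈ closedBall (0 : E) (1 / 2), κ ≤ WW (j + 1) x := by
    obtain ⟨y, _, hy⟩ := (isCompact_closedBall (0 : E) (1 / 2)).exists_isMinOn
      ⟨0, by simp⟩ (contW (j + 1)).continuousOn
    exact ⟨WW (j + 1) y, WW_pos _ _, fun x hx => hy hx⟩
  refine ⟨min 1 (κ ^ GG j), lt_min one_pos (pow_pos hκ _), min_le_left _ _, fun x hx => ?_⟩
  have hxb : x ∈ closedBall (0 : E) (1 / 2) := by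
    rw [mem_closedBall_zero_iff, pi_norm_le_iff_of_nonneg (by norm_num)]
    intro i
    fin_cases i
    · exact hx.1.1.le
    · exact hx.1.2.le
  rcases le_total (min 1 (κ ^ GG j)) ‖(fA j x - fB j x) / 2‖ with h | h
  · rw [max_eq_left h]
    exact loss_all j x hx
  · rw [max_eq_right h]
    set δ := min 1 (κ ^ GG j) with hδ
    have hδ0 : 0 < δ := lt_min one_pos (pow_pos hκ _)
    have hW1 : WW j x ≤ 1 := (WW_le j x hx.1).trans (pow_le_one₀ (by norm_num) (by norm_num))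
    have h1 : WW j x ^ (NN j * GG j) ≤ 1 := pow_le_one₀ (WW_pos j x).le hW1
    have h2 : δ ^ NN j ≤ WW (j + 1) x ^ GG j := by
      calc δ ^ NN j ≤ δ ^ 1 := pow_le_pow_of_le_one hδ0.le (min_le_left _ _) (NN_pos j)
        _ = δ := pow_one _
        _ ≤ κ ^ GG j := min_le_right _ _
        _ ≤ WW (j + 1) x ^ GG j := pow_le_pow_left₀ hκ.le (hκ' x hxb) _
    have h3 : (1 : ℝ) ≤ (16 * NN j : ℝ) ^ (NN j * GG j) := by
      apply one_le_pow₀
      have : (1 : ℝ) ≤ NN j := by exact_mod_cast NN_pos j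
      linarith
    calc WW j x ^ (NN j * GG j) * δ ^ NN j ≤ 1 * WW (j + 1) x ^ GG j := by
          gcongr
      _ ≤ _ := by
          have := pow_pos (WW_pos (j + 1) x) (GG j)
          gcongr

noncomputable def dl (j : ℕ) : ℝ := (exists_delta j).choose
lemma dl_pos (j : ℕ) : 0 < dl j := (exists_delta j).choose_spec.1
lemma dl_le (j : ℕ) : dl j ≤ 1 := (exists_delta j).choose_spec.2.1
lemma dl_spec (j : ℕ) : ∀ x ∈ Om \ KK,
    WW j x ^ (NN j * GG j) * (max ‖(fA j x - fB j x) / 2‖ (dl j)) ^ NN j ≤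
      (16 * NN j : ℝ) ^ (NN j * GG j) * WW (j + 1) x ^ GG j := (exists_delta j).choose_spec.2.2

/-- the correction terms -/
noncomputable def tt (j : ℕ) (x : E) : ℝ :=
  (GG j : ℝ)⁻¹ * ((DD j : ℝ)⁻¹ * Real.log (max ‖(fA j x - fB j x) / 2‖ (dl j))) -
    (DD j : ℝ)⁻¹ * Real.log (16 * NN j)

noncomputable def vv (j : ℕ) (x : E) : ℝ :=
  -(20 * Real.log 4) + ∑ i ∈ Finset.range j, tt i x

lemma ww_step (j : ℕ) (x : E) (hx : x ∈ Om \ KK) : ww j x + tt j x ≤ ww (j + 1) x := by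
  have h := dl_spec j x hx
  have hm : 0 < max ‖(fA j x - fB j x) / 2‖ (dl j) := lt_max_of_lt_right (dl_pos j)
  have hW := WW_pos j x
  have hW1 := WW_pos (j + 1) x
  have hN : (0 : ℝ) < NN j := by exact_mod_cast NN_pos j
  have hG : (0 : ℝ) < GG j := by exact_mod_cast GG_pos j
  have hD : (0 : ℝ) < DD j := by exact_mod_cast DD_pos j
  have h1 := Real.log_le_log (by positivity) h
  rw [Real.log_mul (by positivity) (by positivity), Real.log_mul (by positivity) (by positivity),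
    Real.log_pow, Real.log_pow, Real.log_pow, Real.log_pow] at h1
  push_cast at h1
  have e : (DD (j + 1) : ℝ) = DD j * NN j := by exact_mod_cast rfl
  unfold ww tt
  rw [e]
  set L := Real.log (WW j x)
  set L' := Real.log (WW (j + 1) x)
  set m := Real.log (max ‖(fA j x - fB j x) / 2‖ (dl j))
  set q := Real.log (16 * (NN j : ℝ))
  have h2 : L + (GG j : ℝ)⁻¹ * m - q ≤ (NN j : ℝ)⁻¹ * L' := by
    have h3 : (NN j : ℝ) * GG j * (L + (GG j : ℝ)⁻¹ * m - q) ≤ NN j * GG j * ((NN j : ℝ)⁻¹ * L') := by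
      have e1 : (NN j : ℝ) * GG j * (L + (GG j : ℝ)⁻¹ * m - q) =
        NN j * GG j * L + NN j * m - NN j * GG j * q := by field_simp
      have e2 : (NN j : ℝ) * GG j * ((NN j : ℝ)⁻¹ * L') = GG j * L' := by field_simp
      rw [e1, e2]
      linarith
    exact le_of_mul_le_mul_left h3 (by positivity)
  calc (DD j : ℝ)⁻¹ * L + ((GG j : ℝ)⁻¹ * ((DD j : ℝ)⁻¹ * m) - (DD j : ℝ)⁻¹ * q)
      = (DD j : ℝ)⁻¹ * (L + (GG j : ℝ)⁻¹ * m - q) := by ring
    _ ≤ (DD j : ℝ)⁻¹ * ((NN j : ℝ)⁻¹ * L') := by gcongr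
    _ = ((DD j : ℝ) * NN j)⁻¹ * L' := by rw [mul_inv]; ring

lemma vv_le_ww (j : ℕ) (x : E) (hx : x ∈ Om \ KK) : vv j x ≤ ww j x := by
  induction j with
  | zero =>
    have e1 : vv 0 x = -(20 * Real.log 4) := by simp [vv]
    have e2 : ww 0 x = Real.log (WW 0 x) := by simp [ww, DD]
    rw [e1, e2]
    have h1 : (1 / 4 : ℝ) ^ 20 ≤ WW 0 x := by
      by_cases hz : ‖x 0‖ ≤ 1 / 4
      · have hw : 1 / 4 < ‖x 1‖ := by
          by_contra h
          exact hx.2 ⟨hz, not_lt.1 h⟩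
        refine le_trans ?_ (A_le 0 x)
        rw [fA_zero]
        calc (1 / 4 : ℝ) ^ 20 ≤ (1 / 4 : ℝ) ^ 1 :=
              pow_le_pow_of_le_one (by norm_num) (by norm_num) (by norm_num)
          _ ≤ ‖x 1‖ := by rw [pow_one]; exact hw.le
      · push Not at hz
        refine le_trans ?_ (B_le 0 x)
        rw [fB_zero, norm_pow]
        exact pow_le_pow_left₀ (by norm_num) hz.le _
    have h2 := Real.log_le_log (by positivity) h1
    rw [Real.log_pow, one_div, Real.log_inv] at h2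
    push_cast at h2
    linarith
  | succ j ih =>
    have e : vv (j + 1) x = vv j x + tt j x := by
      unfold vv; rw [Finset.sum_range_succ]; ring
    rw [e]
    linarith [ww_step j x hx]

lemma tt_nonpos (j : ℕ) (x : E) (hx : x ∈ Om) : tt j x ≤ 0 := by
  have hW1 : WW j x ≤ 1 := (WW_le j x hx).trans (pow_le_one₀ (by norm_num) (by norm_num))
  have hm1 : max ‖(fA j x - fB j x) / 2‖ (dl j) ≤ 1 := by
    refine max_le ?_ (dl_le j)
    rw [norm_div]
    have h4 : ‖fA j x - fB j x‖ ≤ ‖fA j x‖ + ‖fB j x‖ := norm_sub_le _ _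
    have h5 : ‖(2 : ℂ)‖ = 2 := by simp
    have := A_le j x
    have := B_le j x
    rw [h5, div_le_iff₀ (by norm_num)]
    linarith
  have hm : 0 < max ‖(fA j x - fB j x) / 2‖ (dl j) := lt_max_of_lt_right (dl_pos j)
  have h1 : Real.log (max ‖(fA j x - fB j x) / 2‖ (dl j)) ≤ 0 := Real.log_nonpos hm.le hm1
  have h2 : 0 ≤ Real.log (16 * NN j) := by
    apply Real.log_nonneg
    have : (1 : ℝ) ≤ NN j := by exact_mod_cast NN_pos j
    linarith
  have hG : (0 : ℝ) < GG j := by exact_mod_cast GG_pos j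
  have hD : (0 : ℝ) < DD j := by exact_mod_cast DD_pos j
  unfold tt
  have h3 : (GG j : ℝ)⁻¹ * ((DD j : ℝ)⁻¹ * Real.log (max ‖(fA j x - fB j x) / 2‖ (dl j))) ≤ 0 :=
    mul_nonpos_of_nonneg_of_nonpos (by positivity)
      (mul_nonpos_of_nonneg_of_nonpos (by positivity) h1)
  have h4 : 0 ≤ (DD j : ℝ)⁻¹ * Real.log (16 * NN j) := by positivity
  linarith

lemma vv_anti (j : ℕ) (x : E) (hx : x ∈ Om) : vv (j + 1) x ≤ vv j x := by
  have e : vv (j + 1) x = vv j x + tt j x := by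
    unfold vv; rw [Finset.sum_range_succ]; ring
  rw [e]
  linarith [tt_nonpos j x hx]

lemma cpsh_tt (U : Set E) (j : ℕ) : CPsh U (tt j) := by
  have h := cpsh_log_trunc U (fun x => (fA j x - fB j x) / 2)
    (fun x => ((anA j x).sub (anB j x)).div_const) (dl j) (dl_pos j)
  have h1 := cpsh_smul U _ h ((DD j : ℝ)⁻¹) (inv_nonneg.2 (Nat.cast_nonneg _))
  have h2 := cpsh_smul U _ h1 ((GG j : ℝ)⁻¹) (inv_nonneg.2 (Nat.cast_nonneg _))
  have h3 := cpsh_add U _ _ h2 (cpsh_const U (-((DD j : ℝ)⁻¹ * Real.log (16 * NN j))))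
  exact h3

lemma cpsh_vv (U : Set E) (j : ℕ) : CPsh U (vv j) := by
  induction j with
  | zero =>
    have e : vv 0 = fun _ => -(20 * Real.log 4) := by funext x; simp [vv]
    rw [e]; exact cpsh_const U _
  | succ j ih =>
    have e : vv (j + 1) = fun x => vv j x + tt j x := by
      funext x
      unfold vv; rw [Finset.sum_range_succ]; ring
    rw [e]
    exact cpsh_add U _ _ ih (cpsh_tt U j)

end Pool.Agent.Bl169
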